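import Pool.Agent.Lib.MP_a3a416_nt.WIN.MainW

/-! # WIN-AsyW: windows `(e, (11/6 + η) e]` for large `e` -/

set_option autoImplicit false

open Finset Filter

namespace MP_a3a416_nt.WIN

private theorem asy_coef {η : ℝ} (hη0 : 0 < η) (hη1 : η ≤ 1) {f : ℝ} (h20 : 20 ≤ f)
    (hf : 3 ≤ η * f) :
    (f + 3) * (5 * f + 3) + 1 ≤
      (5 / 6 + η / 2) * (8 * (f + 1) * (f + 3) - 2 * (f + 3) ^ 2 - 28 / 5 * (f + 5)) := by
  have h1 : 3 * f ≤ η * f * f := by nlinarith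
  nlinarith

private theorem asy_mu {η : ℝ} (hη0 : 0 < η) (hη1 : η ≤ 1) {f : ℕ} (h20 : 20 ≤ f)
    (hf : 3 ≤ η * f) {e T : ℕ} (he : 1 ≤ e) (hT : (5 / 6 + η / 2) * e ≤ T)
    (hq : 4 * (((f : ℝ) + 3) * (3 * f ^ 2 + 4 * f)) ≤ T) (hT0 : 0 < T) :
    1 / (64 * ((f : ℝ) + 1) * (f + 2)) * (16 * (T : ℝ) ^ 2 * (f + 1) * (f + 2)) <
      muW (e - 1) f T := by
  have h20' : (20 : ℝ) ≤ f := by exact_mod_cast h20
  have he' : (1 : ℝ) ≤ e := by exact_mod_cast he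
  have hT0' : (0 : ℝ) < T := by exact_mod_cast hT0
  have hco := asy_coef hη0 hη1 h20' hf
  have hl : 1 / (64 * ((f : ℝ) + 1) * (f + 2)) * (16 * (T : ℝ) ^ 2 * (f + 1) * (f + 2)) =
      (T : ℝ) ^ 2 / 4 := by
    field_simp
    ring
  rw [hl]
  unfold muW
  rw [Nat.cast_sub he, Nat.cast_one]
  set a : ℝ := 5 / 6 + η / 2 with ha
  have ha1 : a ≤ 4 / 3 := by rw [ha]; linarith
  have ha0 : 5 / 6 < a := by rw [ha]; linarith
  set cf : ℝ := 8 * ((f : ℝ) + 1) * (f + 3) - 2 * (f + 3) ^ 2 - 28 / 5 * (f + 5) with hcf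
  have hcf0 : 0 < cf := by
    rw [hcf]; nlinarith
  -- `a ((f+3)(5f+3)) e ≤ (a cf - 1) T`
  have h1 : ((f : ℝ) + 3) * (5 * f + 3) * (a * e) ≤ (a * cf - 1) * T := by
    have h2 : ((f : ℝ) + 3) * (5 * f + 3) ≤ a * cf - 1 := by linarith
    have h3 : 0 ≤ a * (e : ℝ) := by positivity
    have h4 : (0 : ℝ) ≤ a * cf - 1 := by
      have : (0 : ℝ) ≤ ((f : ℝ) + 3) * (5 * f + 3) := by positivity
      linarith
    exact mul_le_mul h2 hT h3 h4
  have h5 : ((f : ℝ) + 3) * (5 * f + 3) * e ≤ cf * T - 3 / 4 * T := by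
    have h6 : a * (((f : ℝ) + 3) * (5 * f + 3) * e) ≤ a * (cf * T - 3 / 4 * T) := by
      nlinarith
    exact le_of_mul_le_mul_left h6 (by linarith)
  have h7 : 0 ≤ ((f : ℝ) + 3) * (5 * f + 3) := by positivity
  have h8 : (T : ℝ) / 4 < T * cf - (f + 3) * (3 * f ^ 2 + 4 * f - 3 + ((e : ℝ) - 1) * (5 * f + 3)) := by
    nlinarith
  nlinarith

open Classical in
theorem windows_asy (η : ℝ) (hη : 0 < η) : ∃ δ : ℝ, 0 < δ ∧ ∃ e0 : ℕ, ∀ e w : ℕ, Odd e → e0 ≤ e →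
    (11 / 6 + η) * e ≤ w → ∀ c : ℕ → ℚ, ∀ᶠ x : ℕ in atTop, δ * ((x : ℝ) / Real.log x) ≤
      (((Finset.range (x + 1)).filter (fun p : ℕ => p.Prime ∧ w < p ∧
        ∃ k : ℕ, Odd k ∧ e < k ∧ k ≤ w ∧ ¬ (p : ℤ) ∣ (_root_.bernoulli (p - k) - c k).num)).card
        : ℝ) := by
  obtain ⟨η', h0, h1, hle⟩ : ∃ η' : ℝ, 0 < η' ∧ η' ≤ 1 ∧ η' ≤ η :=
    ⟨min η 1, lt_min hη one_pos, min_le_right _ _, min_le_left _ _⟩
  obtain ⟨f0, hf0⟩ := exists_nat_ge (3 / η')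
  set f : ℕ := max f0 20 with hf
  have h20 : 20 ≤ f := le_max_right _ _
  have h20' : (20 : ℝ) ≤ f := by exact_mod_cast h20
  have hff : 3 ≤ η' * f := by
    have h2 : (f0 : ℝ) ≤ f := by exact_mod_cast le_max_left _ _
    have h3 : 3 / η' ≤ f := hf0.trans h2
    rw [div_le_iff₀ h0] at h3
    linarith
  obtain ⟨e1, he1⟩ := exists_nat_ge
    (2 * (4 * (((f : ℝ) + 3) * (3 * f ^ 2 + 4 * f))) + 2 * (f / η'))
  refine ⟨1 / (64 * ((f : ℝ) + 1) * (f + 2)), by positivity, max e1 3, ?_⟩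
  intro e w hodd hee hw c
  have he3 : 3 ≤ e := (le_max_right _ _).trans hee
  have he1' : (e1 : ℝ) ≤ e := by exact_mod_cast (le_max_left _ _).trans hee
  have he0 : (3 : ℝ) ≤ e := by exact_mod_cast he3
  set T : ℕ := ⌈(5 / 6 + η' / 2) * (e : ℝ)⌉₊ with hTdef
  have hT1 : (5 / 6 + η' / 2) * (e : ℝ) ≤ T := Nat.le_ceil _
  have hT2 : (T : ℝ) < (5 / 6 + η' / 2) * (e : ℝ) + 1 := Nat.ceil_lt_add_one (by positivity)
  have hdiv : 0 ≤ (f : ℝ) / η' := by positivity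
  have hpoly : 0 ≤ 4 * (((f : ℝ) + 3) * (3 * f ^ 2 + 4 * f)) := by positivity
  have hTe : (e : ℝ) / 2 ≤ T := by nlinarith
  have hq : 4 * (((f : ℝ) + 3) * (3 * f ^ 2 + 4 * f)) ≤ T := by linarith
  have hTf : (f : ℝ) + 3 ≤ T := by
    refine le_trans ?_ hq
    nlinarith
  have hT : f + 3 ≤ T := by exact_mod_cast hTf
  have hf1 : 1 ≤ f := by omega
  have hmu := asy_mu h0 h1 h20 hff (by omega : 1 ≤ e) hT1 hq (by omega)
  have hev : Even (e - 1) := by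
    obtain ⟨j, hj⟩ := hodd
    exact ⟨j, by omega⟩
  have hfe : (f : ℝ) ≤ η' / 2 * e := by
    have h4 : 2 * ((f : ℝ) / η') ≤ e := by linarith
    have h5 : η' / 2 * (2 * ((f : ℝ) / η')) ≤ η' / 2 * e :=
      mul_le_mul_of_nonneg_left h4 (by positivity)
    have h6 : η' / 2 * (2 * ((f : ℝ) / η')) = f := by
      field_simp
    linarith
  have hwr : (e : ℝ) + f + T < w + 2 := by
    have h7 : (11 / 6 + η') * (e : ℝ) ≤ w := by
      refine le_trans ?_ hw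
      exact mul_le_mul_of_nonneg_right (by linarith) (by linarith)
    nlinarith
  have hwn : e + f + T ≤ w + 1 := by
    have h8 : e + f + T < w + 2 := by exact_mod_cast hwr
    omega
  have := window_main (e - 1) f T (by omega) hev hf1 hT c _ (by positivity) hmu w
    (fun k _ hk => by omega)
  refine this.mono fun x hx => hx.trans ?_
  have hsub : (Finset.range (x + 1)).filter (fun p : ℕ => p.Prime ∧ w < p ∧
        ∃ k : ℕ, Odd k ∧ e - 1 + 1 < k ∧ k ≤ w ∧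
          ¬ (p : ℤ) ∣ (_root_.bernoulli (p - k) - c k).num) ⊆
      (Finset.range (x + 1)).filter (fun p : ℕ => p.Prime ∧ w < p ∧
        ∃ k : ℕ, Odd k ∧ e < k ∧ k ≤ w ∧
          ¬ (p : ℤ) ∣ (_root_.bernoulli (p - k) - c k).num) := by
    intro p hp
    rw [mem_filter] at hp ⊢
    obtain ⟨hp1, hp2, hp3, k, hk1, hk2, hk3⟩ := hp
    exact ⟨hp1, hp2, hp3, k, hk1, by omega, hk3⟩
  exact_mod_cast card_le_card hsub

end MP_a3a416_nt.WIN
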