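import Pool.Agent.Lib.MP_a3a416_nt.WIN.ArGW
import Pool.Agent.Lib.MP_a3a416_nt.SJ.ArDefs

/-! # WIN-ArEntryW: bound for the entries, Chebyshev basis -/

set_option autoImplicit false

open Polynomial

namespace MP_a3a416_nt.WIN

open MP_a3a416_nt.SJ MP_a3a416_nt.SJ5

theorem abs_entryW (P : Par) (a : ℕ) : ∃ C : ℚ, 1 ≤ C ∧ ∀ (N : ℕ) (t : ℕ → ℚ[X]), 1 ≤ N →
    ChebOK N t → ∀ (β : Bk P) (i : ℕ) (n : ℤ) (k : ℕ), i < a * N → |n| ≤ N → k < P.T →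
    |PowerSeries.coeff k (JW P β (t i) n)| ≤ C * (N : ℚ) ^ (2 * P.T + 1) * ((N : ℚ) / 2) ^ i := by
  obtain ⟨C0, hC0, hg⟩ := abs_coeff_gW P
  have hc0 : (0 : ℚ) ≤ C0 := by linarith
  refine ⟨1 + (P.T : ℚ) * (2 * (a : ℚ) ^ (2 * P.T) * C0), ?_, ?_⟩
  · have : (0 : ℚ) ≤ (P.T : ℚ) * (2 * (a : ℚ) ^ (2 * P.T) * C0) := by positivity
    linarith
  intro N t hN ht β i n k hi hn hk
  have hN1 : (1 : ℚ) ≤ N := by exact_mod_cast hN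
  have hi' : (i : ℚ) + 1 ≤ a * N := by exact_mod_cast hi
  have haN : (1 : ℚ) ≤ a * N := by
    have : (0 : ℚ) ≤ i := Nat.cast_nonneg i
    linarith
  unfold JW
  rw [PowerSeries.coeff_mul]
  have key : ∀ x ∈ Finset.HasAntidiagonal.antidiagonal k,
      |PowerSeries.coeff x.1 (tp (t i) n) * PowerSeries.coeff x.2 (gW P β n)| ≤
        2 * (a : ℚ) ^ (2 * P.T) * C0 * (N : ℚ) ^ (2 * P.T + 1) * ((N : ℚ) / 2) ^ i := by
    intro x hx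
    rw [Finset.HasAntidiagonal.mem_antidiagonal] at hx
    rw [abs_mul, coeff_tp]
    have h5 : |(taylor (n : ℚ) (t i)).coeff x.1| ≤
        2 * ((a : ℚ) * N) ^ (2 * P.T) * ((N : ℚ) / 2) ^ i := by
      refine (ht.2 i x.1 n hn).trans ?_
      have h6 : ((i : ℚ) + 1) ^ (2 * x.1) ≤ ((a : ℚ) * N) ^ (2 * P.T) := by
        calc ((i : ℚ) + 1) ^ (2 * x.1) ≤ ((a : ℚ) * N) ^ (2 * x.1) :=
              pow_le_pow_left₀ (by positivity) hi' _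
          _ ≤ ((a : ℚ) * N) ^ (2 * P.T) := pow_le_pow_right₀ haN (by omega)
      gcongr
    have h7 : |PowerSeries.coeff x.2 (gW P β n)| ≤ C0 * N := hg β N n x.2 hN hn (by omega)
    calc |(taylor (n : ℚ) (t i)).coeff x.1| * |PowerSeries.coeff x.2 (gW P β n)|
        ≤ (2 * ((a : ℚ) * N) ^ (2 * P.T) * ((N : ℚ) / 2) ^ i) * (C0 * N) :=
          mul_le_mul h5 h7 (abs_nonneg _) (by positivity)
      _ = _ := by rw [mul_pow, pow_succ]; ring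
  refine (Finset.abs_sum_le_sum_abs _ _).trans ?_
  refine (Finset.sum_le_sum key).trans ?_
  rw [Finset.sum_const, Finset.Nat.card_antidiagonal, nsmul_eq_mul]
  have hk' : ((k + 1 : ℕ) : ℚ) ≤ P.T := by exact_mod_cast hk
  have hpos : (0 : ℚ) ≤ 2 * (a : ℚ) ^ (2 * P.T) * C0 * (N : ℚ) ^ (2 * P.T + 1) *
      ((N : ℚ) / 2) ^ i := by positivity
  have hpos2 : (0 : ℚ) ≤ (N : ℚ) ^ (2 * P.T + 1) * ((N : ℚ) / 2) ^ i := by positivity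
  calc ((k + 1 : ℕ) : ℚ) * (2 * (a : ℚ) ^ (2 * P.T) * C0 * (N : ℚ) ^ (2 * P.T + 1) *
      ((N : ℚ) / 2) ^ i) ≤ P.T * (2 * (a : ℚ) ^ (2 * P.T) * C0 * (N : ℚ) ^ (2 * P.T + 1) *
      ((N : ℚ) / 2) ^ i) := mul_le_mul_of_nonneg_right hk' hpos
    _ = ((P.T : ℚ) * (2 * (a : ℚ) ^ (2 * P.T) * C0)) *
      ((N : ℚ) ^ (2 * P.T + 1) * ((N : ℚ) / 2) ^ i) := by ring
    _ ≤ (1 + (P.T : ℚ) * (2 * (a : ℚ) ^ (2 * P.T) * C0)) *
      ((N : ℚ) ^ (2 * P.T + 1) * ((N : ℚ) / 2) ^ i) :=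
        mul_le_mul_of_nonneg_right (by linarith) hpos2
    _ = _ := by ring

end MP_a3a416_nt.WIN
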