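import Pool.Agent.Lib.MP_a3a416_nt.WIN.Defs

/-! # WIN-ArGW: the local functions are `O(N)` at the nodes `|n| ≤ N` -/

set_option autoImplicit false

open Polynomial

namespace MP_a3a416_nt.WIN

open MP_a3a416_nt.SJ MP_a3a416_nt.SJ5

private theorem ArGW_sum (r : ℕ) (S : Finset ℤ) (h : (0 : ℤ) ∉ S) :
    |∑ b ∈ S, ((b : ℚ)⁻¹) ^ r| ≤ S.card := by
  refine le_trans (Finset.abs_sum_le_sum_abs _ _) ?_
  have h1 : ∀ b ∈ S, |((b : ℚ)⁻¹) ^ r| ≤ 1 := by
    intro b hb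
    rw [abs_pow, abs_inv]
    have hb0 : b ≠ 0 := fun h0 => h (h0 ▸ hb)
    have h2 : (1 : ℚ) ≤ |(b : ℚ)| := by
      have h3 : (1 : ℤ) ≤ |b| := Int.one_le_abs hb0
      exact_mod_cast h3
    exact pow_le_one₀ (by positivity) (inv_le_one_of_one_le₀ h2)
  refine le_trans (Finset.sum_le_sum h1) ?_
  simp

private theorem ArGW_hh (r : ℕ) (n : ℤ) : |hh r n| ≤ |(n : ℚ)| := by
  unfold hh
  have h1 := ArGW_sum r (Finset.Ioc 0 n) (by simp)
  have h2 := ArGW_sum r (Finset.Ioo n 0) (by simp)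
  have h5 : ((Finset.Ioc 0 n).card : ℤ) + ((Finset.Ioo n 0).card : ℤ) ≤ |n| := by
    rw [Int.card_Ioc, Int.card_Ioo]
    rcases le_total 0 n with h | h
    · rw [abs_of_nonneg h]
      omega
    · rw [abs_of_nonpos h]
      omega
  have h6 : ((Finset.Ioc 0 n).card : ℚ) + ((Finset.Ioo n 0).card : ℚ) ≤ |(n : ℚ)| := by
    exact_mod_cast h5
  refine le_trans (abs_sub _ _) ?_
  linarith

/-- the bound for one pair `(i, j)` -/
private noncomputable def ArGW_b (P : Par) (i j : ℕ) : ℚ :=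
  (((P.r0 + i + j).choose j : ℕ) : ℚ) + |kap P (P.r0 + i) j|

private theorem ArGW_b_nonneg (P : Par) (i j : ℕ) : 0 ≤ ArGW_b P i j := by
  unfold ArGW_b
  positivity

private theorem ArGW_Gf (P : Par) (i : ℕ) (N : ℕ) (n : ℤ) (j : ℕ) (hN : 1 ≤ N) (hn : |n| ≤ N) :
    |PowerSeries.coeff j (Gf P (P.r0 + i) n)| ≤ (P.D : ℚ) * ArGW_b P i j * N := by
  have hN1 : (1 : ℚ) ≤ N := by exact_mod_cast hN
  have hnQ : |(n : ℚ)| ≤ N := by exact_mod_cast hn
  have hh1 : |hh (P.r0 + i + j) n| ≤ N := (ArGW_hh _ _).trans hnQ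
  have hD : (0 : ℚ) ≤ (P.D : ℚ) := by positivity
  have hk : 0 ≤ |kap P (P.r0 + i) j| := abs_nonneg _
  unfold Gf ArGW_b
  rw [PowerSeries.coeff_mk, abs_mul, abs_of_nonneg hD]
  refine le_trans (mul_le_mul_of_nonneg_left ?_ hD) (le_of_eq (mul_assoc _ _ _).symm)
  refine (abs_add_le _ _).trans ?_
  rw [add_mul]
  refine add_le_add ?_ ?_
  · rw [abs_mul, abs_mul, abs_pow, abs_neg, abs_one, one_pow, one_mul, Nat.abs_cast]
    exact mul_le_mul_of_nonneg_left hh1 (by positivity)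
  · exact le_mul_of_one_le_right hk hN1

theorem abs_coeff_gW (P : Par) : ∃ C : ℚ, 1 ≤ C ∧ ∀ (β : Bk P) (N : ℕ) (n : ℤ) (j : ℕ), 1 ≤ N →
    |n| ≤ N → j < P.T → |PowerSeries.coeff j (gW P β n)| ≤ C * N := by
  set S : ℚ := ∑ i ∈ Finset.range P.f, ∑ j ∈ Finset.range P.T, ArGW_b P i j with hS
  have hS0 : 0 ≤ S := Finset.sum_nonneg fun i _ => Finset.sum_nonneg fun j _ => ArGW_b_nonneg P i j
  have hD : (0 : ℚ) ≤ (P.D : ℚ) := by positivity
  have hDS : 0 ≤ (P.D : ℚ) * S := mul_nonneg hD hS0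
  refine ⟨1 + (P.D : ℚ) * S, by linarith, ?_⟩
  intro β N n j hN hn hj
  have hN1 : (1 : ℚ) ≤ N := by exact_mod_cast hN
  have hCN : (1 : ℚ) ≤ (1 + (P.D : ℚ) * S) * N := by nlinarith
  rcases β with _ | _ | i
  · simp only [gW, PowerSeries.coeff_one]
    split_ifs
    · rw [abs_one]; exact hCN
    · rw [abs_zero]; linarith
  · simp only [gW, PowerSeries.coeff_X]
    split_ifs
    · rw [abs_one]; exact hCN
    · rw [abs_zero]; linarith
  · simp only [gW]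
    refine (ArGW_Gf P i N n j hN hn).trans ?_
    refine mul_le_mul_of_nonneg_right ?_ (by linarith)
    have h1 : ArGW_b P i j ≤ S := by
      have h2 : ArGW_b P i j ≤ ∑ j ∈ Finset.range P.T, ArGW_b P i j :=
        Finset.single_le_sum (f := fun j => ArGW_b P i j) (fun j _ => ArGW_b_nonneg P i j)
          (Finset.mem_range.2 hj)
      refine h2.trans ?_
      exact Finset.single_le_sum (f := fun i => ∑ j ∈ Finset.range P.T, ArGW_b P i j)
        (fun i _ => Finset.sum_nonneg fun j _ => ArGW_b_nonneg P i j)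
        (Finset.mem_range.2 i.2)
    have h3 : (P.D : ℚ) * ArGW_b P i j ≤ (P.D : ℚ) * S := mul_le_mul_of_nonneg_left h1 hD
    linarith

end MP_a3a416_nt.WIN
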