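import Pool.Agent.Lib.MP_a3a416_nt.WIN.Defs

/-! # WIN-ColOpW: unitriangular column operations -/

set_option autoImplicit false

open Polynomial

namespace MP_a3a416_nt.WIN

open MP_a3a416_nt.SJ MP_a3a416_nt.SJ5

/-- determinant of a matrix which is unitriangular with respect to an injective rank function -/
private theorem det_unitri {κ α : Type*} [Fintype κ] [DecidableEq κ] [LinearOrder α] (f : κ → α)
    (hf : Function.Injective f) (U : Matrix κ κ ℚ) (h1 : ∀ x, U x x = 1)
    (h : ∀ y x, f x < f y → U y x = 0) : U.det = 1 := by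
  let _ : LinearOrder κ := LinearOrder.lift' f hf
  have h2 : U.det = ∏ i, U i i := by
    have := Matrix.det_of_isUpperTriangular (M := U) (fun y x hxy => h y x hxy)
    convert this using 1
  rw [h2]
  exact Finset.prod_eq_one fun x _ => h1 x

section

variable {ρ B : Type*} [Fintype B] [DecidableEq B] {len : B → ℕ} {c0 : ℕ}

/-- matrix whose columns are given by linear functionals on the polynomials, one for each block. -/
private noncomputable def VM (Jf : ρ → B → ℚ[X] →ₗ[ℚ] ℚ) (w : ρ → Fin c0 → ℚ)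
    (Q : (Σ β : B, Fin (len β)) → B → ℚ[X]) :
    Matrix ρ ((Σ β : B, Fin (len β)) ⊕ Fin c0) ℚ :=
  fun r x => Sum.elim (fun y => ∑ γ, Jf r γ (Q y γ)) (fun j => w r j) x

/-- the monomials -/
private noncomputable def QX (len : B → ℕ) : (Σ β : B, Fin (len β)) → B → ℚ[X] :=
  fun y γ => if γ = y.1 then X ^ (y.2 : ℕ) else 0

private theorem VM_QX_inl (Jf : ρ → B → ℚ[X] →ₗ[ℚ] ℚ) (w : ρ → Fin c0 → ℚ) (r : ρ)
    (y : Σ β : B, Fin (len β)) :
    VM Jf w (QX len) r (Sum.inl y) = Jf r y.1 (X ^ (y.2 : ℕ)) := by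
  show ∑ γ, Jf r γ (QX len y γ) = _
  rw [Finset.sum_eq_single y.1]
  · simp [QX]
  · intro γ _ hγ
    simp [QX, hγ]
  · intro h
    exact absurd (Finset.mem_univ _) h

/-- the matrix of the column operations -/
private noncomputable def UM (Q : (Σ β : B, Fin (len β)) → B → ℚ[X]) :
    Matrix ((Σ β : B, Fin (len β)) ⊕ Fin c0) ((Σ β : B, Fin (len β)) ⊕ Fin c0) ℚ :=
  Matrix.fromBlocks (Matrix.of fun z y => (Q y z.1).coeff z.2) 0 0 1

private theorem VM_eq_mul (Jf : ρ → B → ℚ[X] →ₗ[ℚ] ℚ) (w : ρ → Fin c0 → ℚ)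
    (Q : (Σ β : B, Fin (len β)) → B → ℚ[X])
    (hdeg : ∀ y γ, Q y γ = 0 ∨ (Q y γ).natDegree < len γ) :
    VM Jf w Q = VM Jf w (QX len) * UM (c0 := c0) Q := by
  refine Matrix.ext fun r x => ?_
  rw [Matrix.mul_apply, Fintype.sum_sum_type]
  rcases x with y | j
  · have h2 : ∑ j : Fin c0, VM Jf w (QX len) r (Sum.inr j) * UM Q (Sum.inr j) (Sum.inl y) = 0 := by
      refine Finset.sum_eq_zero fun i _ => ?_
      simp [UM]
    rw [h2, add_zero]
    show ∑ γ, Jf r γ (Q y γ) = _
    rw [Fintype.sum_sigma]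
    refine Finset.sum_congr rfl fun γ _ => ?_
    have h3 : ∀ l : Fin (len γ), VM Jf w (QX len) r (Sum.inl ⟨γ, l⟩) * UM (c0 := c0) Q
        (Sum.inl ⟨γ, l⟩) (Sum.inl y) = Jf r γ (X ^ (l : ℕ)) * (Q y γ).coeff l := by
      intro l
      rw [VM_QX_inl, UM, Matrix.fromBlocks_apply₁₁]
      rfl
    rw [Finset.sum_congr rfl fun l _ => h3 l]
    rcases hdeg y γ with h0 | h0
    · simp [h0]
    · have h4 := (Q y γ).as_sum_range_C_mul_X_pow' h0
      conv_lhs => rw [h4]
      rw [map_sum, Finset.sum_range]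
      refine Finset.sum_congr rfl fun l _ => ?_
      rw [← smul_eq_C_mul, map_smul, smul_eq_mul, mul_comm]
  · have h1 : ∑ y : (Σ β : B, Fin (len β)), VM Jf w (QX len) r (Sum.inl y) *
        UM Q (Sum.inl y) (Sum.inr j) = 0 := by
      refine Finset.sum_eq_zero fun i _ => ?_
      simp [UM]
    rw [h1, zero_add, Finset.sum_eq_single j]
    · simp [VM, UM]
    · intro k _ hk
      rw [UM, Matrix.fromBlocks_apply₂₂, Matrix.one_apply_ne hk, mul_zero]
    · intro hh
      exact absurd (Finset.mem_univ _) hh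

private theorem det_UM (rk : B → ℕ) (hrk : Function.Injective rk)
    (Q : (Σ β : B, Fin (len β)) → B → ℚ[X])
    (hmon : ∀ y, (Q y y.1).Monic ∧ (Q y y.1).natDegree = (y.2 : ℕ))
    (htri : ∀ y γ, rk y.1 < rk γ → Q y γ = 0) :
    (UM (c0 := c0) Q).det = 1 := by
  rw [UM, Matrix.det_fromBlocks_zero₂₁, Matrix.det_one, mul_one]
  refine det_unitri (α := ℕ ×ₗ ℕ)
    (fun z : (Σ β : B, Fin (len β)) => toLex (rk z.1, (z.2 : ℕ))) ?_ _ ?_ ?_
  · rintro ⟨β, i⟩ ⟨γ, j⟩ h
    have h' := (toLex.injective h)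
    rw [Prod.mk.injEq] at h'
    obtain ⟨h1, h2⟩ := h'
    have h3 : β = γ := hrk h1
    subst h3
    have h4 : i = j := Fin.ext h2
    rw [h4]
  · intro y
    obtain ⟨h1, h2⟩ := hmon y
    rw [Monic, leadingCoeff, h2] at h1
    exact h1
  · rintro y x h
    rw [Prod.Lex.toLex_lt_toLex] at h
    rcases h with h | ⟨h1, h2⟩
    · show (Q x y.1).coeff y.2 = 0
      rw [htri x y.1 h, coeff_zero]
    · have h3 : x.1 = y.1 := hrk h1
      show (Q x y.1).coeff y.2 = 0
      apply coeff_eq_zero_of_natDegree_lt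
      have h4 := (hmon x).2
      have h5 : (Q x y.1).natDegree = (x.2 : ℕ) := by
        rw [← h4, h3]
      rw [h5]
      exact h2

private theorem sdet_colopV [Fintype ρ] [DecidableEq ρ] (e : ((Σ β : B, Fin (len β)) ⊕ Fin c0) ≃ ρ)
    (Jf : ρ → B → ℚ[X] →ₗ[ℚ] ℚ) (w : ρ → Fin c0 → ℚ)
    (rk : B → ℕ) (hrk : Function.Injective rk)
    (Q : (Σ β : B, Fin (len β)) → B → ℚ[X])
    (hdeg : ∀ y γ, Q y γ = 0 ∨ (Q y γ).natDegree < len γ)
    (hmon : ∀ y, (Q y y.1).Monic ∧ (Q y y.1).natDegree = (y.2 : ℕ))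
    (htri : ∀ y γ, rk y.1 < rk γ → Q y γ = 0) :
    sdet e (VM Jf w Q) = sdet e (VM Jf w (QX len)) := by
  rw [VM_eq_mul Jf w Q hdeg, sdet_mul_right, det_UM rk hrk Q hmon htri, mul_one]

end

/-- the linear functional of a row and a block -/
private noncomputable def JfW {N : ℕ} (P : Par) (r : RowT P N) (β : Bk P) : ℚ[X] →ₗ[ℚ] ℚ where
  toFun Q := PowerSeries.coeff r.2 (JW P β Q (nd r))
  map_add' Q R := by rw [JW_eq, tp_add, add_mul, map_add, JW_eq, JW_eq]
  map_smul' a Q := by
    rw [JW_eq, smul_eq_C_mul, tp_mul, tp_C, mul_assoc, PowerSeries.coeff_C_mul, JW_eq]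
    rfl

/-- rank function of the blocks -/
private def rkW (P : Par) : Bk P → ℕ
  | none => 0
  | some none => 1
  | some (some i) => 2 + i

private theorem rkW_inj (P : Par) : Function.Injective (rkW P) := by
  rintro (_ | _ | i) (_ | _ | j) h
  · rfl
  · exact absurd h (by simp [rkW])
  · exact absurd h (by simp only [rkW]; omega)
  · exact absurd h (by simp [rkW])
  · rfl
  · exact absurd h (by simp only [rkW]; omega)
  · exact absurd h (by simp only [rkW]; omega)
  · exact absurd h (by simp only [rkW]; omega)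
  · have h1 : (i : ℕ) = j := by
      simp only [rkW] at h
      omega
    rw [Fin.ext h1]

theorem sdet_colopW (P : Par) {N K A c0 : ℕ} (rr : Fin c0 → RowT P N)
    (e : (ColW P K A ⊕ Fin c0) ≃ RowT P N) (R Q : Bk P → ℕ → ℚ[X])
    (hR : ∀ β i, (R β i).Monic ∧ (R β i).natDegree = i) (hQ0 : ∀ i, Q none i = 0)
    (hQ : ∀ β i, i < lenW P K A β → Q β i = 0 ∨ (Q β i).natDegree < K) :
    sdet e (MT (colT (fun y n => JW P y.1 (R y.1 y.2) n - JW P none (Q y.1 y.2) n) rr))
      = sdet e (VhT P K A rr) := by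
  classical
  set Q' : (Σ β : Bk P, Fin (lenW P K A β)) → Bk P → ℚ[X] := fun y γ =>
    (if γ = y.1 then R y.1 y.2 else 0) - (if γ = none then Q y.1 y.2 else 0) with hQ'
  have hself : ∀ y : (Σ β : Bk P, Fin (lenW P K A β)), Q' y y.1 = R y.1 y.2 := by
    rintro ⟨β, i⟩
    show (if β = β then R β i else 0) - (if β = none then Q β i else 0) = R β i
    rw [if_pos rfl]
    split_ifs with h
    · subst h
      rw [hQ0, sub_zero]
    · rw [sub_zero]
  have hother : ∀ (y : (Σ β : Bk P, Fin (lenW P K A β))) (γ : Bk P), γ ≠ y.1 →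
      Q' y γ = - (if γ = none then Q y.1 y.2 else 0) := by
    intro y γ h
    rw [hQ']
    simp only [if_neg h]
    rw [zero_sub]
  have key := sdet_colopV (len := lenW P K A) e (JfW P) (fun r j => if r = rr j then (1 : ℚ) else 0)
    (rkW P) (rkW_inj P) Q' ?_ ?_ ?_
  · have e1 : (MT (colT (fun (y : ColW P K A) n => JW P y.1 (R y.1 y.2) n
        - JW P none (Q y.1 y.2) n) rr) : Matrix (RowT P N) (ColW P K A ⊕ Fin c0) ℚ) =
        VM (JfW P) (fun r j => if r = rr j then (1 : ℚ) else 0) Q' := by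
      refine Matrix.ext fun r x => ?_
      rcases x with y | j
      · show PowerSeries.coeff r.2 (JW P y.1 (R y.1 y.2) (nd r) -
          JW P none (Q y.1 y.2) (nd r)) = ∑ γ, JfW P r γ (Q' y γ)
        have e2 : ∀ γ, JfW P r γ (Q' y γ) = (if γ = y.1 then JfW P r γ (R y.1 y.2) else 0) -
            (if γ = none then JfW P r γ (Q y.1 y.2) else 0) := by
          intro γ
          rw [hQ']
          simp only [map_sub]
          congr 1
          · split_ifs
            · rfl
            · rw [map_zero]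
          · split_ifs
            · rfl
            · rw [map_zero]
        rw [Finset.sum_congr rfl fun γ _ => e2 γ, Finset.sum_sub_distrib, Finset.sum_ite_eq',
          if_pos (Finset.mem_univ _), Finset.sum_ite_eq', if_pos (Finset.mem_univ _), map_sub]
        rfl
      · exact coeff_ucT r (rr j)
    have e3 : (VhT P K A rr : Matrix (RowT P N) (ColW P K A ⊕ Fin c0) ℚ) =
        VM (JfW P) (fun r j => if r = rr j then (1 : ℚ) else 0) (QX (lenW P K A)) := by
      refine Matrix.ext fun r x => ?_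
      rcases x with y | j
      · rw [VM_QX_inl]
        rfl
      · exact coeff_ucT r (rr j)
    rw [e1, e3]
    exact key
  · intro y γ
    by_cases h : γ = y.1
    · subst h
      right
      rw [hself, (hR y.1 y.2).2]
      exact y.2.2
    · rw [hother y γ h]
      split_ifs with hn
      · subst hn
        rcases hQ y.1 y.2 y.2.2 with h1 | h1
        · left
          rw [h1, neg_zero]
        · right
          rw [natDegree_neg]
          exact h1
      · left
        rw [neg_zero]
  · intro y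
    rw [hself]
    exact hR y.1 y.2
  · intro y γ h
    have hne : γ ≠ y.1 := by
      rintro rfl
      exact lt_irrefl _ h
    rw [hother y γ hne]
    split_ifs with hn
    · subst hn
      simp [rkW] at h
    · rw [neg_zero]

end MP_a3a416_nt.WIN
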