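import Pool.Agent.Lib.MP_a3a416_nt.WIN.ArEntryW
import Pool.Agent.Lib.MP_a3a416_nt.WIN.ColOpW
import Pool.Agent.Lib.MP_a3a416_nt.SJ.ArLeib
import Pool.Agent.Lib.MP_a3a416_nt.SJ.ArCheb

/-! # WIN-ArchW: the archimedean bound
PROOF. `SJ.exists_cheb N` gives `t`; `sdet_colopW` with `R β i = t i`, `Q = 0` (`JW P none 0 n = 0`); `SJ.abs_sdet_le` with row weights `1` and column weights `C N^(2T+1) (N/2)^i` (`abs_entryW`, `i < lenW ≤ K ≤ a N`), `1` for the
unit columns (`coeff_ucT`).  Number of rows = number of columns `R = T (2N+1) ≤ 3 T N` (`card_rowT`).  `log |sdet| ≤ log R! + (number of block columns) (log C + (2T+1) log N) + ∑_β ∑_{i < lenW β} i log (N/2)`;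
`log R! ≤ R log R`, `log R ≤ log (3T) + log N`, `log N ≥ log 2 > 1/2` absorbs constants, `∑_{i<M} i ≤ M^2/2`, `sum_bk`, `log (N/2) ≥ 0`.  The product of the column weights: `Finset.prod_le_prod`,
`Real.log_prod`; or bound `|sdet|` by `R! * (C N^(2T+1))^R * (N/2)^(∑ i)` directly in `ℚ` (`Fintype.prod_sum_type`, `Fintype.prod_sigma`, `Finset.prod_pow_eq_pow_sum`). -/

set_option autoImplicit false

open Polynomial

namespace MP_a3a416_nt.WIN

open MP_a3a416_nt.SJ MP_a3a416_nt.SJ5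

private theorem archW_sum (P : Par) (K A : ℕ) :
    ((∑ y : ColW P K A, (y.2 : ℕ) : ℕ) : ℝ) ≤ (K : ℝ) ^ 2 / 2 + (P.f + 1) * ((A : ℝ) ^ 2 / 2) := by
  have h1 : ∀ M : ℕ, ((∑ i ∈ Finset.range M, i : ℕ) : ℝ) ≤ (M : ℝ) ^ 2 / 2 := by
    intro M
    have h2 := Finset.sum_range_id_mul_two M
    have h3 : (∑ i ∈ Finset.range M, i) * 2 ≤ M * M := by
      rw [h2]
      exact Nat.mul_le_mul_left M (Nat.sub_le M 1)
    have h4 : (((∑ i ∈ Finset.range M, i) * 2 : ℕ) : ℝ) ≤ ((M * M : ℕ) : ℝ) := by exact_mod_cast h3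
    push_cast at h4 ⊢
    linarith
  have h2 : (∑ y : ColW P K A, (y.2 : ℕ)) =
      (∑ i ∈ Finset.range K, i) + (P.f + 1) * ∑ i ∈ Finset.range A, i := by
    rw [Fintype.sum_sigma]
    have h3 : ∀ β : Bk P, ∑ i : Fin (lenW P K A β), (i : ℕ) =
        ∑ i ∈ Finset.range (lenW P K A β), i := fun β => (Finset.sum_range (fun i => i)).symm
    have h4 : ∑ β : Bk P, ∑ i : Fin (lenW P K A β), (i : ℕ) =
        ∑ β : Bk P, ∑ i ∈ Finset.range (lenW P K A β), i := Finset.sum_congr rfl fun β _ => h3 β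
    refine h4.trans ?_
    rw [sum_bk]
    simp only [lenW]
    rw [Finset.sum_const, Finset.card_univ, Fintype.card_fin, smul_eq_mul]
    ring
  rw [h2]
  have hK := h1 K
  have hA := h1 A
  push_cast at hK hA ⊢
  have hf : (0 : ℝ) ≤ (P.f : ℝ) + 1 := by positivity
  have := mul_le_mul_of_nonneg_left hA hf
  linarith

private theorem archW_log_fact (R : ℕ) : Real.log (R.factorial : ℝ) ≤ R * Real.log R := by
  have h1 : (R.factorial : ℝ) ≤ (R : ℝ) ^ R := by exact_mod_cast Nat.factorial_le_pow R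
  have h2 : (0 : ℝ) < (R.factorial : ℝ) := by exact_mod_cast R.factorial_pos
  have h3 := Real.log_le_log h2 h1
  rwa [Real.log_pow] at h3

theorem exists_archW (P : Par) (hP : P.Ok) (a : ℕ) : ∃ B : ℝ, 0 ≤ B ∧
    ∀ (N K A c0 : ℕ) (rr : Fin c0 → RowT P N) (e : (ColW P K A ⊕ Fin c0) ≃ RowT P N),
      2 ≤ N → A ≤ K → K ≤ a * N → sdet e (VhT P K A rr) ≠ 0 →
      Real.log |((sdet e (VhT P K A rr) : ℚ) : ℝ)| ≤
        ((K : ℝ) ^ 2 / 2 + (P.f + 1) * ((A : ℝ) ^ 2 / 2)) * Real.log ((N : ℝ) / 2)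
          + B * N * Real.log N := by
  obtain ⟨C, hC1, hC⟩ := abs_entryW P a
  have hT : 1 ≤ P.T := by have := hP.hT; omega
  have hC1r : (1 : ℝ) ≤ (C : ℝ) := by exact_mod_cast hC1
  have hTr : (1 : ℝ) ≤ (P.T : ℝ) := by exact_mod_cast hT
  have hlC : 0 ≤ Real.log (C : ℝ) := Real.log_nonneg hC1r
  have hl3 : 0 ≤ Real.log (3 * (P.T : ℝ)) := Real.log_nonneg (by linarith)
  refine ⟨3 * P.T * (2 * Real.log (3 * P.T) + 1) + (P.f + 2) * a * (2 * Real.log C + (2 * P.T + 1)),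
    by positivity, ?_⟩
  intro N K A c0 rr e hN hAK hKN hD
  have hN1 : 1 ≤ N := by omega
  have hNr : (2 : ℝ) ≤ (N : ℝ) := by exact_mod_cast hN
  obtain ⟨t, ht⟩ := exists_cheb N hN1
  -- column operations
  have hco := sdet_colopW P rr e (fun _ i => t i) (fun _ _ => 0) (fun _ i => ht.1 i)
    (fun _ => rfl) (fun _ _ _ => Or.inl rfl)
  set M : Matrix (RowT P N) (ColW P K A ⊕ Fin c0) ℚ :=
    MT (colT (fun y n => JW P y.1 (t y.2) n - JW P none 0 n) rr) with hM
  set C1 : ℚ := C * (N : ℚ) ^ (2 * P.T + 1) with hC1def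
  set b : ColW P K A ⊕ Fin c0 → ℚ :=
    Sum.elim (fun y => C1 * ((N : ℚ) / 2) ^ (y.2 : ℕ)) (fun _ => 1) with hb
  have hent : ∀ i j, |M i j| ≤ (fun _ : RowT P N => (1 : ℚ)) i * b j := by
    intro r x
    rw [one_mul]
    rcases x with y | j
    · show |PowerSeries.coeff (r.2 : ℕ) (JW P y.1 (t y.2) (nd r) - JW P none 0 (nd r))| ≤
        C1 * ((N : ℚ) / 2) ^ (y.2 : ℕ)
      have h0 : JW P none 0 (nd r) = 0 := by
        rw [JW_none]
        simp [tp]
      rw [h0, sub_zero]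
      have hy : (y.2 : ℕ) < a * N :=
        lt_of_lt_of_le y.2.2 ((lenW_le P hAK y.1).trans hKN)
      exact hC N t hN1 ht y.1 y.2 (nd r) r.2 hy (abs_le.2 (nd_bd r)) r.2.2
    · show |PowerSeries.coeff (r.2 : ℕ) (ucT (rr j) (nd r))| ≤ 1
      rw [coeff_ucT]
      split_ifs <;> simp
  have h1 := abs_sdet_le e M (fun _ => 1) b hent
  rw [hco, Finset.prod_const_one, mul_one, card_rowT] at h1
  have hprod : ∏ j, b j = C1 ^ (K + (P.f + 1) * A) * ((N : ℚ) / 2) ^ (∑ y : ColW P K A, (y.2 : ℕ)) := by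
    rw [Fintype.prod_sum_type]
    simp only [hb, Sum.elim_inl, Sum.elim_inr]
    rw [Finset.prod_const_one, mul_one, Finset.prod_mul_distrib, Finset.prod_const,
      Finset.card_univ, card_colW, Finset.prod_pow_eq_pow_sum]
  rw [hprod] at h1
  -- to the reals
  set R : ℕ := P.T * (2 * N + 1) with hR
  set Sg : ℕ := ∑ y : ColW P K A, (y.2 : ℕ) with hSg
  set D : ℝ := ((sdet e (VhT P K A rr) : ℚ) : ℝ) with hDdef
  have hD0 : 0 < |D| := abs_pos.2 (by rw [hDdef]; exact_mod_cast hD)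
  have h2 : |D| ≤ (R.factorial : ℝ) *
      ((C * (N : ℝ) ^ (2 * P.T + 1)) ^ (K + (P.f + 1) * A) * ((N : ℝ) / 2) ^ Sg) := by
    have h3 : ((|sdet e (VhT P K A rr)| : ℚ) : ℝ) ≤ (((R.factorial : ℚ) *
      (C1 ^ (K + (P.f + 1) * A) * ((N : ℚ) / 2) ^ Sg) : ℚ) : ℝ) := by exact_mod_cast h1
    rw [hC1def] at h3
    push_cast at h3
    exact h3
  have hN0 : (0 : ℝ) < N := by linarith
  have hC0 : (0 : ℝ) < C := by linarith
  have h3 := Real.log_le_log hD0 h2
  rw [Real.log_mul (by positivity) (by positivity), Real.log_mul (by positivity) (by positivity),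
    Real.log_pow, Real.log_pow, Real.log_mul (by positivity) (by positivity), Real.log_pow] at h3
  have hlN : 1 / 2 ≤ Real.log N := by
    have h4 := Real.log_two_gt_d9
    have h5 : Real.log 2 ≤ Real.log N := Real.log_le_log (by norm_num) hNr
    linarith
  have hlN2 : 0 ≤ Real.log ((N : ℝ) / 2) := Real.log_nonneg (by linarith)
  -- factorial
  have hRr : (R : ℝ) ≤ 3 * P.T * N := by
    have : (R : ℝ) = P.T * (2 * N + 1) := by rw [hR]; push_cast; ring
    rw [this]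
    nlinarith
  have hR1 : (1 : ℝ) ≤ (R : ℝ) := by
    have : 1 ≤ R := by
      rw [hR]
      exact Nat.one_le_iff_ne_zero.2 (Nat.mul_ne_zero (by omega) (by omega))
    exact_mod_cast this
  have hlR : Real.log R ≤ (2 * Real.log (3 * P.T) + 1) * Real.log N := by
    have h4 : Real.log R ≤ Real.log (3 * P.T * N) := Real.log_le_log (by linarith) hRr
    rw [Real.log_mul (by positivity) (by positivity)] at h4
    nlinarith
  have hlR0 : 0 ≤ Real.log R := Real.log_nonneg hR1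
  have hfac : Real.log (R.factorial : ℝ) ≤
      3 * P.T * (2 * Real.log (3 * P.T) + 1) * N * Real.log N := by
    refine (archW_log_fact R).trans ?_
    calc (R : ℝ) * Real.log R ≤ (3 * P.T * N) * ((2 * Real.log (3 * P.T) + 1) * Real.log N) :=
          mul_le_mul hRr hlR hlR0 (by positivity)
      _ = _ := by ring
  -- the columns
  have hcols : ((K + (P.f + 1) * A : ℕ) : ℝ) ≤ (P.f + 2) * a * N := by
    have h4 : K + (P.f + 1) * A ≤ (P.f + 2) * (a * N) := by
      have h5 : (P.f + 1) * A ≤ (P.f + 1) * K := Nat.mul_le_mul_left _ hAK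
      have h6 : (P.f + 2) * K ≤ (P.f + 2) * (a * N) := Nat.mul_le_mul_left _ hKN
      have h7 : (P.f + 2) * K = K + (P.f + 1) * K := by ring
      omega
    have h5 : ((K + (P.f + 1) * A : ℕ) : ℝ) ≤ (((P.f + 2) * (a * N) : ℕ) : ℝ) := by exact_mod_cast h4
    refine h5.trans (le_of_eq ?_)
    push_cast
    ring
  have hcol2 : Real.log C + ((2 * P.T + 1 : ℕ) : ℝ) * Real.log N ≤
      (2 * Real.log C + (2 * P.T + 1)) * Real.log N := by
    push_cast
    nlinarith
  have hcol3 : ((K + (P.f + 1) * A : ℕ) : ℝ) *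
      (Real.log C + ((2 * P.T + 1 : ℕ) : ℝ) * Real.log N) ≤
      (P.f + 2) * a * (2 * Real.log C + (2 * P.T + 1)) * N * Real.log N := by
    have h6 : 0 ≤ Real.log C + ((2 * P.T + 1 : ℕ) : ℝ) * Real.log N := by positivity
    calc _ ≤ ((P.f + 2) * a * N) * ((2 * Real.log C + (2 * P.T + 1)) * Real.log N) :=
          mul_le_mul hcols hcol2 h6 (by positivity)
      _ = _ := by ring
  have hsum := mul_le_mul_of_nonneg_right (archW_sum P K A) hlN2
  rw [← hSg] at hsum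
  have hfin : (3 * P.T * (2 * Real.log (3 * P.T) + 1) +
      (P.f + 2) * a * (2 * Real.log C + (2 * P.T + 1))) * N * Real.log N =
      3 * P.T * (2 * Real.log (3 * P.T) + 1) * N * Real.log N +
      (P.f + 2) * a * (2 * Real.log C + (2 * P.T + 1)) * N * Real.log N := by ring
  rw [hfin]
  linarith

end MP_a3a416_nt.WIN
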