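import Pool.Agent.Lib.MP_a3a416_nt.WIN.FDefsW
import Pool.Agent.Lib.MP_a3a416_nt.SJ.FPS

/-! # WIN-BigAsyW: asymptotics of the big primes in the factorials
PROOF. The private lemma `fb_term` of `SJ5/FBigSum.lean` with `12, 90` replaced by `h, al`: for `0 < y`, `h y ≤ al`: `∑_{h m < p ≤ al m} max 0 (al m - y p) log p` is `(al - y h)^2 / (2 y) m^2 + o(m^2)`.
Sum over `y ∈ Icc 1 (al / h)` (`h y ≤ al`: `Nat.le_div_iff_mul_le`): induction on the finset with `Asy.add` (`Asy 0 0` for the empty sum: `Asy.of_isLittleO`), or generalise `Icc 1 (al/h)` to `Icc 1 Y`, `Y h ≤ al`,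
and do induction on `Y` (`Finset.sum_Icc_succ_top`). -/

set_option autoImplicit false

namespace MP_a3a416_nt.WIN

open Finset Filter MP_a3a416_nt.SJ

private theorem fb_term (al h y : ℕ) (hh : 1 ≤ h) (hy : 0 < y) (h1 : h * y ≤ al) :
    Asy (fun m : ℕ => ∑ p ∈ prs (h * m) (al * m),
      ((max 0 ((al * m : ℤ) - y * p) : ℤ) : ℝ) * Real.log p) 0
      (((al : ℝ) - y * h) ^ 2 / (2 * y)) := by
  have hy0 : (0 : ℝ) < y := by exact_mod_cast hy
  have hy1 : (1 : ℝ) ≤ y := by exact_mod_cast hy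
  have hh0 : (0 : ℝ) ≤ h := Nat.cast_nonneg h
  have hal0 : (0 : ℝ) ≤ al := Nat.cast_nonneg al
  have h1' : (h : ℝ) * y ≤ al := by exact_mod_cast h1
  have hab : (h : ℝ) ≤ al / y := by
    rw [le_div_iff₀ hy0]
    exact h1'
  have hb : (al : ℝ) / y ≤ al := by
    rw [div_le_iff₀ hy0]
    nlinarith
  refine ((prsum_asy (al : ℝ) (-(y : ℝ)) h ((al : ℝ) / y) hh0 hab).congr
    (Eventually.of_forall fun m => ?_)).cast rfl ?_
  · have hfl : ⌊(h : ℝ) * m⌋₊ = h * m := by
      have : (h : ℝ) * m = ((h * m : ℕ) : ℝ) := by push_cast; ring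
      rw [this, Nat.floor_natCast]
    have hfl2 : ⌊(al : ℝ) / y * m⌋₊ ≤ al * m := by
      have h3 : (al : ℝ) / y * m ≤ ((al * m : ℕ) : ℝ) := by
        push_cast
        exact mul_le_mul_of_nonneg_right hb (Nat.cast_nonneg m)
      have := Nat.floor_le_floor h3
      rwa [Nat.floor_natCast] at this
    rw [hfl]
    have hsub : prs (h * m) ⌊(al : ℝ) / y * m⌋₊ ⊆ prs (h * m) (al * m) := by
      intro p hp
      rw [prs, mem_filter, mem_Ioc] at hp ⊢
      exact ⟨⟨hp.1.1, le_trans hp.1.2 hfl2⟩, hp.2⟩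
    refine Eq.trans ?_ (Finset.sum_subset hsub fun p hp hp' => ?_)
    · refine Finset.sum_congr rfl fun p hp => ?_
      rw [prs, mem_filter, mem_Ioc] at hp
      have hle : (p : ℝ) ≤ (al : ℝ) / y * m :=
        le_trans (Nat.cast_le.2 hp.1.2) (Nat.floor_le (by positivity))
      have hle2 : (y : ℝ) * p ≤ al * m := by
        have h := mul_le_mul_of_nonneg_left hle hy0.le
        have h3 : (y : ℝ) * ((al : ℝ) / y * m) = al * m := by
          field_simp
        linarith
      have hle3 : (y * p : ℤ) ≤ al * m := by exact_mod_cast hle2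
      rw [max_eq_right (by linarith)]
      push_cast
      ring
    · rw [prs, mem_filter, mem_Ioc] at hp hp'
      have hlt : ⌊(al : ℝ) / y * m⌋₊ < p := by
        by_contra hcon
        push Not at hcon
        exact hp' ⟨⟨hp.1.1, hcon⟩, hp.2⟩
      have hlt2 : (al : ℝ) / y * m < p := (Nat.floor_lt (by positivity)).1 hlt
      have hlt3 : (al : ℝ) * m ≤ y * p := by
        have h := mul_lt_mul_of_pos_left hlt2 hy0
        have h3 : (y : ℝ) * ((al : ℝ) / y * m) = al * m := by
          field_simp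
        linarith
      have hlt4 : (al * m : ℤ) ≤ y * p := by exact_mod_cast hlt3
      rw [max_eq_left (by linarith)]
      simp
  · field_simp
    ring

private theorem big_aux (al h : ℕ) (hh : 1 ≤ h) (s : Finset ℕ) :
    (∀ y ∈ s, 0 < y ∧ h * y ≤ al) →
    Asy (fun m : ℕ => ∑ p ∈ prs (h * m) (al * m),
      ((∑ y ∈ s, max 0 ((al * m : ℤ) - y * p) : ℤ) : ℝ) * Real.log p) 0
      (∑ y ∈ s, ((al : ℝ) - y * h) ^ 2 / (2 * y)) := by
  induction s using Finset.induction_on with
  | empty =>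
    intro _
    have h0 : Asy (fun _ : ℕ => (0 : ℝ)) 0 0 :=
      Asy.of_isLittleO (Asymptotics.isLittleO_zero _ _)
    refine (h0.congr (Eventually.of_forall fun m => ?_)).cast rfl ?_
    · simp
    · simp
  | insert a s ha ih =>
    intro hs
    have h1 := ih fun y hy => hs y (Finset.mem_insert_of_mem hy)
    obtain ⟨h2, h3⟩ := hs a (Finset.mem_insert_self a s)
    have h4 := fb_term al h a hh h2 h3
    refine ((h4.add h1).congr (Eventually.of_forall fun m => ?_)).cast (by ring) ?_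
    · rw [← Finset.sum_add_distrib]
      refine Finset.sum_congr rfl fun p _ => ?_
      rw [Finset.sum_insert ha]
      push_cast
      ring
    · rw [Finset.sum_insert ha]

theorem big_asyW (al h : ℕ) (hh : 1 ≤ h) (hal : h ≤ al) :
    Asy (fun m : ℕ => ∑ p ∈ prs (h * m) (al * m),
      ((∑ y ∈ Icc 1 (al / h), max 0 ((al * m : ℤ) - y * p) : ℤ) : ℝ) * Real.log p) 0 (bsW al h) := by
  unfold bsW
  refine big_aux al h hh (Icc 1 (al / h)) fun y hy => ?_
  rw [mem_Icc] at hy
  refine ⟨hy.1, ?_⟩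
  have h1 : y * h ≤ al := (Nat.le_div_iff_mul_le (by omega)).mp hy.2
  rw [mul_comm]
  exact h1

end MP_a3a416_nt.WIN
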