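import Pool.Agent.Lib.MP_a3a416_nt.WIN.FDefsW
import Pool.Agent.Lib.MP_a3a416_nt.SJ.FPS

/-! # WIN-BigFlatW: the flat primes `> N`
PROOF. Adapt `SJ5/FPosB.lean` (its private lemmas `sum_log_asy`, `prsum_nat`, `prs_union`).  `2 h ≤ 4 T`, `h = f + 3 ≤ T`.  `KW + f AW = (8 + 4f) T m - c1` (for `8Tm ≥ c1`; in general `KW ≥ 8Tm - c1` in `ℤ`).
`p ≤ 4 T m`: `f3W ≥ 4T(f+1) m - c1` [both entries of the min are `≥`: `(8+4f)Tm - c1 - p ≥ (4+4f)Tm - c1`];  `4Tm < p ≤ (8+4f)Tm`: `f3W ≥ (8+4f)Tm - p - c1` [`≤ (4+4f)Tm`].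
`g m := ∑_{prs (2hm) (4Tm)} (4T(f+1) m - c1) log p + ∑_{prs (4Tm) ((8+4f)Tm)} ((8+4f)T m - p - c1) log p`;  `prsum_nat`: `4T(f+1)(4T - 2h)` and
`(8+4f)T (4+4f)T - ((8+4f)^2 - 16) T^2 / 2 = 8 T^2 (f+1)^2`. -/

set_option autoImplicit false

namespace MP_a3a416_nt.WIN

open Finset Filter Asymptotics MP_a3a416_nt.SJ

private theorem BigFlatW_sum_log_nonneg (x y : ℕ) : 0 ≤ ∑ p ∈ prs x y, Real.log (p : ℝ) :=
  sum_nonneg fun p _ => Real.log_natCast_nonneg p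

private theorem BigFlatW_sum_log_le (x y : ℕ) :
    ∑ p ∈ prs x y, Real.log (p : ℝ) ≤ Real.log 4 * y := by
  refine le_trans ?_ (Chebyshev.theta_le_log4_mul_x (x := (y : ℝ)) (by positivity))
  unfold Chebyshev.theta
  rw [Nat.floor_natCast]
  unfold prs
  refine sum_le_sum_of_subset_of_nonneg ?_ fun i _ _ => Real.log_natCast_nonneg i
  refine filter_subset_filter _ fun i hi => ?_
  rw [mem_Ioc] at hi ⊢
  omega

private theorem BigFlatW_sum_log_asy (a b : ℕ) :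
    Asy (fun m : ℕ => ∑ p ∈ prs (a * m) (b * m), Real.log (p : ℝ)) 0 0 := by
  refine Asy.of_isLittleO ?_
  have h1 : (fun m : ℕ => ∑ p ∈ prs (a * m) (b * m), Real.log (p : ℝ)) =O[atTop]
      (fun m : ℕ => (m : ℝ)) := by
    refine IsBigO.of_bound (Real.log 4 * b) (Eventually.of_forall fun m => ?_)
    rw [Real.norm_eq_abs, abs_of_nonneg (BigFlatW_sum_log_nonneg _ _), Real.norm_eq_abs,
      abs_of_nonneg (Nat.cast_nonneg m)]
    have := BigFlatW_sum_log_le (a * m) (b * m)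
    push_cast at this
    linarith
  refine h1.trans_isLittleO ?_
  have h2 : (fun x : ℝ => x ^ 1) =o[atTop] (fun x : ℝ => x ^ 2) := isLittleO_pow_pow_atTop_of_lt
    (by norm_num)
  have h3 := h2.comp_tendsto tendsto_natCast_atTop_atTop
  simpa [Function.comp_def] using h3

private theorem BigFlatW_prsum (α β : ℝ) (a b : ℕ) (hab : a ≤ b) :
    Asy (fun m : ℕ => ∑ p ∈ prs (a * m) (b * m), (α * m + β * p) * Real.log (p : ℝ)) 0
      (α * (b - a) + β * (b ^ 2 - a ^ 2) / 2) := by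
  have h := prsum_asy α β (a : ℝ) (b : ℝ) (by positivity) (by exact_mod_cast hab)
  refine h.congr (Eventually.of_forall fun m => ?_)
  have e1 : ⌊(a : ℝ) * m⌋₊ = a * m := by rw [← Nat.cast_mul, Nat.floor_natCast]
  have e2 : ⌊(b : ℝ) * m⌋₊ = b * m := by rw [← Nat.cast_mul, Nat.floor_natCast]
  simp only [e1, e2]

private theorem BigFlatW_union (x y z : ℕ) (hxy : x ≤ y) (hyz : y ≤ z) (f : ℕ → ℝ) :
    ∑ p ∈ prs x z, f p = ∑ p ∈ prs x y, f p + ∑ p ∈ prs y z, f p := by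
  unfold prs
  rw [← Ioc_union_Ioc_eq_Ioc hxy hyz, filter_union, sum_union]
  rw [disjoint_left]
  intro a ha hb
  simp only [mem_filter, mem_Ioc] at ha hb
  omega

theorem bigFlatW (r0 f T : ℕ) (hT : f + 3 ≤ T) :
    ∃ g : ℕ → ℝ, Asy g 0 (4 * T * (f + 1) * (4 * T - 2 * (f + 3)) + 8 * (T : ℝ) ^ 2 * (f + 1) ^ 2) ∧
      ∀ m : ℕ, g m ≤ ∑ p ∈ prs (NW f m) (XW f T m), (f3W r0 f T m p : ℝ) * Real.log p := by
  have h1 : 2 * (f + 3) ≤ 4 * T := by omega
  have h2 : 4 * T ≤ (8 + 4 * f) * T := Nat.mul_le_mul_right T (by omega)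
  have a1 := BigFlatW_prsum (4 * T * (f + 1)) 0 (2 * (f + 3)) (4 * T) h1
  have a2 := BigFlatW_prsum ((8 + 4 * f) * T) (-1) (4 * T) ((8 + 4 * f) * T) h2
  have b1 := (BigFlatW_sum_log_asy (2 * (f + 3)) (4 * T)).const_mul (-(c1W r0 f T : ℝ))
  have b2 := (BigFlatW_sum_log_asy (4 * T) ((8 + 4 * f) * T)).const_mul (-(c1W r0 f T : ℝ))
  refine ⟨_, ((a1.add b1).add (a2.add b2)).cast (by ring) (by push_cast; ring), fun m => ?_⟩
  have hN : NW f m = 2 * (f + 3) * m := rfl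
  have hX : XW f T m = (8 + 4 * f) * T * m := rfl
  have hK : (8 * T * m : ℤ) - c1W r0 f T ≤ (KW r0 f T m : ℤ) := by
    unfold KW
    have := Nat.le_sub_of_add_le (le_refl (8 * T * m - c1W r0 f T + c1W r0 f T))
    have h3 : 8 * T * m ≤ 8 * T * m - c1W r0 f T + c1W r0 f T := by omega
    have h4 : ((8 * T * m : ℕ) : ℤ) ≤ ((8 * T * m - c1W r0 f T : ℕ) : ℤ) + c1W r0 f T := by
      exact_mod_cast h3
    push_cast at h4 ⊢
    linarith
  have hA : (AW T m : ℤ) = 4 * T * m := by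
    unfold AW
    push_cast
    ring
  rw [hN, hX, BigFlatW_union (2 * (f + 3) * m) (4 * T * m) ((8 + 4 * f) * T * m)
    (Nat.mul_le_mul_right m h1) (Nat.mul_le_mul_right m h2)]
  have hc0 : (0 : ℤ) ≤ c1W r0 f T := Int.natCast_nonneg _
  have k1 : ∑ p ∈ prs (2 * (f + 3) * m) (4 * T * m),
      ((4 * T * (f + 1) : ℝ) * m + 0 * p) * Real.log p +
      -(c1W r0 f T : ℝ) * ∑ p ∈ prs (2 * (f + 3) * m) (4 * T * m), Real.log p ≤
      ∑ p ∈ prs (2 * (f + 3) * m) (4 * T * m), (f3W r0 f T m p : ℝ) * Real.log p := by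
    rw [mul_sum, ← sum_add_distrib]
    refine sum_le_sum fun p hp => ?_
    have hp1 := (mem_Ioc.mp (mem_filter.mp hp).1)
    rw [← add_mul]
    refine mul_le_mul_of_nonneg_right ?_ (Real.log_natCast_nonneg p)
    have hp2 : (p : ℤ) ≤ 4 * T * m := by exact_mod_cast hp1.2
    have : (4 * T * (f + 1) : ℤ) * m - c1W r0 f T ≤ f3W r0 f T m p := by
      unfold f3W
      refine le_trans (le_min ?_ ?_) (le_max_right _ _)
      · rw [hA]
        linarith
      · rw [hA]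
        nlinarith
    have h' : (((4 * T * (f + 1) : ℤ) * m - c1W r0 f T : ℤ) : ℝ) ≤ (f3W r0 f T m p : ℝ) := by
      exact_mod_cast this
    push_cast at h'
    linarith
  have k2 : ∑ p ∈ prs (4 * T * m) ((8 + 4 * f) * T * m),
      (((8 + 4 * f) * T : ℝ) * m + (-1) * p) * Real.log p +
      -(c1W r0 f T : ℝ) * ∑ p ∈ prs (4 * T * m) ((8 + 4 * f) * T * m), Real.log p ≤
      ∑ p ∈ prs (4 * T * m) ((8 + 4 * f) * T * m), (f3W r0 f T m p : ℝ) * Real.log p := by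
    rw [mul_sum, ← sum_add_distrib]
    refine sum_le_sum fun p hp => ?_
    have hp1 := (mem_Ioc.mp (mem_filter.mp hp).1)
    rw [← add_mul]
    refine mul_le_mul_of_nonneg_right ?_ (Real.log_natCast_nonneg p)
    have hp2 : (4 * T * m : ℤ) ≤ p := by exact_mod_cast hp1.1.le
    have : ((8 + 4 * f) * T : ℤ) * m - p - c1W r0 f T ≤ f3W r0 f T m p := by
      unfold f3W
      refine le_trans (le_min ?_ ?_) (le_max_right _ _)
      · rw [hA]
        nlinarith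
      · rw [hA]
        nlinarith
    have h' : ((((8 + 4 * f) * T : ℤ) * m - p - c1W r0 f T : ℤ) : ℝ) ≤ (f3W r0 f T m p : ℝ) := by
      exact_mod_cast this
    push_cast at h'
    linarith
  exact add_le_add k1 k2

end MP_a3a416_nt.WIN
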