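import Pool.Agent.Lib.MP_a3a416_nt.SJ5.Defs2

/-!
# Linear windows (helper95): definitions

Reference text: `/team-store/WIN_proof.md`.  Parameters `P : Par`: `r0` (even), `f` (number of blocks `G_i`),
`T` (order of the jets), the sequence `c`, the common denominator `D` (`Delta` of the text).
Blocks: `none` (long block, local function `1`, length `K`), `some none` (`u`), `some (some i)` (`G_i`), length `A`.
All columns are families of power series in `u`, indexed by the node.
-/

open Polynomial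

namespace MP_a3a416_nt.WIN

open MP_a3a416_nt.SJ MP_a3a416_nt.SJ5

/-- the parameters -/
structure Par where
  /-- `r0 = e - 1` -/
  r0 : ℕ
  /-- the number of blocks `G_i` -/
  f : ℕ
  /-- the order of the jets -/
  T : ℕ
  /-- the prescribed values -/
  c : ℕ → ℚ
  /-- the common denominator -/
  D : ℕ

/-- `E = r0 + f` -/
def Par.E (P : Par) : ℕ := P.r0 + P.f

/-- the correction coefficients `kappa_{r,j}` -/
noncomputable def kap (P : Par) (r j : ℕ) : ℚ :=
  if 1 ≤ j ∧ j < P.T ∧ (r + j) % 2 = 1 ∧ P.r0 + 1 < r + j then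
    -((-1) ^ j * ((r + j - 1).choose j : ℚ) / (r : ℚ)) * P.c (r + j) else 0

/-- the assumptions on the parameters -/
structure Par.Ok (P : Par) : Prop where
  hr0 : 2 ≤ P.r0
  hev : Even P.r0
  hf : 1 ≤ P.f
  hT : P.f + 3 ≤ P.T
  hD : 1 ≤ P.D
  hint : ∀ r j : ℕ, P.r0 ≤ r → r < P.r0 + P.f → j < P.T → ∃ z : ℤ, (P.D : ℚ) * kap P r j = z

/-- the local function `G` of exponent `r` -/
noncomputable def Gf (P : Par) (r : ℕ) (n : ℤ) : PowerSeries ℚ := PowerSeries.mk fun j =>
  (P.D : ℚ) * ((-1) ^ j * ((r + j).choose j : ℚ) * hh (r + j) n + kap P r j)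

/-- the blocks -/
abbrev Bk (P : Par) := Option (Option (Fin P.f))

/-- lengths of the blocks -/
def lenW (P : Par) (K A : ℕ) : Bk P → ℕ
  | none => K
  | some _ => A

/-- the local function of a block -/
noncomputable def gW (P : Par) : Bk P → ℤ → PowerSeries ℚ
  | none, _ => 1
  | some none, _ => PowerSeries.X
  | some (some i), n => Gf P (P.r0 + i) n

/-- the jet `Q(n+u) g_β(n)(u)` -/
noncomputable def JW (P : Par) (β : Bk P) (Q : ℚ[X]) (n : ℤ) : PowerSeries ℚ := tp Q n * gW P β n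

/-- rows `(n, k)`, `|n| ≤ N`, `k < T`. -/
abbrev RowT (P : Par) (N : ℕ) := Fin (2 * N + 1) × Fin P.T

/-- the node of a row. -/
def nd {P : Par} {N : ℕ} (r : RowT P N) : ℤ := ((r.1 : ℕ) : ℤ) - N

/-- columns `x^i g_β`. -/
abbrev ColW (P : Par) (K A : ℕ) := Σ β : Bk P, Fin (lenW P K A β)

/-- the matrix of a family of columns (power series at every node). -/
noncomputable def MT {P : Par} {N : ℕ} {κ : Type*} (Φ : κ → ℤ → PowerSeries ℚ) :
    Matrix (RowT P N) κ ℚ :=
  fun r x => PowerSeries.coeff r.2 (Φ x (nd r))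

/-- the unit column of the row `ρ`. -/
noncomputable def ucT {P : Par} {N : ℕ} (ρ : RowT P N) (n : ℤ) : PowerSeries ℚ :=
  if n = nd ρ then PowerSeries.X ^ (ρ.2 : ℕ) else 0

/-- the columns `Ψ` of the blocks and `c0` unit columns. -/
noncomputable def colT {P : Par} {N K A c0 : ℕ} (Ψ : ColW P K A → ℤ → PowerSeries ℚ)
    (rr : Fin c0 → RowT P N) : ColW P K A ⊕ Fin c0 → ℤ → PowerSeries ℚ :=
  Sum.elim Ψ (fun i => ucT (rr i))

/-- the family of the monomials: the matrix `Vh = [V | e_{rr 0} ... e_{rr (c0-1)}]`. -/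
noncomputable def VhT (P : Par) {N : ℕ} (K A : ℕ) {c0 : ℕ} (rr : Fin c0 → RowT P N) :
    Matrix (RowT P N) (ColW P K A ⊕ Fin c0) ℚ :=
  MT (colT (fun y n => JW P y.1 (X ^ (y.2 : ℕ)) n) rr)

/-- `p` is flat: it does not divide the common denominator, and `B_{p-k} ≡ c_k` modulo `p` for all odd `k` with
`r0 + 1 < k ≤ r0 + f + T - 2`. -/
def FlatW (P : Par) (p : ℕ) : Prop :=
  ¬ p ∣ P.D ∧ ∀ k : ℕ, Odd k → P.r0 + 1 < k → k + 2 ≤ P.r0 + P.f + P.T →
    (p : ℤ) ∣ (_root_.bernoulli (p - k) - P.c k).num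

/-- the coefficients of `u^k`, `k < T`, have valuation at least `b` -/
def VT (T p : ℕ) (b : ℤ) (f : PowerSeries ℚ) : Prop := ∀ k < T, val p (PowerSeries.coeff k f) b

/-! ## regular and polar parts -/

/-- the regular part of `Gf P r` -/
noncomputable def Gr (P : Par) (p r : ℕ) (n : ℤ) : PowerSeries ℚ := PowerSeries.mk fun j =>
  (P.D : ℚ) * ((-1) ^ j * ((r + j).choose j : ℚ) * hr p (r + j) n + kap P r j)

/-- the polar part `s^(r+1) p / (p + s u)^(r+1)` -/
noncomputable def piW (p r : ℕ) (s : ℚ) : PowerSeries ℚ := PowerSeries.mk fun j =>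
  s ^ (r + 1) * (-s) ^ j * ((r + j).choose j : ℚ) * ((p : ℚ)⁻¹) ^ (r + j)

/-- the regular parts of the local functions -/
noncomputable def gR (P : Par) (p : ℕ) : Bk P → ℤ → PowerSeries ℚ
  | none, _ => 1
  | some none, _ => PowerSeries.X
  | some (some i), n => Gr P p (P.r0 + i) n

/-- the polar parts of the local functions -/
noncomputable def gP (P : Par) (p : ℕ) : Bk P → ℤ → PowerSeries ℚ
  | none, _ => 0
  | some none, _ => 0
  | some (some i), n => if InO p n then PowerSeries.C (P.D : ℚ) * piW p (P.r0 + i) (sg n) else 0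

/-- polynomials modulo `p` for the short blocks: degree `≤ p`, `p`-integral coefficients,
`g_s^reg(n) ≡ S_s(n+u)` modulo `(p, u^T)` at every integer `n`. -/
def RelW (P : Par) (p : ℕ) (S : Option (Fin P.f) → ℚ[X]) : Prop :=
  ∀ s, (S s).natDegree ≤ p ∧ (∀ j, val p ((S s).coeff j) 0) ∧
    ∀ n : ℤ, VT P.T p 1 (gR P p (some s) n - tp (S s) n)

/-! ## the row operation at a node with a polar part -/

/-- `(1 + s v)^E f(p v)` as a power series in `v`. -/
noncomputable def RST (E p : ℕ) (s : ℚ) (f : PowerSeries ℚ) : PowerSeries ℚ :=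
  (1 + PowerSeries.C s * PowerSeries.X) ^ E * PowerSeries.rescale (p : ℚ) f

/-- `[v^k] (1 + s v)^E f(p v)`, `k < T`, has valuation at least `k - E + b`. -/
def RVT (T E p : ℕ) (s : ℚ) (b : ℤ) (f : PowerSeries ℚ) : Prop :=
  ∀ k < T, val p (PowerSeries.coeff k (RST E p s f)) ((k : ℤ) - E + b)

/-- the local condition on a column at the node `n`. -/
def LCT (P : Par) (p : ℕ) (n : ℤ) (b : ℤ) (f : PowerSeries ℚ) : Prop :=
  if InO p n then RVT P.T P.E p (sg n) b f else VT P.T p b f

/-! ## Basic facts -/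

theorem sum_bk {P : Par} {M : Type*} [AddCommMonoid M] (g : Bk P → M) :
    ∑ β, g β = g none + (g (some none) + ∑ i : Fin P.f, g (some (some i))) := by
  rw [Fintype.sum_option, Fintype.sum_option]

theorem card_colW (P : Par) (K A : ℕ) : Fintype.card (ColW P K A) = K + (P.f + 1) * A := by
  rw [Fintype.card_sigma, Finset.sum_congr rfl (fun β _ => Fintype.card_fin _), sum_bk]
  simp only [lenW]
  rw [Finset.sum_const, Finset.card_univ, Fintype.card_fin, smul_eq_mul]
  ring

theorem card_rowT (P : Par) (N : ℕ) : Fintype.card (RowT P N) = P.T * (2 * N + 1) := by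
  rw [Fintype.card_prod, Fintype.card_fin, Fintype.card_fin]
  ring

theorem nd_bd {P : Par} {N : ℕ} (ρ : RowT P N) : -(N : ℤ) ≤ nd ρ ∧ nd ρ ≤ N := by
  have h := ρ.1.2
  unfold nd
  omega

theorem rowT_ext {P : Par} {N : ℕ} {r ρ : RowT P N} (h1 : nd r = nd ρ) (h2 : r.2 = ρ.2) : r = ρ := by
  have h3 : (r.1 : ℕ) = ρ.1 := by
    unfold nd at h1
    omega
  exact Prod.ext (Fin.ext h3) h2

theorem coeff_ucT {P : Par} {N : ℕ} (r ρ : RowT P N) :
    PowerSeries.coeff r.2 (ucT ρ (nd r)) = if r = ρ then (1 : ℚ) else 0 := by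
  unfold ucT
  by_cases h : r = ρ
  · subst h
    simp [PowerSeries.coeff_X_pow]
  · rw [if_neg h]
    split_ifs with h1
    · rw [PowerSeries.coeff_X_pow, if_neg]
      intro h2
      exact h (rowT_ext h1 (Fin.ext h2))
    · simp

theorem JW_eq (P : Par) (β : Bk P) (Q : ℚ[X]) (n : ℤ) : JW P β Q n = tp Q n * gW P β n := rfl

theorem JW_none (P : Par) (Q : ℚ[X]) (n : ℤ) : JW P none Q n = tp Q n := by
  simp [JW, gW]

theorem lenW_le (P : Par) {K A : ℕ} (h : A ≤ K) (β : Bk P) : lenW P K A β ≤ K := by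
  rcases β with _ | _
  · exact le_rfl
  · exact h

end MP_a3a416_nt.WIN
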