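import Pool.Agent.Lib.MP_a3a416_nt.SJ.FDefs

/-!
# WIN-FDefsW: the prime sums, definitions

`N = 2 (f+3) m`, `A = 4 T m`, `K = 8 T m - c1`; `f1W`: bound for every prime; `g2W`: every prime in `((f+3) m, N]`; `f2W`: flat primes in that interval;
`f3W`: flat primes `> N`.  `SJ.SF`, `SJ.SL`, `SJ.Asy`, `SJ.prs` as in `SJ/FDefs.lean`.
-/

set_option autoImplicit false

namespace MP_a3a416_nt.WIN

open Finset MP_a3a416_nt.SJ

/-- the number of nodes is `2 N + 1` -/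
def NW (f m : ℕ) : ℕ := 2 * (f + 3) * m

/-- length of the short blocks -/
def AW (T m : ℕ) : ℕ := 4 * T * m

/-- the constant in `K` -/
def c1W (r0 f T : ℕ) : ℕ := T * (f + 1) + (r0 + f) * ((f + 1) * (f + 2))

/-- length of the long block -/
def KW (r0 f T m : ℕ) : ℕ := 8 * T * m - c1W r0 f T

/-- number of unit columns -/
def c0W (r0 f T : ℕ) : ℕ := T + c1W r0 f T

/-- `∑ r_i` -/
def srW (r0 f : ℕ) : ℕ := ∑ i ∈ range f, (r0 + i)

/-- `0 + 1 + ... + (T-1)` -/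
def ttW (T : ℕ) : ℕ := ∑ k ∈ range T, k

/-- the bound for every prime -/
def f1W (r0 f T m p : ℕ) : ℤ :=
  SF p (KW r0 f T m) + (f + 1) * SF p (AW T m) + (AW T m : ℤ) * Nat.log p (KW r0 f T m)
    - (srW r0 f : ℤ) * AW T m * Nat.log p (NW f m)
    - (ttW T : ℤ) * (2 * NW f m + 1) * Nat.log p (KW r0 f T m)

/-- every prime in `((f+3) m, N]` -/
def g2W (r0 f T m p : ℕ) : ℤ := -(((r0 : ℤ) + f) * T * (2 * ((NW f m : ℤ) - p) + 1))

/-- flat primes in `((f+3) m, N]` -/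
def f2W (r0 f T m p : ℕ) : ℤ := (f + 1) * AW T m + g2W r0 f T m p

/-- flat primes `> N` -/
def f3W (r0 f T m p : ℕ) : ℤ :=
  max 0 (min ((f + 1) * (AW T m : ℤ)) ((KW r0 f T m : ℤ) + f * AW T m - p))

/-- the largest prime used -/
def XW (f T m : ℕ) : ℕ := (8 + 4 * f) * T * m

/-- main term of the archimedean bound -/
noncomputable def UBW (f T m : ℕ) : ℝ :=
  8 * (T : ℝ) ^ 2 * (f + 5) * (m : ℝ) ^ 2 * Real.log ((f + 3) * m)

/-- the lower bound for `log |D|` obtained from the valuations -/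
noncomputable def LBsW (r0 f T m : ℕ) (flat : ℕ → Prop) [DecidablePred flat] : ℝ :=
  ∑ p ∈ prs 0 ((f + 3) * m), (f1W r0 f T m p : ℝ) * Real.log p +
    ∑ p ∈ prs ((f + 3) * m) (NW f m),
      ((if flat p then f2W r0 f T m p else g2W r0 f T m p : ℤ) : ℝ) * Real.log p +
    ∑ p ∈ prs (NW f m) (XW f T m), ((if flat p then f3W r0 f T m p else 0 : ℤ) : ℝ) * Real.log p

/-- the same if all primes are flat -/
noncomputable def LB0W (r0 f T m : ℕ) : ℝ :=
  ∑ p ∈ prs 0 ((f + 3) * m), (f1W r0 f T m p : ℝ) * Real.log p +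
    ∑ p ∈ prs ((f + 3) * m) (NW f m), (f2W r0 f T m p : ℝ) * Real.log p +
    ∑ p ∈ prs (NW f m) (XW f T m), (f3W r0 f T m p : ℝ) * Real.log p

/-- the non-flat primes in `((f+3) m, XW]` weighted by `log p` -/
noncomputable def ThW (f T m : ℕ) (flat : ℕ → Prop) [DecidablePred flat] : ℝ :=
  ∑ p ∈ (prs ((f + 3) * m) (XW f T m)).filter (fun p => ¬ flat p), Real.log p

/-- the margin -/
noncomputable def muW (r0 f T : ℕ) : ℝ :=
  (T : ℝ) ^ 2 * (8 * (f + 1) * (f + 3) - 2 * (f + 3) ^ 2 - 28 / 5 * (f + 5))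
    - T * (f + 3) * (3 * f ^ 2 + 4 * f - 3 + r0 * (5 * f + 3))

/-- the sum over the primes `p > h m` in the factorials: `∑_y (al - y h)^2 / (2 y)` -/
noncomputable def bsW (al h : ℕ) : ℝ :=
  ∑ y ∈ Icc 1 (al / h), ((al : ℝ) - y * h) ^ 2 / (2 * y)

end MP_a3a416_nt.WIN
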