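import Pool.Agent.Lib.MP_a3a416_nt.WIN.PolarW

/-! # WIN-FlatRankW: the rank bound at the flat primes `p > N` -/

set_option autoImplicit false

open Polynomial

namespace MP_a3a416_nt.WIN

open MP_a3a416_nt.SJ MP_a3a416_nt.SJ5

/-- the polynomial part of a column modulo `p` -/
private noncomputable def frwP {P : Par} (S : Option (Fin P.f) → ℚ[X]) {K A c0 : ℕ} :
    ColW P K A ⊕ Fin c0 → ℚ[X]
  | .inl ⟨none, i⟩ => X ^ (i : ℕ)
  | .inl ⟨some s, i⟩ => X ^ (i : ℕ) * S s
  | .inr _ => 0

private theorem frw_deg {P : Par} {S : Option (Fin P.f) → ℚ[X]} {p : ℕ} (hp : 0 < p)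
    (hS : ∀ s, (S s).natDegree ≤ p) {K A c0 : ℕ} (x : ColW P K A ⊕ Fin c0) :
    (frwP S x).natDegree < max K (A + p) := by
  have hpos : 0 < max K (A + p) := lt_max_of_lt_right (by omega)
  rcases x with ⟨β, i⟩ | j
  · rcases β with _ | s
    · have hi : (i : ℕ) < K := i.2
      simp only [frwP, natDegree_X_pow]
      exact lt_max_of_lt_left hi
    · have hi : (i : ℕ) < A := i.2
      have h2 := hS s
      simp only [frwP]
      refine lt_of_le_of_lt natDegree_mul_le ?_
      rw [natDegree_X_pow]
      exact lt_max_of_lt_right (by omega)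
  · simp only [frwP, natDegree_zero]
    exact hpos

private theorem frw_eq_sum (Q : ℚ[X]) {M : ℕ} (hQ : Q.natDegree < M) (n : ℤ) (k : ℕ) :
    PowerSeries.coeff k (tp Q n) =
      ∑ l : Fin M, PowerSeries.coeff k (tp (X ^ (l : ℕ)) n) * Q.coeff l := by
  conv_lhs => rw [Q.as_sum_range' M hQ]
  rw [tp_sum, map_sum, Finset.sum_range]
  refine Finset.sum_congr rfl fun l _ => ?_
  rw [← C_mul_X_pow_eq_monomial, tp_mul, tp_C, PowerSeries.coeff_C_mul, mul_comm]

/-- a column and its approximation -/
private theorem frw_col {P : Par} {N K A c0 : ℕ} {p : ℕ} [hpf : Fact p.Prime]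
    (hN : N < p) {S : Option (Fin P.f) → ℚ[X]} (hS : RelW P p S) (rr : Fin c0 → RowT P N)
    (r : RowT P N) (x : ColW P K A ⊕ Fin c0) :
    val p (VhT P K A rr r x - (PowerSeries.coeff r.2 (tp (frwP S x) (nd r)) +
      ∑ j : Fin c0, (if r = rr j then (1 : ℚ) else 0) * (if x = .inr j then 1 else 0))) 1 := by
  have hp : p.Prime := hpf.out
  have hk : (r.2 : ℕ) < P.T := r.2.2
  obtain ⟨hn1, hn2⟩ := nd_bd r
  have hO : ¬ InO p (nd r) := by
    unfold InO
    omega
  have hg : ∀ β : Bk P, gW P β (nd r) = gR P p β (nd r) := by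
    intro β
    rw [gW_split P hp.pos β (nd r) (by omega) (by omega)]
    rcases β with _ | _ | i
    · simp [gP]
    · simp [gP]
    · simp [gP, hO]
  have hzero : ∀ y : ColW P K A, ∑ j : Fin c0, (if r = rr j then (1 : ℚ) else 0) *
      (if (Sum.inl y : ColW P K A ⊕ Fin c0) = .inr j then 1 else 0) = 0 := by
    intro y
    refine Finset.sum_eq_zero fun j _ => ?_
    simp
  rcases x with ⟨β, i⟩ | j
  · rw [hzero, add_zero]
    have hV : VhT P K A rr r (.inl ⟨β, i⟩) =
        PowerSeries.coeff r.2 (tp (X ^ (i : ℕ)) (nd r) * gW P β (nd r)) := rfl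
    rw [hV]
    rcases β with _ | s
    · left
      simp [frwP, gW]
    · rw [← map_sub]
      refine (VT.congr ((VT_tp_X_pow (T := P.T) (p := p) (i : ℕ) (nd r)).mul_left
        ((hS s).2.2 (nd r))) ?_) _ hk
      simp only [frwP]
      rw [tp_mul, hg (some s)]
      ring
  · left
    have h1 : ∑ j' : Fin c0, (if r = rr j' then (1 : ℚ) else 0) *
        (if (Sum.inr j : ColW P K A ⊕ Fin c0) = .inr j' then 1 else 0) =
        if r = rr j then (1 : ℚ) else 0 := by
      rw [Finset.sum_eq_single j]
      · simp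
      · intro j' _ hj'
        have : (Sum.inr j : ColW P K A ⊕ Fin c0) ≠ .inr j' := fun h => hj' (Sum.inr.inj h).symm
        simp [this]
      · simp
    rw [h1]
    have hV : VhT P K A rr r (.inr j) = if r = rr j then (1 : ℚ) else 0 := coeff_ucT r (rr j)
    rw [hV]
    simp [frwP, tp_zero]

theorem val_flatrankW (P : Par) {N K A c0 : ℕ} (rr : Fin c0 → RowT P N)
    (e : (ColW P K A ⊕ Fin c0) ≃ RowT P N) {p : ℕ} (hp : p.Prime) (hN : N < p)
    {S : Option (Fin P.f) → ℚ[X]} (hS : RelW P p S) :
    val p (sdet e (VhT P K A rr)) ((K : ℤ) + (P.f + 1) * A - (max K (A + p) : ℕ)) := by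
  have : Fact p.Prime := ⟨hp⟩
  set M := max K (A + p) with hM
  set W : Matrix (RowT P N) (Fin M ⊕ Fin c0) ℚ := fun r y =>
    Sum.elim (fun l : Fin M => PowerSeries.coeff r.2 (tp (X ^ (l : ℕ)) (nd r)))
      (fun j : Fin c0 => if r = rr j then (1 : ℚ) else 0) y with hW
  set Q : Matrix (Fin M ⊕ Fin c0) (ColW P K A ⊕ Fin c0) ℚ := fun y x =>
    Sum.elim (fun l : Fin M => (frwP S x).coeff l)
      (fun j : Fin c0 => if x = .inr j then (1 : ℚ) else 0) y with hQ
  have hmain := val_sdet_of_rank (p := p) e (VhT P K A rr) W Q ?_ ?_ ?_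
  · refine hmain.mono ?_
    rw [Fintype.card_sum, Fintype.card_sum, card_colW, Fintype.card_fin, Fintype.card_fin]
    push_cast
    omega
  · rintro x (l | j)
    · exact val_coeff_tp_X_pow _ _ _
    · simp only [hW, Sum.elim_inr]
      split_ifs
      · exact val.one
      · exact val.zero _
  · rintro (l | j) x
    · simp only [hQ, Sum.elim_inl]
      rcases x with ⟨β, i⟩ | j
      · rcases β with _ | s
        · simp only [frwP]
          rw [coeff_X_pow]
          split_ifs
          · exact val.one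
          · exact val.zero _
        · simp only [frwP]
          rw [coeff_X_pow_mul']
          split_ifs
          · exact (hS s).2.1 _
          · exact val.zero _
      · simp only [frwP, coeff_zero]; exact val.zero _
    · simp only [hQ, Sum.elim_inr]
      split_ifs
      · exact val.one
      · exact val.zero _
  · intro r y
    have h := frw_col (K := K) (A := A) hN hS rr r y
    refine (congrArg (fun z => val p z 1) ?_).mp h
    rw [Matrix.mul_apply, Fintype.sum_sum_type]
    simp only [hW, hQ, Sum.elim_inl, Sum.elim_inr]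
    rw [frw_eq_sum (frwP S y) (M := M) (frw_deg hp.pos (fun s => (hS s).1) y)]

end MP_a3a416_nt.WIN
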