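import Pool.Agent.Lib.MP_a3a416_nt.WIN.ColOpW
import Pool.Agent.Lib.MP_a3a416_nt.SJ.QCoef

/-! # WIN-GenBoundW: the bound for every prime -/

set_option autoImplicit false

open Polynomial

namespace MP_a3a416_nt.WIN

open MP_a3a416_nt.SJ MP_a3a416_nt.SJ5

/-- column potentials. -/
private def bGW (P : Par) (p N K : ℕ) : Bk P → ℕ → ℤ
  | none, i => (padicValNat p i.factorial : ℤ)
  | some none, i => (padicValNat p i.factorial : ℤ) + (Nat.log p K : ℤ)
  | some (some j), i => (padicValNat p i.factorial : ℤ) - ((P.r0 : ℤ) + (j : ℕ)) * (Nat.log p N : ℤ)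

private theorem sum_rowW (P : Par) (N : ℕ) :
    ∑ ρ : RowT P N, (((ρ.2 : ℕ) : ℤ)) = (∑ k ∈ Finset.range P.T, (k : ℤ)) * (2 * N + 1) := by
  rw [Fintype.sum_prod_type]
  simp only [Finset.sum_const, Finset.card_univ, Fintype.card_fin]
  rw [← Finset.sum_range (fun k => (k : ℤ)), nsmul_eq_mul]
  push_cast
  ring

private theorem val_hhW {p : ℕ} [hp : Fact p.Prime] {N : ℕ} {n : ℤ} (h1 : -(N : ℤ) ≤ n)
    (h2 : n ≤ N) (r : ℕ) : val p (hh r n) (-(r * (Nat.log p N : ℤ))) := by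
  unfold hh
  apply val.sub
  · apply val.sum
    intro b hb
    simp only [Finset.mem_Ioc] at hb
    exact val_inv_int (by omega) (by rw [abs_le]; omega) r
  · apply val.sum
    intro b hb
    simp only [Finset.mem_Ioo] at hb
    exact val_inv_int (by omega) (by rw [abs_le]; omega) r

private theorem val_Gf (P : Par) (hP : P.Ok) {p : ℕ} [hp : Fact p.Prime] {N : ℕ} {n : ℤ}
    (h1 : -(N : ℤ) ≤ n) (h2 : n ≤ N) (i : Fin P.f) {j : ℕ} (hj : j < P.T) :
    val p (PowerSeries.coeff j (Gf P (P.r0 + i) n))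
      (-(((P.r0 : ℤ) + (i : ℕ)) * (Nat.log p N : ℤ)) - j * (Nat.log p N : ℤ)) := by
  have hlog : (0 : ℤ) ≤ (Nat.log p N : ℤ) := by positivity
  rw [Gf, PowerSeries.coeff_mk, mul_add]
  apply val.add
  · have h3 := (val_hhW (p := p) h1 h2 (P.r0 + i + j)).int_mul
      ((P.D : ℤ) * ((-1) ^ j * (((P.r0 + i + j).choose j : ℕ) : ℤ)))
    push_cast at h3
    rw [← mul_assoc]
    refine h3.mono (le_of_eq ?_)
    push_cast
    ring
  · obtain ⟨z, hz⟩ := hP.hint (P.r0 + i) j (by omega) (by omega) hj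
    rw [hz]
    refine (val.int (p := p) z).mono ?_
    have h4 : (0 : ℤ) ≤ ((P.r0 : ℤ) + (i : ℕ)) * (Nat.log p N : ℤ) := by positivity
    have h5 : (0 : ℤ) ≤ (j : ℤ) * (Nat.log p N : ℤ) := by positivity
    linarith

private theorem coeff_JW (P : Par) (β : Bk P) (Q : ℚ[X]) (n : ℤ) (k : ℕ) :
    PowerSeries.coeff k (JW P β Q n) =
      ∑ i ∈ Finset.range (k + 1), (taylor (n : ℚ) Q).coeff i * PowerSeries.coeff (k - i) (gW P β n) := by
  rw [JW, PowerSeries.coeff_mul, Finset.Nat.sum_antidiagonal_eq_sum_range_succ_mk]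
  simp [coeff_tp]

private theorem val_convW {p : ℕ} [hp : Fact p.Prime] {f g : ℕ → ℚ} {T k : ℕ} {a b : ℤ} {L L' : ℤ}
    (hL : L' ≤ L) (hk : k < T)
    (hf : ∀ i, val p (f i) (a - i * L)) (hg : ∀ j < T, val p (g j) (b - j * L')) :
    val p (∑ i ∈ Finset.range (k + 1), f i * g (k - i)) (a + b - k * L) := by
  apply val.sum
  intro i hi
  refine ((hf i).mul (hg (k - i) (by omega))).mono ?_
  have h1 : i ≤ k := by
    have := Finset.mem_range.1 hi
    omega
  have h2 : ((k - i : ℕ) : ℤ) = k - i := by omega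
  rw [h2]
  have h3 : (0 : ℤ) ≤ ((k : ℤ) - i) * (L - L') := mul_nonneg (by omega) (by linarith)
  nlinarith

private theorem val_ind {p : ℕ} (L : ℤ) (m j : ℕ) :
    val p (PowerSeries.coeff j ((PowerSeries.X : PowerSeries ℚ) ^ m)) ((m : ℤ) * L - j * L) := by
  rw [PowerSeries.coeff_X_pow]
  split_ifs with h
  · rw [h, sub_self]
    exact val.one
  · exact val.zero _

private theorem val_entryW (P : Par) (hP : P.Ok) {p : ℕ} [hp : Fact p.Prime] {N K A c0 : ℕ} (hNK : N ≤ K)
    (hAK : A ≤ K) (rr : Fin c0 → RowT P N) (ρ : RowT P N) (x : ColW P K A ⊕ Fin c0) :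
    val p (MT (colT (fun y n => JW P y.1 (qf y.2) n - JW P none 0 n) rr) ρ x)
      (-((ρ.2 : ℕ) * (Nat.log p K : ℤ))
      + Sum.elim (fun w : ColW P K A => bGW P p N K w.1 w.2) (fun _ => 0) x) := by
  obtain ⟨hn1, hn2⟩ := nd_bd ρ
  have hkT : (ρ.2 : ℕ) < P.T := ρ.2.2
  rcases x with w | w
  · obtain ⟨β, i⟩ := w
    show val p (PowerSeries.coeff ρ.2 (JW P β (qf i) (nd ρ) - JW P none 0 (nd ρ)))
      (-((ρ.2 : ℕ) * (Nat.log p K : ℤ)) + bGW P p N K β i)
    have h0 : JW P none 0 (nd ρ) = 0 := by rw [JW_none, tp_zero]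
    rw [h0, sub_zero, coeff_JW]
    have hi : (i : ℕ) ≤ K := le_trans (le_of_lt i.2) (lenW_le P hAK β)
    have hlog : ((Nat.log p N : ℕ) : ℤ) ≤ ((Nat.log p K : ℕ) : ℤ) := by
      exact_mod_cast Nat.log_mono_right hNK
    rcases β with _ | _ | m
    · exact (val_convW (L := (Nat.log p K : ℤ)) (L' := (Nat.log p K : ℤ))
        (a := (padicValNat p (i : ℕ).factorial : ℤ)) (b := ((0 : ℕ) : ℤ) * (Nat.log p K : ℤ)) le_rfl hkT
        (fun l => val_taylor_qf (nd ρ) hi l)
        (fun j _ => by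
          have := val_ind (p := p) (Nat.log p K : ℤ) 0 j
          rwa [pow_zero] at this)).mono (le_of_eq (by
          show -((ρ.2 : ℕ) * (Nat.log p K : ℤ)) + (padicValNat p (i : ℕ).factorial : ℤ) = _
          push_cast
          ring))
    · exact (val_convW (L := (Nat.log p K : ℤ)) (L' := (Nat.log p K : ℤ))
        (a := (padicValNat p (i : ℕ).factorial : ℤ)) (b := ((1 : ℕ) : ℤ) * (Nat.log p K : ℤ)) le_rfl hkT
        (fun l => val_taylor_qf (nd ρ) hi l)
        (fun j _ => by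
          have := val_ind (p := p) (Nat.log p K : ℤ) 1 j
          rwa [pow_one] at this)).mono (le_of_eq (by
          show -((ρ.2 : ℕ) * (Nat.log p K : ℤ)) + ((padicValNat p (i : ℕ).factorial : ℤ) + (Nat.log p K : ℤ)) = _
          push_cast
          ring))
    · exact (val_convW (L := (Nat.log p K : ℤ)) (L' := (Nat.log p N : ℤ))
        (a := (padicValNat p (i : ℕ).factorial : ℤ))
        (b := -(((P.r0 : ℤ) + (m : ℕ)) * (Nat.log p N : ℤ))) hlog hkT
        (fun l => val_taylor_qf (nd ρ) hi l)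
        (fun j hj => val_Gf P hP hn1 hn2 m hj)).mono (le_of_eq (by
          simp only [bGW]
          ring))
  · show val p (PowerSeries.coeff ρ.2 (ucT (rr w) (nd ρ))) _
    rw [coeff_ucT]
    have hL : (0 : ℤ) ≤ ((ρ.2 : ℕ) : ℤ) * (Nat.log p K : ℤ) := by positivity
    split_ifs
    · refine (val.one (p := p)).mono ?_
      simp only [Sum.elim_inr]
      linarith
    · exact val.zero _

private theorem sum_bGW (P : Par) (p N K A c0 : ℕ) :
    ∑ x : ColW P K A ⊕ Fin c0, Sum.elim (fun w : ColW P K A => bGW P p N K w.1 w.2) (fun _ => 0) x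
      = ∑ i ∈ Finset.range K, (padicValNat p i.factorial : ℤ)
        + (P.f + 1) * ∑ i ∈ Finset.range A, (padicValNat p i.factorial : ℤ)
        + A * (Nat.log p K : ℤ)
        - (∑ i ∈ Finset.range P.f, ((P.r0 : ℤ) + i)) * A * (Nat.log p N : ℤ) := by
  rw [Fintype.sum_sum_type, Fintype.sum_sigma, sum_bk]
  simp only [Sum.elim_inl, Sum.elim_inr, Finset.sum_const_zero, add_zero]
  have hz : ∑ i : Fin (lenW P K A none), bGW P p N K none i
      = ∑ i ∈ Finset.range K, (padicValNat p i.factorial : ℤ) := by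
    show ∑ i : Fin K, bGW P p N K none i = _
    rw [← Finset.sum_range (fun i => bGW P p N K none i)]
    rfl
  have hu : ∑ i : Fin (lenW P K A (some none)), bGW P p N K (some none) i
      = ∑ i ∈ Finset.range A, (padicValNat p i.factorial : ℤ) + A * (Nat.log p K : ℤ) := by
    show ∑ i : Fin A, bGW P p N K (some none) i = _
    rw [← Finset.sum_range (fun i => bGW P p N K (some none) i)]
    simp only [bGW, Finset.sum_add_distrib]
    simp
  have hg : ∀ j : Fin P.f, ∑ i : Fin (lenW P K A (some (some j))), bGW P p N K (some (some j)) i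
      = ∑ i ∈ Finset.range A, (padicValNat p i.factorial : ℤ)
        - ((P.r0 : ℤ) + (j : ℕ)) * (A * (Nat.log p N : ℤ)) := by
    intro j
    show ∑ i : Fin A, bGW P p N K (some (some j)) i = _
    rw [← Finset.sum_range (fun i => bGW P p N K (some (some j)) i)]
    simp only [bGW, Finset.sum_sub_distrib]
    simp
    ring
  rw [hz, hu, Finset.sum_congr rfl (fun j _ => hg j), Finset.sum_sub_distrib, ← Finset.sum_mul,
    ← Finset.sum_range (fun i => (P.r0 : ℤ) + (i : ℕ))]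
  simp only [Finset.sum_const, Finset.card_univ, Fintype.card_fin, nsmul_eq_mul]
  ring

theorem val_genW (P : Par) (hP : P.Ok) {N K A c0 : ℕ} (rr : Fin c0 → RowT P N)
    (e : (ColW P K A ⊕ Fin c0) ≃ RowT P N) {p : ℕ} (hp : p.Prime) (hN : 1 ≤ N) (hNK : N ≤ K)
    (hAK : A ≤ K) :
    val p (sdet e (VhT P K A rr))
      (∑ i ∈ Finset.range K, (padicValNat p i.factorial : ℤ)
        + (P.f + 1) * ∑ i ∈ Finset.range A, (padicValNat p i.factorial : ℤ)
        + A * (Nat.log p K : ℤ)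
        - (∑ i ∈ Finset.range P.f, ((P.r0 : ℤ) + i)) * A * (Nat.log p N : ℤ)
        - (∑ k ∈ Finset.range P.T, (k : ℤ)) * (2 * N + 1) * (Nat.log p K : ℤ)) := by
  have : Fact p.Prime := ⟨hp⟩
  rw [← sdet_colopW P rr e (fun _ i => qf i) (fun _ _ => 0) (fun _ i => qf_monic i) (fun _ => rfl)
    (fun _ _ _ => Or.inl rfl)]
  refine (val_sdet (p := p) e (MT (colT (fun y n => JW P y.1 (qf y.2) n - JW P none 0 n) rr))
    (fun ρ => -((ρ.2 : ℕ) * (Nat.log p K : ℤ)))
    (fun x => Sum.elim (fun w : ColW P K A => bGW P p N K w.1 w.2) (fun _ => 0) x)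
    (fun ρ x => val_entryW P hP hNK hAK rr ρ x)).mono (le_of_eq ?_)
  rw [sum_bGW, Finset.sum_neg_distrib, ← Finset.sum_mul, sum_rowW]
  ring

end MP_a3a416_nt.WIN
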