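import Pool.Agent.Lib.MP_a3a416_nt.WIN.VTL

/-! # WIN-PolRowW: valuations after the row operation
PROOF. `coeff k (RST E p s f) = ∑_{a+b=k} coeff a ((1+sX)^E) * p^b * coeff b f`, `coeff a ((1 + sX)^E) = C(E,a) s^a` is an integer up to `s = ±1` and `0` for `a > E`, so only `b ≥ k - E` occur:
* `RVT_of_VT`: valuation `≥ b' + max(0, k-E)` for `VT T p b' f`.
* `RST_piW`: `rescale p (piW p r s) = C (s^(r+1) p^(-r)) * mk (fun j => (-s)^j C(r+j,j))`, and `(1+sX)^(r+1) * mk (fun j => (-s)^j C(r+j,j)) = 1` (induction on `r`, Pascal; compare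
  `PolRow_g1/g2/g3` in `SJ5/PolRow.lean`), so `RST E p s (piW p r s) = C (s^(r+1) p^(-r)) * (1+sX)^(E-r-1)` for `r + 1 ≤ E`.
* `RVT_piW`: `RST (tp Q n * piW) = rescale p (tp Q n) * C(..) * (1+sX)^(E-r-1)` (`RST` of a product: `rescale` is a ring hom); coefficient of `X^b` of `rescale p (tp Q n)` has `v ≥ b`; in the product
  only `b ≥ k - (E-r-1)` occur: `v ≥ -r + max(0, k-(E-r-1)) ≥ k - E + 1`.
* unit columns: `ucT ρ n` is `0` or `X^k0`: `RVT_of_VT` with `b = 0` (`VT T p 0 (X^k0)`). -/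

set_option autoImplicit false

open Polynomial

namespace MP_a3a416_nt.WIN

open MP_a3a416_nt.SJ MP_a3a416_nt.SJ5

private theorem PolRowW_aux (s : ℚ) (f : ℕ → ℚ) (k : ℕ) :
    PowerSeries.coeff (k + 1) ((1 + PowerSeries.C s * PowerSeries.X) * PowerSeries.mk f)
      = f (k + 1) + s * f k := by
  have h : (1 + PowerSeries.C s * PowerSeries.X) * PowerSeries.mk f
      = PowerSeries.mk f + PowerSeries.C s * (PowerSeries.X * PowerSeries.mk f) := by ring
  rw [h, map_add, PowerSeries.coeff_mk, PowerSeries.coeff_C_mul, PowerSeries.coeff_succ_X_mul,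
    PowerSeries.coeff_mk]

private theorem PolRowW_aux0 (s : ℚ) (f : ℕ → ℚ) :
    PowerSeries.coeff 0 ((1 + PowerSeries.C s * PowerSeries.X) * PowerSeries.mk f) = f 0 := by
  have h : (1 + PowerSeries.C s * PowerSeries.X) * PowerSeries.mk f
      = PowerSeries.mk f + PowerSeries.C s * (PowerSeries.X * PowerSeries.mk f) := by ring
  rw [h, map_add, PowerSeries.coeff_mk, PowerSeries.coeff_C_mul, PowerSeries.coeff_zero_X_mul,
    mul_zero, add_zero]

private theorem PolRowW_g (s : ℚ) (r : ℕ) : (1 + PowerSeries.C s * PowerSeries.X) ^ (r + 1) *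
    PowerSeries.mk (fun j => (-s) ^ j * ((r + j).choose j : ℚ)) = (1 : PowerSeries ℚ) := by
  induction r with
  | zero =>
    rw [zero_add, pow_one]
    ext k
    cases k with
    | zero => rw [PolRowW_aux0]; simp
    | succ k =>
      rw [PolRowW_aux, PowerSeries.coeff_one, if_neg (Nat.succ_ne_zero k)]
      simp only [zero_add, Nat.choose_self, Nat.cast_one, mul_one]
      ring
  | succ r ih =>
    have h : (1 + PowerSeries.C s * PowerSeries.X) *
        PowerSeries.mk (fun j => (-s) ^ j * ((r + 1 + j).choose j : ℚ))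
          = PowerSeries.mk (fun j => (-s) ^ j * ((r + j).choose j : ℚ)) := by
      ext k
      cases k with
      | zero => rw [PolRowW_aux0]; simp
      | succ k =>
        rw [PolRowW_aux, PowerSeries.coeff_mk]
        have e1 : r + 1 + (k + 1) = (r + k + 1) + 1 := by ring
        have e2 : r + (k + 1) = r + k + 1 := by ring
        have e3 : r + 1 + k = r + k + 1 := by ring
        rw [e1, e2, e3, Nat.choose_succ_succ]
        push_cast
        ring
    rw [pow_succ, mul_assoc, h]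
    exact ih

private theorem PolRowW_coeff_val {p : ℕ} [hp : Fact p.Prime] {s : ℚ} (hs : val p s 0) (E a : ℕ) :
    val p (PowerSeries.coeff a ((1 + PowerSeries.C s * PowerSeries.X) ^ E : PowerSeries ℚ)) 0 := by
  have h1 : VT (a + 1) p 0 (1 + PowerSeries.C s * PowerSeries.X) :=
    VT.one.add ((VT.C hs).mul_left VT.X)
  have h2 := h1.pow E
  rw [mul_zero] at h2
  exact h2 a (Nat.lt_succ_self a)

private theorem PolRowW_coeff_zero (s : ℚ) {E a : ℕ} (h : E < a) :
    PowerSeries.coeff a ((1 + PowerSeries.C s * PowerSeries.X) ^ E : PowerSeries ℚ) = 0 := by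
  have h1 : ((1 + PowerSeries.C s * PowerSeries.X) ^ E : PowerSeries ℚ)
      = (((1 + Polynomial.C s * Polynomial.X) ^ E : ℚ[X]) : PowerSeries ℚ) := by
    push_cast
    rfl
  rw [h1, Polynomial.coeff_coe]
  apply Polynomial.coeff_eq_zero_of_natDegree_lt
  refine lt_of_le_of_lt ?_ h
  have h2 : (1 + Polynomial.C s * Polynomial.X : ℚ[X]).natDegree ≤ 1 := by
    compute_degree
  calc ((1 + Polynomial.C s * Polynomial.X : ℚ[X]) ^ E).natDegree
      ≤ E * (1 + Polynomial.C s * Polynomial.X : ℚ[X]).natDegree := Polynomial.natDegree_pow_le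
    _ ≤ E * 1 := Nat.mul_le_mul_left _ h2
    _ = E := mul_one E

private theorem PolRowW_rescale {p : ℕ} (hp : p ≠ 0) (r : ℕ) (s : ℚ) :
    PowerSeries.rescale (p : ℚ) (piW p r s)
      = PowerSeries.C (s ^ (r + 1) * (p : ℚ)⁻¹ ^ r) *
        PowerSeries.mk (fun j => (-s) ^ j * ((r + j).choose j : ℚ)) := by
  have hp' : (p : ℚ) ≠ 0 := by exact_mod_cast hp
  ext k
  rw [PowerSeries.coeff_rescale, piW, PowerSeries.coeff_mk, PowerSeries.coeff_C_mul,
    PowerSeries.coeff_mk, pow_add (p : ℚ)⁻¹, inv_pow (p : ℚ) k]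
  have h1 : (p : ℚ) ^ k * ((p : ℚ) ^ k)⁻¹ = 1 := mul_inv_cancel₀ (pow_ne_zero k hp')
  linear_combination (s ^ (r + 1) * (-s) ^ k * ((r + k).choose k : ℚ) * (p : ℚ)⁻¹ ^ r) * h1

private theorem PolRowW_rescale_C (x d : ℚ) :
    PowerSeries.rescale x (PowerSeries.C d) = PowerSeries.C d := by
  ext k
  rw [PowerSeries.coeff_rescale, PowerSeries.coeff_C]
  split_ifs with h
  · rw [h, pow_zero, one_mul]
  · rw [mul_zero]

theorem RVT_zero {T E p : ℕ} {s : ℚ} (b : ℤ) : RVT T E p s b 0 := by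
  intro k _
  simp only [RST, map_zero, mul_zero]
  exact val.zero _

theorem RVT_add {T E p : ℕ} [hp : Fact p.Prime] {s : ℚ} {b : ℤ} {f g : PowerSeries ℚ}
    (hf : RVT T E p s b f) (hg : RVT T E p s b g) : RVT T E p s b (f + g) := by
  intro k hk
  have h := (hf k hk).add (hg k hk)
  have e : RST E p s (f + g) = RST E p s f + RST E p s g := by
    simp only [RST, map_add, mul_add]
  rw [e, map_add]
  exact h

theorem RVT_mono {T E p : ℕ} {s : ℚ} {a b : ℤ} {f : PowerSeries ℚ} (h : RVT T E p s a f)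
    (hab : b ≤ a) : RVT T E p s b f := fun k hk => (h k hk).mono (by linarith)

theorem RVT_of_VT {T E p : ℕ} [hp : Fact p.Prime] {s : ℚ} (hs : s = 1 ∨ s = -1) {b : ℤ}
    {f : PowerSeries ℚ} (hf : VT T p b f) : RVT T E p s b f := by
  have hs0 : val p s 0 := by
    rcases hs with h | h
    · rw [h]; exact val.one
    · rw [h]; exact val.one.neg
  intro k hk
  rw [RST, PowerSeries.coeff_mul]
  apply val.sum
  intro x hx
  rw [Finset.HasAntidiagonal.mem_antidiagonal] at hx
  rcases Nat.lt_or_ge E x.1 with h | h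
  · rw [PolRowW_coeff_zero s h, zero_mul]
    exact val.zero _
  · rw [PowerSeries.coeff_rescale]
    have h1 := (PolRowW_coeff_val hs0 E x.1).mul
      ((val.p_zpow (p := p) (x.2 : ℤ)).mul (hf x.2 (by omega)))
    rw [zpow_natCast] at h1
    refine h1.mono ?_
    have : (k : ℤ) = x.1 + x.2 := by exact_mod_cast hx.symm
    have h' : (x.1 : ℤ) ≤ E := by exact_mod_cast h
    linarith

theorem RVT_piW {T E p r : ℕ} [hp : Fact p.Prime] (hr : r + 1 ≤ E) {s : ℚ} (hs : s = 1 ∨ s = -1)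
    {Q : ℚ[X]} (hQ : ∀ j, val p (Q.coeff j) 0) (d : ℤ) (n : ℤ) :
    RVT T E p s 1 (tp Q n * (PowerSeries.C (d : ℚ) * piW p r s)) := by
  have hs0 : val p s 0 := by
    rcases hs with h | h
    · rw [h]; exact val.one
    · rw [h]; exact val.one.neg
  have e : RST E p s (tp Q n * (PowerSeries.C (d : ℚ) * piW p r s))
      = PowerSeries.C ((d : ℚ) * (s ^ (r + 1) * (p : ℚ)⁻¹ ^ r)) *
        RST (E - (r + 1)) p s (tp Q n) := by
    unfold RST
    have hC : (PowerSeries.C ((d : ℚ) * (s ^ (r + 1) * (p : ℚ)⁻¹ ^ r)) : PowerSeries ℚ)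
        = PowerSeries.C (d : ℚ) * PowerSeries.C (s ^ (r + 1) * (p : ℚ)⁻¹ ^ r) := map_mul _ _ _
    rw [hC, map_mul, map_mul, PolRowW_rescale hp.out.ne_zero, PolRowW_rescale_C]
    have hE : (1 + PowerSeries.C s * PowerSeries.X : PowerSeries ℚ) ^ E
        = (1 + PowerSeries.C s * PowerSeries.X) ^ (E - (r + 1)) *
          (1 + PowerSeries.C s * PowerSeries.X) ^ (r + 1) := by
      rw [← pow_add]
      congr 1
      omega
    rw [hE]
    linear_combination ((1 + PowerSeries.C s * PowerSeries.X) ^ (E - (r + 1)) *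
      PowerSeries.rescale (p : ℚ) (tp Q n) * PowerSeries.C (d : ℚ) *
        PowerSeries.C (s ^ (r + 1) * (p : ℚ)⁻¹ ^ r)) * PolRowW_g s r
  intro k hk
  rw [e, PowerSeries.coeff_C_mul]
  have h1 : RVT T (E - (r + 1)) p s 0 (tp Q n) := RVT_of_VT hs (VT_tp hQ n)
  have h2 := h1 k hk
  have h3 : val p ((p : ℚ)⁻¹ ^ r) (-(r : ℤ)) := by
    have := val.p_zpow (p := p) (-(r : ℤ))
    rwa [zpow_neg, zpow_natCast, ← inv_pow] at this
  have h4 := ((val.int (p := p) d).mul ((hs0.pow (r + 1)).mul h3)).mul h2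
  refine h4.mono ?_
  have h5 : ((E - (r + 1) : ℕ) : ℤ) = (E : ℤ) - (r + 1) := by
    rw [Nat.cast_sub hr]; push_cast; ring
  rw [h5]
  push_cast
  linarith

theorem LCT_ucT {P : Par} {N p : ℕ} [hp : Fact p.Prime] (ρ : RowT P N) (n : ℤ) :
    LCT P p n 0 (ucT ρ n) := by
  have h : VT P.T p 0 (ucT ρ n) := by
    unfold ucT
    split_ifs
    · have := (VT.X (T := P.T) (p := p)).pow (ρ.2 : ℕ)
      simpa using this
    · exact VT.zero _
  unfold LCT
  split_ifs
  · refine RVT_of_VT ?_ h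
    unfold sg
    split_ifs
    · exact Or.inl rfl
    · exact Or.inr rfl
  · exact h

end MP_a3a416_nt.WIN
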