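import Pool.Agent.Lib.MP_a3a416_nt.WIN.PolarW
import Pool.Agent.Lib.MP_a3a416_nt.WIN.PolRowW

/-! # WIN-LocW: the local conditions on the columns, `|n| < 2p` -/

set_option autoImplicit false

open Polynomial

namespace MP_a3a416_nt.WIN

open MP_a3a416_nt.SJ MP_a3a416_nt.SJ5

private theorem LocW_sg (n : ℤ) : sg n = 1 ∨ sg n = -1 := by
  unfold sg
  split_ifs
  · exact Or.inl rfl
  · exact Or.inr rfl

private theorem LocW_polar (P : Par) {p : ℕ} [hp : Fact p.Prime] (β : Bk P) {Q : ℚ[X]}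
    (hQ : ∀ j, val p (Q.coeff j) 0) (n : ℤ) :
    LCT P p n 1 (tp Q n * gP P p β n) := by
  unfold LCT
  by_cases hO : InO p n
  · rw [if_pos hO]
    rcases β with _ | _ | i
    · simp only [gP, mul_zero]
      exact RVT_zero 1
    · simp only [gP, mul_zero]
      exact RVT_zero 1
    · simp only [gP]
      rw [if_pos hO]
      have h := RVT_piW (T := P.T) (E := P.E) (p := p) (r := P.r0 + (i : ℕ))
        (by have := i.2; unfold Par.E; omega) (LocW_sg n) hQ (P.D : ℤ) n
      simpa using h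
  · rw [if_neg hO]
    rcases β with _ | _ | i
    · simp only [gP, mul_zero]
      exact VT.zero 1
    · simp only [gP, mul_zero]
      exact VT.zero 1
    · simp only [gP]
      rw [if_neg hO, mul_zero]
      exact VT.zero 1

private theorem LocW_add (P : Par) {p : ℕ} [hp : Fact p.Prime] {n : ℤ} {b : ℤ}
    {f g : PowerSeries ℚ} (hf : LCT P p n b f) (hg : LCT P p n b g) : LCT P p n b (f + g) := by
  unfold LCT at *
  split_ifs with hO
  · rw [if_pos hO] at hf hg
    exact RVT_add hf hg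
  · rw [if_neg hO] at hf hg
    exact hf.add hg

private theorem LocW_mono (P : Par) {p : ℕ} {n : ℤ} {a b : ℤ}
    {f : PowerSeries ℚ} (hf : LCT P p n a f) (hab : b ≤ a) : LCT P p n b f := by
  unfold LCT at *
  split_ifs with hO
  · rw [if_pos hO] at hf
    exact RVT_mono hf hab
  · rw [if_neg hO] at hf
    exact hf.mono hab

private theorem LocW_of_VT (P : Par) {p : ℕ} [hp : Fact p.Prime] {n : ℤ} {b : ℤ}
    {f : PowerSeries ℚ} (hf : VT P.T p b f) : LCT P p n b f := by
  unfold LCT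
  split_ifs with hO
  · exact RVT_of_VT (LocW_sg n) hf
  · exact hf

theorem LCT_col (P : Par) (hP : P.Ok) {p : ℕ} (hp : p.Prime) (β : Bk P) {Q : ℚ[X]}
    (hQ : ∀ j, val p (Q.coeff j) 0) (n : ℤ) (h1 : -(2 * (p : ℤ)) ≤ n) (h2 : n < 2 * p) :
    LCT P p n 0 (JW P β Q n) := by
  have : Fact p.Prime := ⟨hp⟩
  have e : JW P β Q n = tp Q n * gR P p β n + tp Q n * gP P p β n := by
    rw [JW_eq, gW_split P hp.pos β n h1 h2, mul_add]
  rw [e]
  refine LocW_add P (LocW_of_VT P ?_) (LocW_mono P (LocW_polar P β hQ n) (by norm_num))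
  exact (VT_tp hQ n).mul_left (VT_gR P hP hp β n)

theorem LCT_kill (P : Par) (hP : P.Ok) {p : ℕ} (hp : p.Prime) {S : Option (Fin P.f) → ℚ[X]}
    (hS : RelW P p S) (s : Option (Fin P.f)) {Q : ℚ[X]}
    (hQ : ∀ j, val p (Q.coeff j) 0) (n : ℤ) (h1 : -(2 * (p : ℤ)) ≤ n) (h2 : n < 2 * p) :
    LCT P p n 1 (JW P (some s) Q n - JW P none (Q * S s) n) := by
  have : Fact p.Prime := ⟨hp⟩
  have e : JW P (some s) Q n - JW P none (Q * S s) n
      = tp Q n * (gR P p (some s) n - tp (S s) n) + tp Q n * gP P p (some s) n := by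
    rw [JW_none, JW_eq, gW_split P hp.pos (some s) n h1 h2, tp_mul]
    ring
  rw [e]
  refine LocW_add P (LocW_of_VT P ?_) (LocW_polar P (some s) hQ n)
  exact (VT_tp hQ n).mul_left ((hS s).2.2 n)

end MP_a3a416_nt.WIN
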