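import Pool.Agent.Lib.MP_a3a416_nt.WIN.ColOpW
import Pool.Agent.Lib.MP_a3a416_nt.WIN.RowOpW
import Pool.Agent.Lib.MP_a3a416_nt.WIN.LocW

/-! # WIN-MidBoundW: the bounds for `p > N/2`
PROOF. `val_potW`: potentials for a family `Φ` of columns with `LCT P p n (b x) (Φ x n)` at all nodes: `M = BopW * MT Φ`, `M r x` has `val p` at least `a r + b x`, `a r = k - E` at the nodes in `O`, `0` at the others
(`BopW_MT`; unfold `LCT`, `RVT`, `VT`); `SJ.sdet_mul_left`, `SJ.val_sdet`, `sum_apotW`, `det_BopW`: `v(det Bop) + v(sdet) = v(sdet (Bop * MT))`, so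
`v(sdet (MT Φ)) ≥ (tt - E T) nO + ∑ b - tt nO = - E T nO + ∑ b`.
`val_midW`: `Φ = colT (JW P β (X^i))`, `b = 0` (`LCT_col` with `Q = X^i`, `LCT_ucT`).
`val_mid_flatW`: `sdet_colopW` with `R β i = X^i`, `Q (some s) i = X^i * S s` (degree `≤ i + p < A + p ≤ K`), `b = 1` for the `(f+1) A` short columns (`LCT_kill`), `0` for the others.
`|nd r| ≤ N < 2p`. -/

set_option autoImplicit false

open Polynomial

namespace MP_a3a416_nt.WIN

open MP_a3a416_nt.SJ MP_a3a416_nt.SJ5

theorem val_potW (P : Par) {N K A c0 : ℕ} (e : (ColW P K A ⊕ Fin c0) ≃ RowT P N) {p : ℕ}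
    (hp : p.Prime) (Φ : ColW P K A ⊕ Fin c0 → ℤ → PowerSeries ℚ) (b : ColW P K A ⊕ Fin c0 → ℤ)
    (h : ∀ x, ∀ n : ℤ, |n| ≤ N → LCT P p n (b x) (Φ x n)) :
    val p (sdet e (MT Φ)) (∑ x, b x - P.E * P.T * nO N p) := by
  have : Fact p.Prime := ⟨hp⟩
  have hM : val p (sdet e (BopW P p N * (MT Φ : Matrix (RowT P N) (ColW P K A ⊕ Fin c0) ℚ)))
      (∑ r : RowT P N, (if InO p (nd r) then ((r.2 : ℕ) : ℤ) - P.E else 0) + ∑ x, b x) := by
    apply val_sdet e _ (fun r : RowT P N => if InO p (nd r) then ((r.2 : ℕ) : ℤ) - P.E else 0) b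
    intro r x
    rw [BopW_MT]
    have h' := h x (nd r) (abs_le.2 (nd_bd r))
    unfold LCT at h'
    by_cases hO : InO p (nd r)
    · rw [if_pos hO] at h'
      rw [if_pos hO, if_pos hO]
      exact h' r.2 r.2.2
    · rw [if_neg hO] at h'
      rw [if_neg hO, if_neg hO, zero_add]
      exact h' r.2 r.2.2
  rw [sdet_mul_left, sum_apotW] at hM
  obtain ⟨hB0, hBv⟩ := det_BopW P hp N
  by_cases h0 : sdet e (MT Φ : Matrix (RowT P N) (ColW P K A ⊕ Fin c0) ℚ) = 0
  · exact Or.inl h0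
  right
  have h1 := hM.le_of_ne (mul_ne_zero hB0 h0)
  rw [padicValRat.mul hB0 h0, hBv] at h1
  linarith

private theorem two_p {N p : ℕ} (hN : N < 2 * p) {n : ℤ} (hn : |n| ≤ N) :
    -(2 * (p : ℤ)) ≤ n ∧ n < 2 * p := by
  have := abs_le.1 hn
  omega

private theorem val_X_pow_coeff (p i j : ℕ) : val p ((X ^ i : ℚ[X]).coeff j) 0 := by
  rw [coeff_X_pow]
  split_ifs
  · right; simp
  · left; rfl

theorem val_midW (P : Par) (hP : P.Ok) {N K A c0 : ℕ} (rr : Fin c0 → RowT P N)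
    (e : (ColW P K A ⊕ Fin c0) ≃ RowT P N) {p : ℕ} (hp : p.Prime) (hN : N < 2 * p) :
    val p (sdet e (VhT P K A rr)) (-(P.E * P.T * nO N p)) := by
  have : Fact p.Prime := ⟨hp⟩
  have h := val_potW P e hp (colT (fun y n => JW P y.1 (X ^ (y.2 : ℕ)) n) rr) (fun _ => 0) (by
    intro x n hn
    obtain ⟨h1, h2⟩ := two_p hN hn
    rcases x with ⟨β, i⟩ | j
    · exact LCT_col P hP hp β (val_X_pow_coeff p i) n h1 h2
    · exact LCT_ucT (rr j) n)
  simpa [VhT] using h

theorem val_mid_flatW (P : Par) (hP : P.Ok) {N K A c0 : ℕ} (rr : Fin c0 → RowT P N)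
    (e : (ColW P K A ⊕ Fin c0) ≃ RowT P N) {p : ℕ} (hp : p.Prime) (hN : N < 2 * p)
    (hK : A + p ≤ K) {S : Option (Fin P.f) → ℚ[X]} (hS : RelW P p S) :
    val p (sdet e (VhT P K A rr)) ((P.f + 1) * A - P.E * P.T * nO N p) := by
  have : Fact p.Prime := ⟨hp⟩
  set Q : Bk P → ℕ → ℚ[X] := fun β i => match β with
    | none => 0
    | some s => X ^ i * S s with hQ
  have hcol := sdet_colopW P (K := K) (A := A) rr e (fun _ i => X ^ i) Q
    (fun β i => ⟨monic_X_pow i, natDegree_X_pow i⟩) (fun i => rfl) (by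
      intro β i hi
      rcases β with _ | s
      · exact Or.inl rfl
      · right
        have hi' : i < A := hi
        have hd : (X ^ i * S s).natDegree ≤ i + p :=
          natDegree_mul_le.trans (by rw [natDegree_X_pow]; exact Nat.add_le_add_left (hS s).1 i)
        show (X ^ i * S s).natDegree < K
        omega)
  set b : ColW P K A ⊕ Fin c0 → ℤ := Sum.elim (fun y : ColW P K A => if y.1 = none then 0 else 1)
    (fun _ => (0 : ℤ)) with hb
  have h := val_potW P e hp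
    (colT (fun (y : ColW P K A) n => JW P y.1 (X ^ (y.2 : ℕ)) n - JW P none (Q y.1 y.2) n) rr) b (by
    intro x n hn
    obtain ⟨h1, h2⟩ := two_p hN hn
    rcases x with ⟨β, i⟩ | j
    · rcases β with _ | s
      · show LCT P p n 0 (JW P none (X ^ (i : ℕ)) n - JW P none 0 n)
        have h0 : JW P none 0 n = 0 := by rw [JW_none]; exact tp_zero n
        rw [h0, sub_zero]
        exact LCT_col P hP hp none (val_X_pow_coeff p i) n h1 h2
      · show LCT P p n 1 (JW P (some s) (X ^ (i : ℕ)) n - JW P none (X ^ (i : ℕ) * S s) n)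
        exact LCT_kill P hP hp hS s (val_X_pow_coeff p i) n h1 h2
    · exact LCT_ucT (rr j) n)
  rw [hcol] at h
  have hs : ∑ x, b x = (P.f + 1) * A := by
    rw [Fintype.sum_sum_type]
    simp only [hb, Sum.elim_inl, Sum.elim_inr, Finset.sum_const_zero, add_zero]
    rw [Fintype.sum_sigma, sum_bk]
    have h0 : ∑ _i : Fin (lenW P K A none), (if (none : Bk P) = none then (0 : ℤ) else 1) = 0 := by
      simp
    have h1 : ∀ s, ∑ _i : Fin (lenW P K A (some s)),
        (if (some s : Bk P) = none then (0 : ℤ) else 1) = A := by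
      intro s
      show ∑ _i : Fin A, (1 : ℤ) = A
      simp
    refine (congrArg₂ (· + ·) h0 (congrArg₂ (· + ·) (h1 none)
      (Finset.sum_congr rfl fun i _ => h1 (some i)))).trans ?_
    simp
    ring
  rwa [hs] at h

end MP_a3a416_nt.WIN
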