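import Pool.Agent.Lib.MP_a3a416_nt.WIN.ShiftW
import Pool.Agent.Lib.MP_a3a416_nt.SJ5.Faul

/-! # WIN-RelOneW: the relations modulo `p` at a flat prime
PROOF. Adapt `SJ5/RelOne.lean`.  Fix `r0 ≤ r < r0 + f`, `k := p - r - 1`, `S := C D * (SS k - C e1 * Yp p)`, `e1 := if r = r0 then (SS k).coeff 1 else 0`.
Step: `Δ(n) := (Gr n - Gr (n-1)) - C D * tp (X^k) n` has `VT T p 1` for every `n`: `p ∣ n`: `Gr_step_dvd`, `VT_tp_pow_of_dvd` (`T ≤ k`);
`p ∤ n`: with `tp X n * g = 1`, `g` `p`-integral (`SJ5.VS_inv`): `Gr n - Gr (n-1) = C (D n) * g^(r+1)`, `tp (X^k) n = g^(r+1) * tp (X^p) n`, the difference is `C D * g^(r+1) * (C n - tp (X^p) n)`, `VT_z`.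
`tp (SS k) n - tp (SS k) (n-1) = tp (X^k) n` (`SS_step`).  `tp (Yp p) n ≡ u` (`VT_Yp`), so it suffices that `Gr n - C D * (tp (SS k) n - C e1 * X)` has `VT T p 1`; induction on `n` in both directions
(private `ro_ind` in `SJ5/RelOne.lean`) from `n = 0`: coefficient of `u^j`, `j < T`: `D (kap r j - (SS k).coeff j + (if j = 1 then e1 else 0))` (`coeff_Gr_zero`, `tp Q 0 = Q`):
`j = 0`: `kap = 0`, `SS_coeff_zero`.  `j ≥ 1`: `SS_coeff`: `(SS k).coeff j = C(k+1,j) B_{p-r-j}/(k+1)`, `k + 1 = p - r`.
`r + j` even: `p - r - j` is odd and `> 1`: `B = 0`, `kap = 0` (and `j ≠ 1` or `r ≠ r0` as `r0 + 1` is odd).  `r + j = r0 + 1` (so `r = r0`, `j = 1`): `kap = 0` and `e1` cancels.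
`r + j` odd, `> r0 + 1` (then `j = 1 → e1 = 0`): `r + j ≤ r0 + f - 1 + T - 1`, so `B_{p-(r+j)} ≡ c_{r+j}` by flatness (`v(B - c) ≥ 1` since `p` divides the numerator of `B - c`: private `ro_flat_val`;
`c` is `p`-integral because `B_{p-k'}` is, see `SJ5/BernInt`), and `C(p-r,j)/(p-r) ≡ -(-1)^j C(r+j-1,j)/r` modulo `p`: multiply by `j!` (prime to `p`):
`(p-r-1)(p-r-2)...(p-r-j+1) ≡ (-1)^(j-1) (r+1)...(r+j-1)` and `C(r+j-1,j) j!/r = (r+1)...(r+j-1)`.
`S` has degree `≤ max(k+1, p) ≤ p` and `p`-integral coefficients (`SS_val`).  For `u`: `S = Yp p`, `VT_Yp`. -/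

set_option autoImplicit false

open Polynomial

namespace MP_a3a416_nt.WIN

open MP_a3a416_nt.SJ MP_a3a416_nt.SJ5

private theorem RelOneW_choose_mod {p r m : ℕ} (hp : p.Prime) (h : r + m + 1 ≤ p) :
    (p : ℤ) ∣ (((p - r - 1).choose m : ℕ) : ℤ) - (-1) ^ m * (((r + m).choose m : ℕ) : ℤ) := by
  have : Fact p.Prime := ⟨hp⟩
  rw [← ZMod.intCast_zmod_eq_zero_iff_dvd]
  have hm : ((m.factorial : ℕ) : ZMod p) ≠ 0 := by
    rw [Ne, ZMod.natCast_eq_zero_iff, hp.dvd_factorial]
    omega
  have h1 : ((m.factorial * (p - r - 1).choose m : ℕ) : ZMod p)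
      = (-1) ^ m * ((m.factorial * (r + m).choose m : ℕ) : ZMod p) := by
    rw [← Nat.descFactorial_eq_factorial_mul_choose, ← Nat.ascFactorial_eq_factorial_mul_choose,
      Nat.descFactorial_eq_prod_range, Nat.ascFactorial_eq_prod_range]
    push_cast
    rw [← Finset.card_range m, ← Finset.prod_const, Finset.card_range, ← Finset.prod_mul_distrib]
    apply Finset.prod_congr rfl
    intro i hi
    have hi' := Finset.mem_range.1 hi
    have e : ((p - r - 1 - i : ℕ) : ZMod p) + ((r + 1 + i : ℕ) : ZMod p) = 0 := by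
      rw [← Nat.cast_add, show p - r - 1 - i + (r + 1 + i) = p by omega, ZMod.natCast_self]
    have e2 := eq_neg_of_add_eq_zero_left e
    rw [e2]
    push_cast
    ring
  push_cast at h1 ⊢
  apply mul_left_cancel₀ hm
  rw [mul_zero, mul_sub, h1]
  ring

theorem choose_div_congr {p r j : ℕ} (hp : p.Prime) (hr : 1 ≤ r) (hj : 1 ≤ j) (h : r + j < p) :
    val p (((p - r).choose j : ℚ) / ((p : ℚ) - r)
      - -((-1) ^ j * ((r + j - 1).choose j : ℚ) / (r : ℚ))) 1 := by
  have : Fact p.Prime := ⟨hp⟩
  obtain ⟨m, rfl⟩ : ∃ m, j = m + 1 := ⟨j - 1, by omega⟩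
  have h1 := RelOneW_choose_mod (p := p) (r := r) (m := m) hp (by omega)
  have hpr : (p : ℚ) - r ≠ 0 := by
    have : (r : ℚ) < p := by exact_mod_cast (by omega : r < p)
    linarith
  have hr0 : (r : ℚ) ≠ 0 := by
    have : (1 : ℚ) ≤ r := by exact_mod_cast hr
    linarith
  have hm0 : ((m : ℚ) + 1) ≠ 0 := by positivity
  have e1 : ((p - r).choose (m + 1) : ℚ) * ((m : ℚ) + 1)
      = ((p : ℚ) - r) * ((p - r - 1).choose m : ℚ) := by
    have h2 := Nat.add_one_mul_choose_eq (p - r - 1) m
    have h3 : p - r - 1 + 1 = p - r := by omega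
    rw [h3] at h2
    have h4 : ((p - r : ℕ) : ℚ) * ((p - r - 1).choose m : ℚ)
        = ((p - r).choose (m + 1) : ℚ) * ((m + 1 : ℕ) : ℚ) := by exact_mod_cast h2
    rw [Nat.cast_sub (by omega)] at h4
    rw [h4]
    push_cast
    ring
  have e2 : ((r + (m + 1) - 1).choose (m + 1) : ℚ) * ((m : ℚ) + 1)
      = ((r + m).choose m : ℚ) * (r : ℚ) := by
    have h2 := Nat.choose_succ_right_eq (r + m) m
    rw [show r + m - m = r by omega] at h2
    rw [show r + (m + 1) - 1 = r + m by omega]
    exact_mod_cast h2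
  have e3 : ((p - r).choose (m + 1) : ℚ) / ((p : ℚ) - r)
      = ((p - r - 1).choose m : ℚ) * (((m : ℚ) + 1))⁻¹ := by
    field_simp
    linarith [e1]
  have e4 : ((r + (m + 1) - 1).choose (m + 1) : ℚ) / (r : ℚ)
      = ((r + m).choose m : ℚ) * (((m : ℚ) + 1))⁻¹ := by
    field_simp
    linarith [e2]
  have e5 : ((p - r).choose (m + 1) : ℚ) / ((p : ℚ) - r)
      - -((-1) ^ (m + 1) * ((r + (m + 1) - 1).choose (m + 1) : ℚ) / (r : ℚ))
      = (((((p - r - 1).choose m : ℕ) : ℤ) - (-1) ^ m * (((r + m).choose m : ℕ) : ℤ) : ℤ) : ℚ)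
        * ((((m + 1 : ℕ) : ℤ) : ℚ))⁻¹ := by
    rw [mul_div_assoc, e4, e3]
    push_cast
    ring
  rw [e5]
  have hnd : ¬ (p : ℤ) ∣ ((m + 1 : ℕ) : ℤ) := by
    intro h2
    have h3 : p ∣ m + 1 := by exact_mod_cast h2
    have := Nat.le_of_dvd (by omega) h3
    omega
  have h1' : (p : ℤ) ^ 1 ∣ (((p - r - 1).choose m : ℕ) : ℤ)
      - (-1) ^ m * (((r + m).choose m : ℕ) : ℤ) := by rw [pow_one]; exact h1
  have h6 := (val.of_dvd h1').mul (val.inv_of_not_dvd hnd)
  rw [add_zero] at h6
  exact h6

private theorem RelOneW_num_val {p : ℕ} (hp : p.Prime) (q : ℚ) (hqf : (p : ℤ) ∣ q.num) :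
    val p q 1 := by
  have : Fact p.Prime := ⟨hp⟩
  by_cases h0 : q = 0
  · exact Or.inl h0
  · have hden : ¬ (p : ℤ) ∣ (q.den : ℤ) := by
      intro h
      have h2 : p ∣ q.num.natAbs := Int.natCast_dvd.mp hqf
      have h3 : p ∣ q.den := by exact_mod_cast h
      have h4 := Nat.dvd_gcd h2 h3
      rw [q.reduced] at h4
      exact hp.one_lt.ne' (Nat.dvd_one.mp h4)
    have h5 : q = (q.num : ℚ) * (((q.den : ℤ) : ℚ))⁻¹ := by
      conv_lhs => rw [← Rat.num_div_den q]
      rw [div_eq_mul_inv]
      push_cast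
      rfl
    rw [h5]
    have h6 : val p (q.num : ℚ) ((1 : ℕ) : ℤ) := val.of_dvd (by rw [pow_one]; exact hqf)
    have h7 := h6.mul (val.inv_of_not_dvd hden)
    simpa using h7

private theorem RelOneW_tp_zero (Q : ℚ[X]) (k : ℕ) :
    PowerSeries.coeff k (tp Q 0) = Q.coeff k := by
  rw [coeff_tp]
  simp

private theorem RelOneW_ind {T p : ℕ} (hp : p.Prime) (R : ℤ → PowerSeries ℚ) (h0 : VT T p 1 (R 0))
    (hs : ∀ n, VT T p 1 (R n - R (n - 1))) (n : ℤ) : VT T p 1 (R n) := by
  have : Fact p.Prime := ⟨hp⟩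
  induction n using Int.induction_on with
  | zero => exact h0
  | succ i ih =>
    have h1 := hs ((i : ℤ) + 1)
    rw [add_sub_cancel_right] at h1
    have h2 := ih.add h1
    rwa [add_sub_cancel] at h2
  | pred i ih =>
    have h1 := hs (-(i : ℤ))
    have h2 := ih.sub h1
    rwa [sub_sub_cancel] at h2

private theorem RelOneW_step (P : Par) {p : ℕ} (hp : p.Prime) {r : ℕ} (hr : 1 ≤ r)
    (hpl : r + 1 + P.T ≤ p) (n : ℤ) :
    VT P.T p 1 (Gr P p r n - Gr P p r (n - 1)
      - PowerSeries.C (P.D : ℚ) * tp (X ^ (p - r - 1)) n) := by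
  have : Fact p.Prime := ⟨hp⟩
  have hD : val p (P.D : ℚ) 0 := val.nat _
  by_cases h : (p : ℤ) ∣ n
  · rw [Gr_step_dvd P p hr h, sub_self, zero_sub]
    exact ((VT.C hD).mul_left (VT_tp_pow_of_dvd (by omega) h)).neg
  · obtain ⟨g, hg, hgi⟩ := VS_inv (p := p) h
    have hst := Gr_step P p hr h
    have hx : tp (X ^ (p - r - 1)) n = g ^ (r + 1) * tp (X ^ p) n := by
      have e : p = (r + 1) + (p - r - 1) := by omega
      conv_rhs => rw [e]
      rw [tp_pow, tp_pow, pow_add (tp X n)]
      calc tp X n ^ (p - r - 1) = (tp X n * g) ^ (r + 1) * tp X n ^ (p - r - 1) := by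
            rw [hg, one_pow, one_mul]
        _ = g ^ (r + 1) * (tp X n ^ (r + 1) * tp X n ^ (p - r - 1)) := by
            rw [mul_pow]; ring
    have hd : Gr P p r n - Gr P p r (n - 1) = g ^ (r + 1) * PowerSeries.C ((P.D : ℚ) * n) := by
      rw [← hst, tp_pow]
      calc Gr P p r n - Gr P p r (n - 1)
          = (tp X n * g) ^ (r + 1) * (Gr P p r n - Gr P p r (n - 1)) := by
            rw [hg, one_pow, one_mul]
        _ = g ^ (r + 1) * (tp X n ^ (r + 1) * (Gr P p r n - Gr P p r (n - 1))) := by
            rw [mul_pow]; ring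
    have hg2 : VT P.T p 0 (g ^ (r + 1)) := by
      have : VT P.T p 0 g := fun k _ => hgi k
      simpa using this.pow (r + 1)
    have e : Gr P p r n - Gr P p r (n - 1) - PowerSeries.C (P.D : ℚ) * tp (X ^ (p - r - 1)) n
        = g ^ (r + 1) * (PowerSeries.C (P.D : ℚ) * (PowerSeries.C (n : ℚ) - tp (X ^ p) n)) := by
      rw [hd, hx, map_mul]
      ring
    rw [e]
    exact hg2.mul_left ((VT.C hD).mul_left (VT_z (by omega) n))

theorem relG (P : Par) (hP : P.Ok) {p : ℕ} (hp : p.Prime) (hpl : P.r0 + P.f + 2 * P.T + 2 ≤ p)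
    (hf : FlatW P p) {r : ℕ} (h1 : P.r0 ≤ r) (h2 : r < P.r0 + P.f) :
    ∃ S : ℚ[X], S.natDegree ≤ p ∧ (∀ j, val p (S.coeff j) 0) ∧
      ∀ n : ℤ, VT P.T p 1 (Gr P p r n - tp S n) := by
  have : Fact p.Prime := ⟨hp⟩
  have hr0 := hP.hr0
  have hr : 1 ≤ r := by omega
  have hT := hP.hT
  have hpodd : Odd p := hp.odd_of_ne_two (by omega)
  have hD : val p (P.D : ℚ) 0 := val.nat _
  obtain ⟨k, hk⟩ : ∃ k, k = p - r - 1 := ⟨_, rfl⟩
  have hk1 : k + 1 = p - r := by omega
  have hkq : (k : ℚ) + 1 = (p : ℚ) - r := by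
    have : ((k + 1 : ℕ) : ℚ) = ((p - r : ℕ) : ℚ) := by rw [hk1]
    rw [Nat.cast_sub (by omega)] at this
    push_cast at this
    exact this
  obtain ⟨e1, he1⟩ : ∃ e1 : ℚ, e1 = if r = P.r0 then (SS k).coeff 1 else 0 := ⟨_, rfl⟩
  have he1v : val p e1 0 := by
    rw [he1]
    split_ifs
    · exact SS_val hp (by omega) (by omega) 1
    · exact val.zero _
  have hY : ∀ j, val p ((Yp p).coeff j) 0 := by
    intro j
    rw [Yp, coeff_sub, coeff_X, coeff_X_pow]
    refine val.sub ?_ ?_
    · split_ifs
      · exact val.one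
      · exact val.zero _
    · split_ifs
      · exact val.one
      · exact val.zero _
  refine ⟨C (P.D : ℚ) * (SS k - C e1 * Yp p), ?_, ?_, ?_⟩
  · refine (natDegree_C_mul_le _ _).trans ((natDegree_sub_le _ _).trans (max_le ?_ ?_))
    · exact (SS_natDegree k).trans (by omega)
    · refine (natDegree_C_mul_le _ _).trans ?_
      rw [Yp]
      refine (natDegree_sub_le _ _).trans (max_le ?_ ?_)
      · rw [natDegree_X]; exact hp.one_le
      · rw [natDegree_X_pow]
  · intro j
    rw [coeff_C_mul, coeff_sub, coeff_C_mul]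
    have h3 := hD.mul ((SS_val hp (by omega : 1 ≤ k) (by omega) j).sub (he1v.int_mul 1 |>.mul (hY j)))
    simpa using h3
  · intro n
    have hmain : VT P.T p 1 (Gr P p r n - PowerSeries.C (P.D : ℚ) * tp (SS k) n
        + PowerSeries.C (P.D : ℚ) * (PowerSeries.C e1 * PowerSeries.X)) := by
      refine RelOneW_ind hp (fun n => Gr P p r n - PowerSeries.C (P.D : ℚ) * tp (SS k) n
        + PowerSeries.C (P.D : ℚ) * (PowerSeries.C e1 * PowerSeries.X)) ?_ ?_ n
      · intro j hj
        show val p (PowerSeries.coeff j (Gr P p r 0 - PowerSeries.C (P.D : ℚ) * tp (SS k) 0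
          + PowerSeries.C (P.D : ℚ) * (PowerSeries.C e1 * PowerSeries.X))) 1
        rw [map_add, map_sub, coeff_Gr_zero, PowerSeries.coeff_C_mul, RelOneW_tp_zero,
          PowerSeries.coeff_C_mul, PowerSeries.coeff_C_mul, PowerSeries.coeff_X]
        have hfac : (P.D : ℚ) * kap P r j - (P.D : ℚ) * (SS k).coeff j
            + (P.D : ℚ) * (e1 * (if j = 1 then 1 else 0))
            = (P.D : ℚ) * (kap P r j - (SS k).coeff j + e1 * (if j = 1 then 1 else 0)) := by ring
        rw [hfac]
        have hgoal : val p (kap P r j - (SS k).coeff j + e1 * (if j = 1 then 1 else 0)) 1 := by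
          rcases Nat.eq_zero_or_pos j with hj0 | hj0
          · subst hj0
            rw [SS_coeff_zero (by omega), kap, if_neg (by omega)]
            simpa using val.zero (p := p) 1
          · rcases Nat.even_or_odd (r + j) with hpar | hpar
            · -- even
              have hkz : kap P r j = 0 := by
                rw [kap, if_neg]
                rintro ⟨_, _, h3, _⟩
                obtain ⟨t, ht⟩ := hpar
                omega
              have hSz : (SS k).coeff j = 0 := by
                rw [SS_coeff hj0 (by omega), hk1,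
                  bernoulli_eq_zero_of_odd (show Odd (p - r - j) by
                    obtain ⟨t, ht⟩ := hpodd
                    obtain ⟨s, hs⟩ := hpar
                    exact ⟨t - s, by omega⟩) (by omega)]
                simp
              have hez : e1 * (if j = 1 then (1 : ℚ) else 0) = 0 := by
                by_cases hj1 : j = 1
                · rw [he1, if_neg, zero_mul]
                  intro h3
                  obtain ⟨t, ht⟩ := hpar
                  obtain ⟨s, hs⟩ := hP.hev
                  omega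
                · rw [if_neg hj1, mul_zero]
              rw [hkz, hSz, hez]
              simpa using val.zero (p := p) 1
            · rcases Nat.lt_or_ge (P.r0 + 1) (r + j) with hlt | hge
              · -- in the window
                have hez : e1 * (if j = 1 then (1 : ℚ) else 0) = 0 := by
                  by_cases hj1 : j = 1
                  · rw [he1, if_neg (by omega), zero_mul]
                  · rw [if_neg hj1, mul_zero]
                have hkz : kap P r j
                    = -((-1) ^ j * ((r + j - 1).choose j : ℚ) / (r : ℚ)) * P.c (r + j) := by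
                  rw [kap, if_pos]
                  refine ⟨hj0, hj, ?_, hlt⟩
                  obtain ⟨t, ht⟩ := hpar
                  omega
                have hB1 : val p (_root_.bernoulli (p - (r + j)) - P.c (r + j)) 1 :=
                  RelOneW_num_val hp _ (hf.2 (r + j) hpar hlt (by omega))
                have hB0 : val p (_root_.bernoulli (p - (r + j))) 0 :=
                  val_bern hp (by omega)
                have hch := choose_div_congr hp hr hj0 (show r + j < p by omega)
                have hrn : ¬ (p : ℤ) ∣ ((r : ℕ) : ℤ) := by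
                  intro h3
                  have h4 : p ∣ r := by exact_mod_cast h3
                  have := Nat.le_of_dvd (by omega) h4
                  omega
                have hk0 : val p (-((-1) ^ j * ((r + j - 1).choose j : ℚ) / (r : ℚ))) 0 := by
                  have h3 := ((val.int (p := p) ((-1) ^ j * (((r + j - 1).choose j : ℕ) : ℤ))).mul
                    (val.inv_of_not_dvd hrn)).neg
                  rw [zero_add] at h3
                  rw [div_eq_mul_inv]
                  push_cast at h3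
                  exact h3
                rw [hez, add_zero, hkz, SS_coeff hj0 (by omega), hk1, hkq, Nat.sub_sub]
                have e : -((-1) ^ j * ((r + j - 1).choose j : ℚ) / (r : ℚ)) * P.c (r + j)
                    - ((p - r).choose j : ℚ) * _root_.bernoulli (p - (r + j)) / ((p : ℚ) - r)
                    = -(-((-1) ^ j * ((r + j - 1).choose j : ℚ) / (r : ℚ))
                        * (_root_.bernoulli (p - (r + j)) - P.c (r + j)))
                      - (((p - r).choose j : ℚ) / ((p : ℚ) - r)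
                        - -((-1) ^ j * ((r + j - 1).choose j : ℚ) / (r : ℚ)))
                        * _root_.bernoulli (p - (r + j)) := by
                  ring
                rw [e]
                have h5 := (hk0.mul hB1).neg
                rw [zero_add] at h5
                have h6 := hch.mul hB0
                rw [add_zero] at h6
                exact h5.sub h6
              · -- the first coefficient
                have hrr : r = P.r0 := by omega
                have hj1 : j = 1 := by omega
                have hkz : kap P r j = 0 := by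
                  rw [kap, if_neg]
                  rintro ⟨_, _, _, h3⟩
                  omega
                rw [hkz, he1, if_pos hrr, hj1]
                simpa using val.zero (p := p) 1
        have h3 := hD.mul hgoal
        simpa using h3
      · intro m
        have hst := SS_step (k := k) (by omega) m
        have h3 := RelOneW_step P hp hr (by omega) m
        rw [← hk] at h3
        refine h3.congr ?_
        show _ = (Gr P p r m - PowerSeries.C (P.D : ℚ) * tp (SS k) m
          + PowerSeries.C (P.D : ℚ) * (PowerSeries.C e1 * PowerSeries.X))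
          - (Gr P p r (m - 1) - PowerSeries.C (P.D : ℚ) * tp (SS k) (m - 1)
          + PowerSeries.C (P.D : ℚ) * (PowerSeries.C e1 * PowerSeries.X))
        rw [hst]
        ring
    have hYp := (VT.C (T := P.T) hD).mul_left ((VT.C (T := P.T) he1v).mul_left
      (VT_Yp (T := P.T) (p := p) (by omega) n))
    refine (hmain.sub hYp).congr ?_
    rw [tp_mul, tp_sub, tp_mul, tp_C, tp_C]
    ring

theorem exists_relW (P : Par) (hP : P.Ok) {p : ℕ} (hp : p.Prime)
    (hpl : P.r0 + P.f + 2 * P.T + 2 ≤ p) (hf : FlatW P p) :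
    ∃ S : Option (Fin P.f) → ℚ[X], RelW P p S := by
  have : Fact p.Prime := ⟨hp⟩
  have h : ∀ i : Fin P.f, ∃ S : ℚ[X], S.natDegree ≤ p ∧ (∀ j, val p (S.coeff j) 0) ∧
      ∀ n : ℤ, VT P.T p 1 (Gr P p (P.r0 + i) n - tp S n) := fun i =>
    relG P hP hp hpl hf (by omega) (by have := i.2; omega)
  choose S hS using h
  refine ⟨fun s => match s with
    | none => Yp p
    | some i => S i, ?_⟩
  intro s
  rcases s with _ | i
  · refine ⟨?_, ?_, ?_⟩
    · show (Yp p).natDegree ≤ p
      rw [Yp]
      refine (natDegree_sub_le _ _).trans (max_le ?_ ?_)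
      · rw [natDegree_X]; exact hp.one_le
      · rw [natDegree_X_pow]
    · intro j
      show val p ((Yp p).coeff j) 0
      rw [Yp, coeff_sub, coeff_X, coeff_X_pow]
      refine val.sub ?_ ?_
      · split_ifs
        · exact val.one
        · exact val.zero _
      · split_ifs
        · exact val.one
        · exact val.zero _
    · intro n
      exact VT_Yp (by omega) n
  · exact hS i

end MP_a3a416_nt.WIN
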