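import Pool.Agent.Lib.MP_a3a416_nt.WIN.RowsW
import Pool.Agent.Lib.MP_a3a416_nt.WIN.GenBoundW
import Pool.Agent.Lib.MP_a3a416_nt.WIN.MidBoundW
import Pool.Agent.Lib.MP_a3a416_nt.WIN.FlatRankW
import Pool.Agent.Lib.MP_a3a416_nt.WIN.RelOneW
import Pool.Agent.Lib.MP_a3a416_nt.WIN.ArchW
import Pool.Agent.Lib.MP_a3a416_nt.WIN.FDefsW

/-! # WIN-DetW: the determinant
PROOF. Adapt `exists_det` in `SJ5/Main.lean`.  `h = f + 3`, `N = NW = 2 h m`, `K = KW`, `A = AW`, `c0 = c0W`.  For `m` large: `8Tm ≥ c1`, `KW = 8Tm - c1`, `A ≤ K`, `N ≤ K`, `A + N ≤ K` (`c1 ≤ (4T - 2h) m`), `h m ≥ r0 + f + 2T + 2`.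
`exists_rowsW`: `K + (f+1) A + c0 = 8Tm - c1 + 4T(f+1)m + T + c1 = 4Thm + T = T (2N+1)`.
`arch`: `exists_archW P hP (8 T)` (`K ≤ 8 T m ≤ 8 T N`); `N/2 = h m`, `K ≤ 8Tm`, so the main term is `≤ ((8Tm)^2/2 + (f+1)(4Tm)^2/2) log (h m) = UBW` (`log ≥ 0`); `B N log N ≤ B' m log m` (`log (2h) ≤ 2h log m` for `m ≥ 3`, say).
`gen`: `val_genW` (`Nat.cast_sum`).  `mid`, `big`: `val_midW` (`N < 2p`), `nO N p = 2(N-p)+1` if `p ≤ N`, `0` otherwise (see how `SJ5/Main.lean` unfolds `nO`).  `midF`: `val_mid_flatW`, `exists_relW`.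
`bigF`: `val_flatrankW`: `K + (f+1)A - max K (A+p) = min ((f+1)A) (K + fA - p)`, and `big`. -/

set_option autoImplicit false

open Polynomial Finset Filter MP_a3a416_nt.SJ

namespace MP_a3a416_nt.WIN

/-- what the algebraic and archimedean parts prove about the determinant `D` -/
structure DetW (P : Par) (B : ℝ) (m : ℕ) (D : ℚ) : Prop where
  ne : D ≠ 0
  arch : Real.log |(D : ℝ)| ≤ UBW P.f P.T m + B * m * Real.log m
  gen : ∀ p : ℕ, p.Prime → f1W P.r0 P.f P.T m p ≤ padicValRat p D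
  mid : ∀ p : ℕ, p.Prime → (P.f + 3) * m < p → p ≤ NW P.f m →
    g2W P.r0 P.f P.T m p ≤ padicValRat p D
  midF : ∀ p : ℕ, p.Prime → (P.f + 3) * m < p → p ≤ NW P.f m → FlatW P p →
    f2W P.r0 P.f P.T m p ≤ padicValRat p D
  big : ∀ p : ℕ, p.Prime → NW P.f m < p → 0 ≤ padicValRat p D
  bigF : ∀ p : ℕ, p.Prime → NW P.f m < p → FlatW P p →
    f3W P.r0 P.f P.T m p ≤ padicValRat p D

private theorem detW_le_of {p : ℕ} {x : ℚ} {a : ℤ} (h : val p x a) (hx : x ≠ 0) :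
    a ≤ padicValRat p x := h.resolve_left hx

/-- the archimedean estimate in terms of `m` -/
private theorem detW_arch (r0 f T : ℕ) {B : ℝ} (hB : 0 ≤ B) {m : ℕ} (hm : 3 ≤ m) :
    (((KW r0 f T m : ℕ) : ℝ) ^ 2 / 2 + (f + 1) * (((AW T m : ℕ) : ℝ) ^ 2 / 2)) *
        Real.log (((NW f m : ℕ) : ℝ) / 2) + B * ((NW f m : ℕ) : ℝ) * Real.log ((NW f m : ℕ) : ℝ) ≤
      UBW f T m + (B * (2 * (f + 3)) * (Real.log (2 * (f + 3)) + 1)) * m * Real.log m := by
  have hmr : (3 : ℝ) ≤ m := by exact_mod_cast hm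
  have hf0 : (0 : ℝ) ≤ f := Nat.cast_nonneg f
  have hN : ((NW f m : ℕ) : ℝ) = 2 * (f + 3) * m := by unfold NW; push_cast; ring
  have hN2 : ((NW f m : ℕ) : ℝ) / 2 = (f + 3) * m := by rw [hN]; ring
  have hK : ((KW r0 f T m : ℕ) : ℝ) ≤ 8 * T * m := by
    have : KW r0 f T m ≤ 8 * T * m := Nat.sub_le _ _
    exact_mod_cast this
  have hK0 : (0 : ℝ) ≤ ((KW r0 f T m : ℕ) : ℝ) := Nat.cast_nonneg _
  have hA : ((AW T m : ℕ) : ℝ) = 4 * T * m := by unfold AW; push_cast; ring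
  have hl0 : 0 ≤ Real.log ((f + 3) * m) := Real.log_nonneg (by nlinarith)
  have hK2 : ((KW r0 f T m : ℕ) : ℝ) ^ 2 ≤ (8 * T * m) ^ 2 := pow_le_pow_left₀ hK0 hK 2
  have h1 : (((KW r0 f T m : ℕ) : ℝ) ^ 2 / 2 + (f + 1) * (((AW T m : ℕ) : ℝ) ^ 2 / 2)) *
      Real.log (((NW f m : ℕ) : ℝ) / 2) ≤ UBW f T m := by
    rw [hN2, hA]
    unfold UBW
    refine mul_le_mul_of_nonneg_right ?_ hl0
    nlinarith
  have hlm : 1 ≤ Real.log m := by
    rw [Real.le_log_iff_exp_le (by linarith)]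
    have := Real.exp_one_lt_d9
    linarith
  have hlc : 0 ≤ Real.log (2 * ((f : ℝ) + 3)) := Real.log_nonneg (by linarith)
  have h2 : Real.log ((NW f m : ℕ) : ℝ) ≤ (Real.log (2 * (f + 3)) + 1) * Real.log m := by
    rw [hN, Real.log_mul (by positivity) (by positivity)]
    nlinarith
  have h3 : B * ((NW f m : ℕ) : ℝ) * Real.log ((NW f m : ℕ) : ℝ) ≤
      B * ((NW f m : ℕ) : ℝ) * ((Real.log (2 * (f + 3)) + 1) * Real.log m) :=
    mul_le_mul_of_nonneg_left h2 (mul_nonneg hB (Nat.cast_nonneg _))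
  have h4 : B * ((NW f m : ℕ) : ℝ) * ((Real.log (2 * (f + 3)) + 1) * Real.log m) =
      (B * (2 * (f + 3)) * (Real.log (2 * (f + 3)) + 1)) * m * Real.log m := by
    rw [hN]; ring
  linarith

theorem exists_detW (P : Par) (hP : P.Ok) :
    ∃ B : ℝ, ∀ᶠ m : ℕ in atTop, ∃ D : ℚ, DetW P B m D := by
  obtain ⟨B0, hB0, harch⟩ := exists_archW P hP (8 * P.T)
  refine ⟨B0 * (2 * (P.f + 3)) * (Real.log (2 * (P.f + 3)) + 1), ?_⟩
  have hT := hP.hT
  filter_upwards [eventually_ge_atTop (c1W P.r0 P.f P.T + 3 + (P.r0 + P.f + 2 * P.T + 2))] with m hm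
  -- sizes
  set c1 := c1W P.r0 P.f P.T with hc1
  have hm3 : 3 ≤ m := by omega
  have hc1m : c1 ≤ m := by omega
  have hlm : P.r0 + P.f + 2 * P.T + 2 ≤ m := by omega
  have hTm : (P.f + 3) * m ≤ P.T * m := Nat.mul_le_mul_right m hT
  have hfm : 3 * m ≤ (P.f + 3) * m := Nat.mul_le_mul_right m (by omega)
  have hN : NW P.f m = 2 * ((P.f + 3) * m) := by unfold NW; ring
  have hA : AW P.T m = 4 * (P.T * m) := by unfold AW; ring
  have hK : KW P.r0 P.f P.T m = 8 * (P.T * m) - c1 := by unfold KW; rw [← hc1, mul_assoc]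
  have hAK : AW P.T m ≤ KW P.r0 P.f P.T m := by omega
  have hANK : AW P.T m + NW P.f m ≤ KW P.r0 P.f P.T m := by omega
  have hKc : KW P.r0 P.f P.T m + c1 = 8 * (P.T * m) := by omega
  have hR : KW P.r0 P.f P.T m + (P.f + 1) * AW P.T m + c0W P.r0 P.f P.T =
      P.T * (2 * NW P.f m + 1) := by
    have h1 : c0W P.r0 P.f P.T = P.T + c1 := rfl
    rw [h1, hA, hN]
    have h2 : KW P.r0 P.f P.T m + (P.f + 1) * (4 * (P.T * m)) + (P.T + c1) =
        (KW P.r0 P.f P.T m + c1) + (P.f + 1) * (4 * (P.T * m)) + P.T := by ring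
    rw [h2, hKc]
    ring
  have hC : 2 * (KW P.r0 P.f P.T m + (P.f + 1) * AW P.T m) +
      (P.r0 + P.f) * ((P.f + 1) * (P.f + 2)) + 2 * (P.T * (P.f + 1)) ≤
      2 * (P.T * (2 * NW P.f m + 1)) := by
    rw [← hR]
    have h1 : c0W P.r0 P.f P.T = P.T + (P.T * (P.f + 1) + (P.r0 + P.f) * ((P.f + 1) * (P.f + 2))) :=
      rfl
    rw [h1]
    omega
  obtain ⟨rr, e, hD⟩ := exists_rowsW P hP (N := NW P.f m) (K := KW P.r0 P.f P.T m)
    (A := AW P.T m) (c0 := c0W P.r0 P.f P.T) hR (by omega) hAK hC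
  set D := sdet e (VhT P (KW P.r0 P.f P.T m) (AW P.T m) rr) with hDdef
  have hbig : ∀ p : ℕ, p.Prime → NW P.f m < p → 0 ≤ padicValRat p D := by
    intro p hp h1
    have h := detW_le_of (val_midW P hP rr e hp (by omega)) hD
    unfold SJ5.nO at h
    rw [if_neg (by omega), mul_zero, neg_zero] at h
    exact h
  refine ⟨D, hD, ?_, ?_, ?_, ?_, hbig, ?_⟩
  · -- arch
    have h := harch (NW P.f m) (KW P.r0 P.f P.T m) (AW P.T m) (c0W P.r0 P.f P.T) rr e
      (by omega) hAK (by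
        rw [hN]
        have h1 : P.T * m ≤ P.T * (2 * ((P.f + 3) * m)) := Nat.mul_le_mul_left _ (by omega)
        have h2 : 8 * P.T * (2 * ((P.f + 3) * m)) = 8 * (P.T * (2 * ((P.f + 3) * m))) := by ring
        omega) hD
    exact h.trans (detW_arch P.r0 P.f P.T hB0 hm3)
  · -- gen
    intro p hp
    have h := detW_le_of (val_genW P hP rr e hp (by omega) (by omega) hAK) hD
    refine le_trans (le_of_eq ?_) h
    unfold f1W SF srW ttW
    push_cast
    ring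
  · -- mid
    intro p hp h1 h2
    have h := detW_le_of (val_midW P hP rr e hp (by omega)) hD
    refine le_trans (le_of_eq ?_) h
    unfold g2W SJ5.nO Par.E
    rw [if_pos h2]
    push_cast
    ring
  · -- midF
    intro p hp h1 h2 hf
    obtain ⟨S, hS⟩ := exists_relW P hP hp (by omega) hf
    have h := detW_le_of (val_mid_flatW P hP rr e hp (by omega) (by omega) hS) hD
    refine le_trans (le_of_eq ?_) h
    unfold f2W g2W SJ5.nO Par.E
    rw [if_pos h2]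
    push_cast
    ring
  · -- bigF
    intro p hp h1 hf
    obtain ⟨S, hS⟩ := exists_relW P hP hp (by omega) hf
    have h := detW_le_of (val_flatrankW P rr e hp h1 hS) hD
    unfold f3W
    refine max_le (hbig p hp h1) (le_trans ?_ h)
    rw [Nat.cast_max]
    rcases le_total ((KW P.r0 P.f P.T m : ℕ) : ℤ) ((AW P.T m + p : ℕ) : ℤ) with h3 | h3
    · rw [max_eq_right h3]
      refine (min_le_right _ _).trans (le_of_eq ?_)
      push_cast
      ring
    · rw [max_eq_left h3]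
      refine (min_le_left _ _).trans (le_of_eq ?_)
      ring

end MP_a3a416_nt.WIN
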