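import Pool.Agent.Lib.MP_a3a416_nt.WIN.FDefsW

/-! # WIN-LBsW: the non-flat primes -/

set_option autoImplicit false

namespace MP_a3a416_nt.WIN

open Finset MP_a3a416_nt.SJ

private theorem LBsW_f3 (r0 f T m p : ℕ) : f3W r0 f T m p ≤ (f + 1) * (AW T m : ℤ) := by
  unfold f3W
  refine max_le (by positivity) (min_le_left _ _)

theorem LBs_geW (r0 f T m : ℕ) (hT : 1 ≤ T) (flat : ℕ → Prop) [DecidablePred flat] :
    LB0W r0 f T m - 4 * T * (f + 1) * m * ThW f T m flat ≤ LBsW r0 f T m flat := by
  have h1 : (f + 3) * m ≤ NW f m := by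
    unfold NW
    nlinarith [Nat.zero_le (f * m), Nat.zero_le m]
  have h2 : NW f m ≤ XW f T m := by
    unfold NW XW
    have : (8 + 4 * f) * m ≤ (8 + 4 * f) * T * m := by
      have := Nat.mul_le_mul_left ((8 + 4 * f) * m) hT
      nlinarith
    nlinarith [Nat.zero_le (f * m), Nat.zero_le m]
  have hAW : (AW T m : ℝ) = 4 * T * m := by
    unfold AW
    push_cast
    ring
  have hsplit : ThW f T m flat =
      ∑ p ∈ prs ((f + 3) * m) (NW f m), (if flat p then 0 else Real.log p) +
      ∑ p ∈ prs (NW f m) (XW f T m), (if flat p then 0 else Real.log p) := by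
    unfold ThW
    rw [Finset.sum_filter]
    have hd : Disjoint (prs ((f + 3) * m) (NW f m)) (prs (NW f m) (XW f T m)) := by
      rw [Finset.disjoint_left]
      intro p h1 h2
      simp only [prs, mem_filter, mem_Ioc] at h1 h2
      omega
    have hu : prs ((f + 3) * m) (XW f T m) =
        prs ((f + 3) * m) (NW f m) ∪ prs (NW f m) (XW f T m) := by
      ext p
      simp only [prs, mem_union, mem_filter, mem_Ioc]
      constructor
      · rintro ⟨⟨h1, h2⟩, h3⟩
        by_cases h : p ≤ NW f m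
        · exact Or.inl ⟨⟨h1, h⟩, h3⟩
        · exact Or.inr ⟨⟨by omega, h2⟩, h3⟩
      · rintro (⟨⟨h1, h2⟩, h3⟩ | ⟨⟨h1, h2⟩, h3⟩)
        · exact ⟨⟨h1, by omega⟩, h3⟩
        · exact ⟨⟨by omega, h2⟩, h3⟩
    rw [hu, Finset.sum_union hd]
    congr 1 <;> refine Finset.sum_congr rfl fun p _ => ?_ <;> by_cases h : flat p <;> simp [h]
  have hA : ∑ p ∈ prs ((f + 3) * m) (NW f m), (f2W r0 f T m p : ℝ) * Real.log p -
      4 * T * (f + 1) * m * ∑ p ∈ prs ((f + 3) * m) (NW f m), (if flat p then 0 else Real.log p) ≤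
      ∑ p ∈ prs ((f + 3) * m) (NW f m),
        ((if flat p then f2W r0 f T m p else g2W r0 f T m p : ℤ) : ℝ) * Real.log p := by
    rw [Finset.mul_sum, ← Finset.sum_sub_distrib]
    refine Finset.sum_le_sum fun p _ => ?_
    by_cases h : flat p
    · simp [h]
    · simp only [h, if_false]
      have e1 : (f2W r0 f T m p : ℝ) = (f + 1) * (4 * T * m) + g2W r0 f T m p := by
        unfold f2W
        push_cast
        rw [hAW]
      rw [e1]
      exact le_of_eq (by ring)
  have hB : ∑ p ∈ prs (NW f m) (XW f T m), (f3W r0 f T m p : ℝ) * Real.log p -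
      4 * T * (f + 1) * m * ∑ p ∈ prs (NW f m) (XW f T m), (if flat p then 0 else Real.log p) ≤
      ∑ p ∈ prs (NW f m) (XW f T m),
        ((if flat p then f3W r0 f T m p else 0 : ℤ) : ℝ) * Real.log p := by
    rw [Finset.mul_sum, ← Finset.sum_sub_distrib]
    refine Finset.sum_le_sum fun p _ => ?_
    have hlog : 0 ≤ Real.log p := Real.log_natCast_nonneg p
    by_cases h : flat p
    · simp [h]
    · simp only [h, if_false]
      have e3 : (f3W r0 f T m p : ℝ) ≤ (f + 1) * (4 * T * m) := by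
        rw [← hAW]
        exact_mod_cast LBsW_f3 r0 f T m p
      have e4 := mul_le_mul_of_nonneg_right e3 hlog
      push_cast
      linarith
  unfold LB0W LBsW
  rw [hsplit, mul_add]
  linarith

end MP_a3a416_nt.WIN
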