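import Pool.Agent.Lib.MP_a3a416_nt.WIN.FDefsW
import Pool.Agent.Lib.MP_a3a416_nt.SJ.FPS

/-! # WIN-LogSumW: the logarithmic terms for `p ≤ h m`, `h = f + 3`
PROOF. Adapt `SJ5/FLog.lean` (`log_part`, `Lterm`).  `Lg = Nat.log p KW`, `L' = Nat.log p NW`, `S = ∑_{p ≤ h m} log p`.  For `m` large `NW ≤ KW` (`T ≥ f + 3`: `8 T m - c1 ≥ 2 (f+3) m`), so `L' ≤ Lg`, and
`Lg ≥ 1` for `p ≤ h m ≤ KW`.  `∑ Lg log p ≤ S + sqrt (8 T m) log (8 T m)` (`log_part`).  So the sum is at least
`AW S - (srW AW + ttW (2 NW + 1)) (S + sqrt (8Tm) log (8Tm))`; `AW = 4 T m`, `NW = 2 h m`.  `prsum_asy` with `α = 0 or constant`: `∑_{p ≤ h m} (α m) log p` is `α h m^2 + o(m^2)` (`⌊h m⌋₊ = h m`, `a = 0`);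
`m * (S)` and `m sqrt m log m = o(m^2)`, `S = O(m)`.  Constant: `h (4T - 4T srW - 4 h ttW)`. -/

set_option autoImplicit false

namespace MP_a3a416_nt.WIN

open Finset Filter MP_a3a416_nt.SJ

private lemma logSumW_part (K X c : ℕ) (hc : 1 ≤ c) (hK : K ≤ c) :
    ∑ p ∈ prs 0 X, (Nat.log p K : ℝ) * Real.log p ≤
      ∑ p ∈ prs 0 X, Real.log p + Real.sqrt c * Real.log c := by
  classical
  have hcR : (1 : ℝ) ≤ c := by exact_mod_cast hc
  have hlogc : 0 ≤ Real.log c := Real.log_nonneg hcR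
  have hterm : ∀ p ∈ prs 0 X, (Nat.log p K : ℝ) * Real.log p ≤
      Real.log p + if p ^ 2 ≤ K then Real.log c else 0 := by
    intro p hp
    rw [prs, mem_filter, mem_Ioc] at hp
    have hp1 : 1 < p := hp.2.one_lt
    have hp0 : (0 : ℝ) ≤ Real.log p := Real.log_natCast_nonneg p
    split_ifs with h
    · have hK0 : K ≠ 0 := by
        have : 0 < p ^ 2 := by positivity
        omega
      have h2 : p ^ Nat.log p K ≤ K := Nat.pow_log_le_self p hK0
      have h3 : ((p : ℝ)) ^ Nat.log p K ≤ c := by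
        exact_mod_cast h2.trans hK
      have h4 := Real.log_le_log (by positivity) h3
      rw [Real.log_pow] at h4
      linarith
    · have h2 : Nat.log p K < 2 := by
        by_contra hcon
        push Not at hcon
        rcases Nat.eq_zero_or_pos K with hK0 | hK0
        · rw [hK0] at hcon
          simp at hcon
        · exact h ((Nat.pow_le_pow_right (by omega) hcon).trans
            (Nat.pow_log_le_self p (by omega)))
      have h3 : (Nat.log p K : ℝ) ≤ 1 := by exact_mod_cast (by omega : Nat.log p K ≤ 1)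
      nlinarith
  refine (Finset.sum_le_sum hterm).trans ?_
  rw [Finset.sum_add_distrib]
  refine add_le_add le_rfl ?_
  rw [← Finset.sum_filter, Finset.sum_const, nsmul_eq_mul]
  refine mul_le_mul_of_nonneg_right ?_ hlogc
  have hcard : ((prs 0 X).filter fun p => p ^ 2 ≤ K).card ≤ Nat.sqrt K := by
    calc ((prs 0 X).filter fun p => p ^ 2 ≤ K).card ≤ (Icc 1 (Nat.sqrt K)).card := by
          refine Finset.card_le_card ?_
          intro p hp
          rw [mem_filter, prs, mem_filter, mem_Ioc] at hp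
          rw [mem_Icc]
          exact ⟨by omega, Nat.le_sqrt'.2 hp.2⟩
      _ = Nat.sqrt K := by simp
  calc (((prs 0 X).filter fun p => p ^ 2 ≤ K).card : ℝ) ≤ (Nat.sqrt K : ℝ) := by
        exact_mod_cast hcard
    _ ≤ Real.sqrt (K : ℝ) := Real.nat_sqrt_le_real_sqrt
    _ ≤ Real.sqrt c := by
        apply Real.sqrt_le_sqrt
        exact_mod_cast hK

open Asymptotics in
private lemma logSumW_err (a b c : ℝ) (hc : 0 < c) :
    (fun m : ℕ => (a * (m : ℝ) + b) * (Real.sqrt (c * m) * Real.log (c * m))) =o[atTop]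
      (fun m : ℕ => (m : ℝ) ^ 2) := by
  have h1 : (fun x : ℝ => (a * x + b) * (Real.sqrt (c * x) * Real.log (c * x))) =o[atTop]
      (fun x : ℝ => x ^ 2) := by
    have h2 : (fun x : ℝ => Real.log x) =o[atTop] (fun x : ℝ => Real.sqrt x) := by
      have := isLittleO_log_rpow_atTop (show (0 : ℝ) < 1 / 2 by norm_num)
      simpa [Real.sqrt_eq_rpow] using this
    have h200 : Tendsto (fun x : ℝ => c * x) atTop atTop :=
      tendsto_id.const_mul_atTop hc
    have h3 : (fun x : ℝ => Real.log (c * x)) =o[atTop] (fun x : ℝ => Real.sqrt (c * x)) :=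
      h2.comp_tendsto h200
    have h4 : (fun x : ℝ => a * x + b) =O[atTop] (fun x : ℝ => x) := by
      apply IsBigO.of_bound (|a| + |b|)
      filter_upwards [eventually_ge_atTop (1 : ℝ)] with x hx
      rw [Real.norm_eq_abs, Real.norm_eq_abs, abs_of_nonneg (show (0 : ℝ) ≤ x by linarith)]
      calc |a * x + b| ≤ |a * x| + |b| := abs_add_le _ _
        _ = |a| * x + |b| := by rw [abs_mul, abs_of_nonneg (show (0 : ℝ) ≤ x by linarith)]
        _ ≤ |a| * x + |b| * x := by nlinarith [abs_nonneg b]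
        _ = (|a| + |b|) * x := by ring
    have h5 : (fun x : ℝ => Real.sqrt (c * x) * Real.log (c * x)) =o[atTop]
        (fun x : ℝ => Real.sqrt (c * x) * Real.sqrt (c * x)) :=
      (isBigO_refl _ atTop).mul_isLittleO h3
    have h6 : (fun x : ℝ => Real.sqrt (c * x) * Real.sqrt (c * x)) =O[atTop]
        (fun x : ℝ => x) := by
      apply IsBigO.of_bound c
      filter_upwards [eventually_ge_atTop (1 : ℝ)] with x hx
      have hcx : 0 ≤ c * x := by positivity
      rw [Real.mul_self_sqrt hcx, Real.norm_eq_abs, Real.norm_eq_abs,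
        abs_of_nonneg hcx, abs_of_nonneg (by linarith)]
    have h7 := h4.mul_isLittleO (h5.trans_isBigO h6)
    refine h7.congr_right fun x => ?_
    ring
  exact h1.comp_tendsto tendsto_natCast_atTop_atTop

/-- the sum of `log p` is `o(m^2)` -/
private lemma logSumW_S (h : ℕ) (b : ℝ) :
    (fun m : ℕ => b * ∑ p ∈ prs 0 (h * m), Real.log p) =o[atTop]
      (fun m : ℕ => (m : ℝ) ^ 2) := by
  rw [Asymptotics.isLittleO_iff_tendsto']
  swap
  · filter_upwards [eventually_gt_atTop 0] with m hm h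
    have hm' : (0 : ℝ) < m := by exact_mod_cast hm
    exact absurd h (by positivity)
  have h1 := prsum_asy 1 0 0 h le_rfl (Nat.cast_nonneg h)
  unfold Asy at h1
  rw [Asymptotics.isLittleO_iff_tendsto'] at h1
  swap
  · filter_upwards [eventually_gt_atTop 0] with m hm h
    have hm' : (0 : ℝ) < m := by exact_mod_cast hm
    exact absurd h (by positivity)
  have h2 := ((h1.add_const (h : ℝ)).const_mul b).mul
    (tendsto_inv_atTop_nhds_zero_nat (𝕜 := ℝ))
  rw [mul_zero] at h2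
  refine h2.congr' ?_
  filter_upwards [eventually_gt_atTop 0] with m hm
  have hm' : (0 : ℝ) < m := by exact_mod_cast hm
  have hfl : ⌊(h : ℝ) * m⌋₊ = h * m := by
    rw [← Nat.cast_mul, Nat.floor_natCast]
  have hfl0 : ⌊(0 : ℝ) * m⌋₊ = 0 := by simp
  rw [hfl, hfl0]
  have hs : ∑ p ∈ prs 0 (h * m), (1 * (m : ℝ) + 0 * p) * Real.log p =
      m * ∑ p ∈ prs 0 (h * m), Real.log p := by
    rw [Finset.mul_sum]
    exact Finset.sum_congr rfl fun p _ => by ring
  rw [hs]
  field_simp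
  ring

theorem logSumW (r0 f T : ℕ) (hT : f + 3 ≤ T) :
    ∃ g : ℕ → ℝ, Asy g 0 (((f : ℝ) + 3) * (4 * T - 4 * T * srW r0 f - 4 * (f + 3) * ttW T)) ∧
      ∀ᶠ m : ℕ in atTop, g m ≤ ∑ p ∈ prs 0 ((f + 3) * m),
        ((f1W r0 f T m p - SF p (KW r0 f T m) - (f + 1) * SF p (AW T m) : ℤ) : ℝ) * Real.log p := by
  have hT0 : 0 < T := by omega
  have hTR : (0 : ℝ) < T := by exact_mod_cast hT0
  refine ⟨fun m => ∑ p ∈ prs ⌊(0 : ℝ) * m⌋₊ ⌊((f + 3 : ℕ) : ℝ) * m⌋₊,
      ((4 * (T : ℝ) - 4 * T * srW r0 f - 4 * (f + 3) * ttW T) * m + 0 * p) * Real.log p -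
      (ttW T : ℝ) * ∑ p ∈ prs 0 ((f + 3) * m), Real.log p -
      ((4 * T * srW r0 f + 4 * (f + 3) * ttW T) * (m : ℝ) + ttW T) *
        (Real.sqrt ((8 * T : ℝ) * m) * Real.log ((8 * T : ℝ) * m)), ?_, ?_⟩
  · have h1 := prsum_asy (4 * (T : ℝ) - 4 * T * srW r0 f - 4 * (f + 3) * ttW T) 0 0
      ((f + 3 : ℕ) : ℝ) le_rfl (Nat.cast_nonneg _)
    have h2 := Asy.of_isLittleO (logSumW_S (f + 3) (ttW T : ℝ))
    have h3 := Asy.of_isLittleO (logSumW_err (4 * T * srW r0 f + 4 * (f + 3) * ttW T)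
      (ttW T : ℝ) (8 * T : ℝ) (by positivity))
    refine ((h1.sub h2).sub h3).cast (by ring) ?_
    push_cast
    ring
  · -- the inequality
    filter_upwards [eventually_ge_atTop (c1W r0 f T + 1)] with m hm
    have hm1 : 1 ≤ m := by omega
    have hmR : (1 : ℝ) ≤ m := by exact_mod_cast hm1
    have hTm : (f + 3) * m ≤ T * m := Nat.mul_le_mul_right m hT
    have hTm2 : m ≤ T * m := Nat.le_mul_of_pos_left m hT0
    have hK1 : NW f m ≤ KW r0 f T m := by
      have e1 : NW f m = 2 * ((f + 3) * m) := by unfold NW; ring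
      have e2 : KW r0 f T m = 8 * (T * m) - c1W r0 f T := by unfold KW; ring_nf
      rw [e1, e2]
      omega
    have hK2 : (f + 3) * m ≤ KW r0 f T m := by
      have e1 : NW f m = 2 * ((f + 3) * m) := by unfold NW; ring
      omega
    have hK3 : KW r0 f T m ≤ 8 * T * m := by unfold KW; exact Nat.sub_le _ _
    have hpart := logSumW_part (KW r0 f T m) ((f + 3) * m) (8 * T * m)
      (by have : 1 ≤ T * m := Nat.mul_pos hT0 hm1
          rw [mul_assoc]; omega) hK3
    have hc8 : ((8 * T * m : ℕ) : ℝ) = 8 * T * m := by push_cast; ring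
    rw [hc8] at hpart
    have hfl : ⌊((f + 3 : ℕ) : ℝ) * m⌋₊ = (f + 3) * m := by
      rw [← Nat.cast_mul, Nat.floor_natCast]
    have hfl0 : ⌊(0 : ℝ) * m⌋₊ = 0 := by simp
    have hs : ∑ p ∈ prs ⌊(0 : ℝ) * m⌋₊ ⌊((f + 3 : ℕ) : ℝ) * m⌋₊,
        ((4 * (T : ℝ) - 4 * T * srW r0 f - 4 * (f + 3) * ttW T) * m + 0 * p) * Real.log p =
        (4 * (T : ℝ) - 4 * T * srW r0 f - 4 * (f + 3) * ttW T) * m *
          ∑ p ∈ prs 0 ((f + 3) * m), Real.log p := by
      rw [hfl, hfl0, Finset.mul_sum]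
      exact Finset.sum_congr rfl fun p _ => by ring
    have hAW : ((AW T m : ℕ) : ℝ) = 4 * T * m := by unfold AW; push_cast; ring
    have hNW : ((NW f m : ℕ) : ℝ) = 2 * (f + 3) * m := by unfold NW; push_cast; ring
    have hterm : ∀ p ∈ prs 0 ((f + 3) * m),
        4 * (T : ℝ) * m * Real.log p - (4 * T * m * srW r0 f + (4 * (f + 3) * m + 1) * ttW T) *
          ((Nat.log p (KW r0 f T m) : ℝ) * Real.log p) ≤
        ((f1W r0 f T m p - SF p (KW r0 f T m) - (f + 1) * SF p (AW T m) : ℤ) : ℝ) *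
          Real.log p := by
      intro p hp
      rw [prs, mem_filter, mem_Ioc] at hp
      have hp1 : 1 < p := hp.2.one_lt
      have hp0 : (0 : ℝ) ≤ Real.log p := Real.log_natCast_nonneg p
      have hL : Nat.log p (NW f m) ≤ Nat.log p (KW r0 f T m) := Nat.log_mono_right hK1
      have hL' : (Nat.log p (NW f m) : ℝ) ≤ Nat.log p (KW r0 f T m) := by exact_mod_cast hL
      have hL1 : 1 ≤ Nat.log p (KW r0 f T m) := by
        have := (Nat.le_log_iff_pow_le hp1 (x := 1) (y := KW r0 f T m) (by omega)).2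
          (by rw [pow_one]; omega)
        exact this
      have hL1' : (1 : ℝ) ≤ Nat.log p (KW r0 f T m) := by exact_mod_cast hL1
      have e : ((f1W r0 f T m p - SF p (KW r0 f T m) - (f + 1) * SF p (AW T m) : ℤ) : ℝ) =
          4 * T * m * Nat.log p (KW r0 f T m) - srW r0 f * (4 * T * m) * Nat.log p (NW f m) -
            ttW T * (2 * (2 * (f + 3) * m) + 1) * Nat.log p (KW r0 f T m) := by
        rw [← hAW, ← hNW]
        unfold f1W
        push_cast
        ring
      rw [e]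
      have h1 : 0 ≤ 4 * (T : ℝ) * m * (Nat.log p (KW r0 f T m) - 1) :=
        mul_nonneg (by positivity) (by linarith)
      have h2 : 0 ≤ (srW r0 f : ℝ) * (4 * T * m) *
          (Nat.log p (KW r0 f T m) - Nat.log p (NW f m)) :=
        mul_nonneg (by positivity) (by linarith)
      have h3 := mul_nonneg (add_nonneg h1 h2) hp0
      nlinarith [h3]
    refine le_trans ?_ (Finset.sum_le_sum hterm)
    rw [Finset.sum_sub_distrib, ← Finset.mul_sum, ← Finset.mul_sum]
    rw [hs]
    have hcoef : (0 : ℝ) ≤ 4 * T * m * srW r0 f + (4 * (f + 3) * m + 1) * ttW T := by positivity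
    have h5 := mul_le_mul_of_nonneg_left hpart hcoef
    have e3 : ((8 * T : ℝ) * m) = 8 * T * m := by ring
    rw [e3]
    nlinarith [h5]

end MP_a3a416_nt.WIN
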