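import Pool.Agent.Lib.MP_a3a416_nt.WIN.FDefsW
import Pool.Agent.Lib.MP_a3a416_nt.SJ.FPS

/-! # WIN-MidSumW: the flat primes in `(h m, 2 h m]`, `h = f + 3`
PROOF. `E = r0 + f`.  `f2W = (4T(f+1) - 4 h E T) m + 2 E T p - E T`; `prsum_asy (4T(f+1) - 4hET) (2ET) h (2h)` (`⌊(h : ℝ) * m⌋₊ = h * m`): `(4T(f+1) - 4hET) h + 2ET (4h^2 - h^2)/2 = 4T(f+1)h - ETh^2`; the constant `-ET ∑ log p` is
`o(m^2)` (private `sum_log_asy`, `sum_log_prs_le` in `SJ5/FPosB.lean`, copy). -/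

set_option autoImplicit false

namespace MP_a3a416_nt.WIN

open Finset Filter Asymptotics MP_a3a416_nt.SJ

private theorem sum_log_prs_nonneg (x y : ℕ) : 0 ≤ ∑ p ∈ prs x y, Real.log (p : ℝ) :=
  sum_nonneg fun p _ => Real.log_natCast_nonneg p

private theorem sum_log_prs_le (x y : ℕ) : ∑ p ∈ prs x y, Real.log (p : ℝ) ≤ Real.log 4 * y := by
  refine le_trans ?_ (Chebyshev.theta_le_log4_mul_x (x := (y : ℝ)) (by positivity))
  unfold Chebyshev.theta
  rw [Nat.floor_natCast]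
  unfold prs
  refine sum_le_sum_of_subset_of_nonneg ?_ fun i _ _ => Real.log_natCast_nonneg i
  refine filter_subset_filter _ fun i hi => ?_
  rw [mem_Ioc] at hi ⊢
  omega

private theorem sum_log_asy (a b : ℕ) :
    Asy (fun m : ℕ => ∑ p ∈ prs (a * m) (b * m), Real.log (p : ℝ)) 0 0 := by
  refine Asy.of_isLittleO ?_
  have h1 : (fun m : ℕ => ∑ p ∈ prs (a * m) (b * m), Real.log (p : ℝ)) =O[atTop]
      (fun m : ℕ => (m : ℝ)) := by
    refine IsBigO.of_bound (Real.log 4 * b) (Eventually.of_forall fun m => ?_)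
    rw [Real.norm_eq_abs, abs_of_nonneg (sum_log_prs_nonneg _ _), Real.norm_eq_abs,
      abs_of_nonneg (Nat.cast_nonneg m)]
    have := sum_log_prs_le (a * m) (b * m)
    push_cast at this
    linarith
  refine h1.trans_isLittleO ?_
  have h2 : (fun x : ℝ => x ^ 1) =o[atTop] (fun x : ℝ => x ^ 2) := isLittleO_pow_pow_atTop_of_lt
    (by norm_num)
  have h3 := h2.comp_tendsto tendsto_natCast_atTop_atTop
  simpa [Function.comp_def] using h3

private theorem prsum_nat (α β : ℝ) (a b : ℕ) (hab : a ≤ b) :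
    Asy (fun m : ℕ => ∑ p ∈ prs (a * m) (b * m), (α * m + β * p) * Real.log (p : ℝ)) 0
      (α * (b - a) + β * (b ^ 2 - a ^ 2) / 2) := by
  have h := prsum_asy α β (a : ℝ) (b : ℝ) (by positivity) (by exact_mod_cast hab)
  refine h.congr (Eventually.of_forall fun m => ?_)
  have e1 : ⌊(a : ℝ) * m⌋₊ = a * m := by rw [← Nat.cast_mul, Nat.floor_natCast]
  have e2 : ⌊(b : ℝ) * m⌋₊ = b * m := by rw [← Nat.cast_mul, Nat.floor_natCast]
  simp only [e1, e2]

theorem midSumW (r0 f T : ℕ) :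
    Asy (fun m : ℕ => ∑ p ∈ prs ((f + 3) * m) (NW f m), (f2W r0 f T m p : ℝ) * Real.log p) 0
      (4 * T * (f + 1) * (f + 3) - (r0 + f) * T * (f + 3) ^ 2) := by
  have a1 := prsum_nat (4 * T * (f + 1) - 4 * (f + 3) * (r0 + f) * T) (2 * (r0 + f) * T)
    (f + 3) (2 * (f + 3)) (by omega)
  have b1 := (sum_log_asy (f + 3) (2 * (f + 3))).const_mul (-(((r0 : ℝ) + f) * T))
  refine Asy.congr ((a1.add b1).cast (by ring) (by push_cast; ring))
    (Eventually.of_forall fun m => ?_)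
  change _ = ∑ p ∈ prs ((f + 3) * m) (2 * (f + 3) * m), (f2W r0 f T m p : ℝ) * Real.log p
  rw [Finset.mul_sum, ← Finset.sum_add_distrib]
  refine Finset.sum_congr rfl fun p _ => ?_
  unfold f2W g2W AW NW
  push_cast
  ring

end MP_a3a416_nt.WIN
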