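import Pool.Agent.Lib.MP_a3a416_nt.WIN.HarmW

/-! # WIN-MuW: the numeric identity
PROOF. `h = f+3`.  `bsW_le (8T) h`, `bsW_le (4T) h` (`4 h ≤ 4 T ≤ 8 T`): `32 T^2 (log 8T - 3/2) - bsW (8T) h ≥ 32 T^2 (log h - 7/10) - 2 T h`, `8 T^2 (log 4T - 3/2) - bsW (4T) h ≥ 8 T^2 (log h - 7/10) - T h`.
`srW = f r0 + f (f-1)/2`, `ttW = T(T-1)/2` (as reals, `2 * srW = 2 f r0 + f (f-1)`, `2 * ttW = T (T-1)`: induction).  Then `ring`/`linarith`: see section 7 of WIN_proof.md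
[`h [h + 4 - 4(f+1) - 4 sr - E h] = - h [3f^2+4f-3+r0(5f+3)]`]. -/

set_option autoImplicit false

namespace MP_a3a416_nt.WIN

open Finset

theorem two_srW (r0 f : ℕ) : 2 * (srW r0 f : ℝ) = 2 * f * r0 + f * (f - 1) := by
  induction f with
  | zero => simp [srW]
  | succ n ih =>
    have h : srW r0 (n + 1) = srW r0 n + (r0 + n) := by
      unfold srW
      rw [Finset.sum_range_succ]
    rw [h]
    push_cast
    linarith

theorem two_ttW (T : ℕ) : 2 * (ttW T : ℝ) = T * (T - 1) := by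
  induction T with
  | zero => simp [ttW]
  | succ n ih =>
    have h : ttW (n + 1) = ttW n + n := by
      unfold ttW
      rw [Finset.sum_range_succ]
    rw [h]
    push_cast
    linarith

theorem muW_le (r0 f T : ℕ) (hT : f + 3 ≤ T) :
    muW r0 f T + 8 * (T : ℝ) ^ 2 * (f + 5) * Real.log (f + 3) ≤
      (((8 * T : ℕ) : ℝ) ^ 2 / 2 * (Real.log ((8 * T : ℕ) : ℝ) - 3 / 2) - bsW (8 * T) (f + 3))
      + (f + 1) * (((4 * T : ℕ) : ℝ) ^ 2 / 2 * (Real.log ((4 * T : ℕ) : ℝ) - 3 / 2)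
        - bsW (4 * T) (f + 3))
      + ((f : ℝ) + 3) * (4 * T - 4 * T * srW r0 f - 4 * (f + 3) * ttW T)
      + (4 * T * (f + 1) * (f + 3) - (r0 + f) * T * (f + 3) ^ 2)
      + (4 * T * (f + 1) * (4 * T - 2 * (f + 3)) + 8 * (T : ℝ) ^ 2 * (f + 1) ^ 2) := by
  have h1 := bsW_le (8 * T) (f + 3) (by omega) (by omega)
  have h2 := bsW_le (4 * T) (f + 3) (by omega) (by omega)
  have hs : (srW r0 f : ℝ) = f * r0 + f * (f - 1) / 2 := by
    have := two_srW r0 f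
    linarith
  have ht : (ttW T : ℝ) = T * (T - 1) / 2 := by
    have := two_ttW T
    linarith
  rw [hs, ht]
  unfold muW
  push_cast at h1 h2 ⊢
  obtain ⟨L, hL⟩ : ∃ L : ℝ, L = Real.log ((f : ℝ) + 3) := ⟨_, rfl⟩
  obtain ⟨L8, hL8⟩ : ∃ L8 : ℝ, L8 = Real.log (8 * (T : ℝ)) := ⟨_, rfl⟩
  obtain ⟨L4, hL4⟩ : ∃ L4 : ℝ, L4 = Real.log (4 * (T : ℝ)) := ⟨_, rfl⟩
  rw [← hL, ← hL8] at h1
  rw [← hL, ← hL4] at h2
  rw [← hL, ← hL8, ← hL4]
  have hf : (0 : ℝ) ≤ (f : ℝ) + 1 := by positivity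
  have h3 := mul_le_mul_of_nonneg_left h2 hf
  nlinarith [h1, h3]

end MP_a3a416_nt.WIN
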