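import Pool.Agent.Lib.MP_a3a416_nt.WIN.SFsumW
import Pool.Agent.Lib.MP_a3a416_nt.WIN.LogSumW
import Pool.Agent.Lib.MP_a3a416_nt.WIN.MidSumW
import Pool.Agent.Lib.MP_a3a416_nt.WIN.BigFlatW
import Pool.Agent.Lib.MP_a3a416_nt.WIN.MuW
import Pool.Agent.Lib.MP_a3a416_nt.WIN.LBsW

/-! # WIN-FMainW: the analytic conclusion
PROOF. `LBs_geW`; `f1W = SF KW + (f+1) SF AW + (rest)`: `SFsumW (8T) (f+3) (c1W ..) .. (KW r0 f T)`, `SFsumW (4T) (f+3) 0 .. (AW T)`, `logSumW`, `midSumW`, `bigFlatW`; `UBW` is `Asy (8T^2(f+5)) (8T^2(f+5) log (f+3))`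
(`log ((f+3) m) = log (f+3) + log m` for `m ≥ 1`); `m log m = o(m^2)`.  The difference `LB0W - UBW - B m log m` is bounded below by a function which is `Asy 0 b` with `b ≥ muW > δ` (`muW_le`; the coefficients of `m^2 log m`:
`(8T)^2/2 + (f+1)(4T)^2/2 = 8T^2(f+5)`); `Asy.eventually_ge`. -/

set_option autoImplicit false

namespace MP_a3a416_nt.WIN

open Finset Filter MP_a3a416_nt.SJ

private theorem fmainW_log_littleO (C : ℝ) :
    (fun m : ℕ => C * m * Real.log m) =o[atTop] (fun m : ℕ => (m : ℝ) ^ 2) := by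
  have h1 : (fun x : ℝ => C * x * Real.log x) =o[atTop] (fun x : ℝ => x ^ 2) := by
    have h2 : (fun x : ℝ => Real.log x) =o[atTop] (fun x : ℝ => x) := Real.isLittleO_log_id_atTop
    have h3 : (fun x : ℝ => C * x) =O[atTop] (fun x : ℝ => x) :=
      (Asymptotics.isBigO_refl (fun x : ℝ => x) atTop).const_mul_left C
    have h4 := h3.mul_isLittleO h2
    refine h4.congr_right fun x => ?_
    ring
  exact h1.comp_tendsto tendsto_natCast_atTop_atTop

private theorem fmainW_UB (f T : ℕ) : Asy (fun m : ℕ => UBW f T m) (8 * (T : ℝ) ^ 2 * (f + 5))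
    (8 * (T : ℝ) ^ 2 * (f + 5) * Real.log (f + 3)) := by
  have h1 : Asy (fun m : ℕ => 8 * (T : ℝ) ^ 2 * (f + 5) * (m : ℝ) ^ 2 * Real.log m +
      8 * (T : ℝ) ^ 2 * (f + 5) * Real.log (f + 3) * (m : ℝ) ^ 2) (8 * (T : ℝ) ^ 2 * (f + 5))
      (8 * (T : ℝ) ^ 2 * (f + 5) * Real.log (f + 3)) := by
    unfold Asy
    refine (Asymptotics.isLittleO_zero (fun m : ℕ => (m : ℝ) ^ 2) atTop).congr_left fun m => ?_
    ring
  refine h1.congr ?_
  filter_upwards [eventually_ge_atTop 1] with m hm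
  have hm0 : (m : ℝ) ≠ 0 := by
    have : (0 : ℝ) < m := by exact_mod_cast hm
    exact this.ne'
  unfold UBW
  rw [Real.log_mul (by positivity) hm0]
  ring

theorem F_mainW (r0 f T : ℕ) (hT : f + 3 ≤ T) (B δ : ℝ) (hδ : δ < muW r0 f T) :
    ∀ᶠ m : ℕ in atTop, ∀ (flat : ℕ → Prop) [DecidablePred flat],
      UBW f T m + B * m * Real.log m + δ * (m : ℝ) ^ 2 - 4 * T * (f + 1) * m * ThW f T m flat ≤
        LBsW r0 f T m flat := by
  obtain ⟨g1, hg1, hg1'⟩ := SFsumW (8 * T) (f + 3) (c1W r0 f T) (by omega) (by omega)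
    (KW r0 f T) (fun m => Nat.sub_le _ _) (fun m => by unfold KW; omega)
  obtain ⟨g2, hg2, hg2'⟩ := SFsumW (4 * T) (f + 3) 0 (by omega) (by omega)
    (AW T) (fun m => le_of_eq rfl) (fun m => le_of_eq rfl)
  obtain ⟨g3, hg3, hg3'⟩ := logSumW r0 f T hT
  have hg4 := midSumW r0 f T
  obtain ⟨g5, hg5, hg5'⟩ := bigFlatW r0 f T hT
  have hUB := fmainW_UB f T
  have hBm := Asy.of_isLittleO (fmainW_log_littleO B)
  have hall := ((((((hg1.add (hg2.const_mul ((f : ℝ) + 1))).add hg3).add hg4).add hg5).sub hUB).sub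
    hBm)
  have hmu := muW_le r0 f T hT
  have hge := (hall.cast (a' := 0) (by push_cast; ring) rfl).eventually_ge (c := δ) (by linarith)
  filter_upwards [hge, hg1', hg2', hg3'] with m hm h1 h2 h3 flat _
  have h5 := hg5' m
  have h6 := LBs_geW r0 f T m (by omega) flat
  have h7 : LB0W r0 f T m =
      (∑ p ∈ prs 0 ((f + 3) * m), (SF p (KW r0 f T m) : ℝ) * Real.log p)
      + (f + 1) * (∑ p ∈ prs 0 ((f + 3) * m), (SF p (AW T m) : ℝ) * Real.log p)
      + (∑ p ∈ prs 0 ((f + 3) * m),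
        ((f1W r0 f T m p - SF p (KW r0 f T m) - (f + 1) * SF p (AW T m) : ℤ) : ℝ) * Real.log p)
      + (∑ p ∈ prs ((f + 3) * m) (NW f m), (f2W r0 f T m p : ℝ) * Real.log p)
      + ∑ p ∈ prs (NW f m) (XW f T m), (f3W r0 f T m p : ℝ) * Real.log p := by
    unfold LB0W
    rw [mul_sum, ← sum_add_distrib, ← sum_add_distrib]
    congr 2
    refine sum_congr rfl fun p _ => ?_
    push_cast
    ring
  have h8 := mul_le_mul_of_nonneg_left h2 (by positivity : (0 : ℝ) ≤ (f : ℝ) + 1)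
  linarith

end MP_a3a416_nt.WIN
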