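import Pool.Agent.Lib.MP_a3a416_nt.WIN.MainW

/-! # WIN-FinalW: the windows
PROOF. `r0 = e - 1` (even, `≥ 2`).  (a) `5 e + 3 ≤ 2 w`, `e ≥ 3`: `f = 3`, `T` := the odd one of `3 (e+1)/2`, `3 (e+1)/2 + 1` (`T ≥ 6`; `3(e+1) ≤ 2T ≤ 3e + 5`), `δ = 1/200`: `muW (e-1) 3 T = T^2 * 75.2 - 108 (e+1) T ≥ 3.2 T^2`,
`δ * (16 T^2 * 4 * 5) = 1.6 T^2`.  `hw`: `k` odd, `k + 2 ≤ e - 1 + 3 + T`, so `k ≤ e + T`, `e + T` even, `k ≤ e + T - 1 ≤ (5e+3)/2`.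
(b) `e ≥ 300` odd (so `≥ 301`), `2 e ≤ w + 1`: `f = 14`, `T = e - 11 ≥ 17`, `muW (e-1) 14 T = T^2 * 1355.6 - 17 T (641 + 73 (e-1)) = T (1355.6 T - 17 (641 + 73 (T + 10)))`, at least `34 T^2` for `T ≥ 290`;
`δ * (16 T^2 * 15 * 16) = 19.2 T^2`.  `hw`: `k + 2 ≤ e - 1 + 14 + e - 11 = 2e + 2`, `k ≤ 2e`, odd: `k ≤ 2e - 1 ≤ w`. -/

set_option autoImplicit false

open Finset Filter

namespace MP_a3a416_nt.WIN

open Classical in
theorem windows (e w : ℕ) (he : Odd e)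
    (h : (3 ≤ e ∧ 5 * e + 3 ≤ 2 * w) ∨ (300 ≤ e ∧ 2 * e ≤ w + 1)) (c : ℕ → ℚ) :
    ∀ᶠ x : ℕ in atTop, (x : ℝ) / (200 * Real.log x) ≤
      (((Finset.range (x + 1)).filter (fun p : ℕ => p.Prime ∧ w < p ∧
        ∃ k : ℕ, Odd k ∧ e < k ∧ k ≤ w ∧ ¬ (p : ℤ) ∣ (_root_.bernoulli (p - k) - c k).num)).card
        : ℝ) := by
  obtain ⟨r, hr⟩ := he
  have key : ∃ f T : ℕ, 1 ≤ f ∧ f + 3 ≤ T ∧
      1 / 200 * (16 * (T : ℝ) ^ 2 * (f + 1) * (f + 2)) < muW (2 * r) f T ∧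
      ∀ k : ℕ, Odd k → k + 2 ≤ 2 * r + f + T → k ≤ w := by
    rcases h with ⟨h1, h2⟩ | ⟨h1, h2⟩
    · -- `f = 3`
      obtain ⟨T, hT1, hT2, hT3⟩ : ∃ T : ℕ, 3 * (r + 1) ≤ T ∧ T ≤ 3 * (r + 1) + 1 ∧ T % 2 = 1 := by
        rcases Nat.even_or_odd (3 * (r + 1)) with hp | hp
        · exact ⟨3 * (r + 1) + 1, by omega, le_rfl, by rcases hp with ⟨a, ha⟩; omega⟩
        · exact ⟨3 * (r + 1), le_rfl, by omega, by rcases hp with ⟨a, ha⟩; omega⟩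
      refine ⟨3, T, by norm_num, by omega, ?_, ?_⟩
      · have hT0 : (0 : ℝ) < T := by
          have : 0 < T := by omega
          exact_mod_cast this
        have hrT : 3 * ((r : ℝ) + 1) ≤ T := by exact_mod_cast hT1
        unfold muW
        push_cast
        nlinarith [mul_nonneg hT0.le (sub_nonneg.2 hrT), mul_pos hT0 hT0]
      · rintro k ⟨a, ha⟩ hk
        omega
    · -- `f = 14`
      obtain ⟨T, hT⟩ : ∃ T : ℕ, e = T + 11 := ⟨e - 11, by omega⟩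
      refine ⟨14, T, by norm_num, by omega, ?_, ?_⟩
      · have hTn : 290 ≤ T := by omega
        have hT290 : (290 : ℝ) ≤ T := by exact_mod_cast hTn
        have hrT : (2 : ℝ) * r = T + 10 := by
          have : 2 * r = T + 10 := by omega
          exact_mod_cast this
        unfold muW
        push_cast
        rw [hrT]
        nlinarith [mul_nonneg (show (0 : ℝ) ≤ T by linarith) (sub_nonneg.2 hT290)]
      · rintro k ⟨a, ha⟩ hk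
        omega
  obtain ⟨f, T, hf, hT, hδ, hw⟩ := key
  have hr1 : 2 ≤ 2 * r := by
    rcases h with ⟨h1, -⟩ | ⟨h1, -⟩ <;> omega
  have hmain := window_main (2 * r) f T hr1 (even_two_mul r) hf hT c (1 / 200) (by norm_num) hδ w hw
  filter_upwards [hmain] with x hx
  have e1 : (x : ℝ) / (200 * Real.log x) = 1 / 200 * ((x : ℝ) / Real.log x) := by
    rw [mul_comm (200 : ℝ), ← div_div]
    ring
  rw [e1, hr]
  exact hx

end MP_a3a416_nt.WIN
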