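import Pool.Agent.Lib.MP_a3a416_nt.WIN.FDefsW

/-! # WIN-HarmW: the numeric bound for `∑_y (al - y h)^2 / (2 y)`
PROOF. `Y := al / h ≥ 4`, `a := al / h` (real), `θ := a - Y ∈ [0, 1)`.  `∑_{y ≤ Y} (a - y)^2 / y = a^2 H_Y - 2 a Y + Y (Y+1) / 2` (induction on `Y` for any real `a`).
`H_Y ≤ log Y + 7/10` for `Y ≥ 4`: `Real.strictAnti_eulerMascheroniSeq'` (`eulerMascheroniSeq' n = H_n - log n` for `n ≠ 0`), `H_4 = 25/12`, `log 4 = 2 log 2`, `Real.log_two_gt_d9`: `25/12 - 1.3862 ≤ 7/10`.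
`log Y ≤ log a + Y/a - 1 = log a - θ/a` (`Real.log_le_sub_one_of_pos`).  So the sum is `≤ a^2 (log a + 7/10) - a θ - 2 a Y + Y (Y+1)/2 = a^2 (log a - 4/5) + a/2 + (θ^2 - θ)/2 ≤ a^2 (log a - 4/5) + a/2`.
`bsW al h = (h^2/2) ∑ (a - y)^2 / y`. -/

set_option autoImplicit false

namespace MP_a3a416_nt.WIN

open Finset

theorem harmonic_le {Y : ℕ} (hY : 4 ≤ Y) :
    ∑ y ∈ Icc 1 Y, (1 : ℝ) / y ≤ Real.log Y + 7 / 10 := by
  induction Y, hY using Nat.le_induction with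
  | base =>
    have h2 := Real.log_two_gt_d9
    have h4 : Real.log ((4 : ℕ) : ℝ) = 2 * Real.log 2 := by
      rw [show ((4 : ℕ) : ℝ) = (2 : ℝ) ^ 2 by norm_num, Real.log_pow]
      norm_num
    have hs : ∑ y ∈ Icc 1 4, (1 : ℝ) / ((y : ℕ) : ℝ) = 25 / 12 := by
      rw [show (Icc 1 4 : Finset ℕ) = {1, 2, 3, 4} from by decide]
      norm_num
    rw [hs, h4]
    linarith
  | succ n hn ih =>
    rw [Finset.sum_Icc_succ_top (by omega)]
    have hn0 : (0 : ℝ) < n := by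
      have : 0 < n := by omega
      exact_mod_cast this
    have hn1 : (0 : ℝ) < (n : ℝ) + 1 := by linarith
    have h1 : Real.log ((n : ℝ) / ((n : ℝ) + 1)) ≤ (n : ℝ) / ((n : ℝ) + 1) - 1 :=
      Real.log_le_sub_one_of_pos (div_pos hn0 hn1)
    rw [Real.log_div hn0.ne' hn1.ne'] at h1
    have h2 : (n : ℝ) / ((n : ℝ) + 1) - 1 = - (1 / ((n : ℝ) + 1)) := by
      field_simp
      ring
    rw [h2] at h1
    push_cast
    linarith

private theorem harmW_sum (a : ℝ) (Y : ℕ) :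
    ∑ y ∈ Icc 1 Y, (a - y) ^ 2 / (y : ℝ) =
      a ^ 2 * ∑ y ∈ Icc 1 Y, (1 : ℝ) / y - 2 * a * Y + Y * (Y + 1) / 2 := by
  induction Y with
  | zero => simp
  | succ n ih =>
    rw [Finset.sum_Icc_succ_top (by omega), Finset.sum_Icc_succ_top (by omega), ih]
    have hn1 : ((n : ℝ) + 1) ≠ 0 := by positivity
    push_cast
    field_simp
    ring

theorem bsW_le (al h : ℕ) (hh : 1 ≤ h) (hal : 4 * h ≤ al) :
    bsW al h ≤ (al : ℝ) ^ 2 / 2 * (Real.log al - Real.log h - 4 / 5) + al * h / 4 := by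
  have hhR : (0 : ℝ) < h := by exact_mod_cast hh
  have halN : 0 < al := by omega
  have halR : (0 : ℝ) < al := by exact_mod_cast halN
  have hY4 : 4 ≤ al / h := (Nat.le_div_iff_mul_le hh).2 hal
  obtain ⟨Y, hYdef⟩ : ∃ Y, Y = al / h := ⟨_, rfl⟩
  rw [← hYdef] at hY4
  obtain ⟨a, hadef⟩ : ∃ a : ℝ, a = (al : ℝ) / h := ⟨_, rfl⟩
  have hapos : 0 < a := by rw [hadef]; positivity
  have hala : (al : ℝ) = a * h := by rw [hadef]; field_simp
  -- Y ≤ a < Y + 1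
  have hYa : (Y : ℝ) ≤ a := by
    rw [hadef, hYdef]; exact Nat.cast_div_le
  have haY : a < (Y : ℝ) + 1 := by
    rw [hadef, div_lt_iff₀ hhR]
    have : al < (al / h + 1) * h := by
      have := Nat.lt_div_mul_add (a := al) (b := h) hh
      calc al < al / h * h + h := this
        _ = (al / h + 1) * h := by ring
    rw [← hYdef] at this
    exact_mod_cast this
  have hYpos : (0 : ℝ) < Y := by
    have : 0 < Y := by omega
    exact_mod_cast this
  have hbs : bsW al h = (h : ℝ) ^ 2 / 2 * ∑ y ∈ Icc 1 Y, (a - y) ^ 2 / (y : ℝ) := by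
    unfold bsW
    rw [← hYdef, Finset.mul_sum]
    refine Finset.sum_congr rfl fun y hy => ?_
    have hy1 : 1 ≤ y := (Finset.mem_Icc.1 hy).1
    have hyR : (0 : ℝ) < y := by exact_mod_cast hy1
    rw [hala]
    field_simp
  rw [hbs, harmW_sum]
  have hH := harmonic_le hY4
  have hlogY : Real.log Y ≤ Real.log a + Y / a - 1 := by
    have h1 := Real.log_le_sub_one_of_pos (div_pos hYpos hapos)
    rw [Real.log_div hYpos.ne' hapos.ne'] at h1
    linarith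
  have hloga : Real.log al - Real.log h = Real.log a := by
    rw [hadef, Real.log_div halR.ne' hhR.ne']
  rw [hloga, hala]
  have ha2 : (0 : ℝ) < a ^ 2 := by positivity
  have hkey : a ^ 2 * ∑ y ∈ Icc 1 Y, (1 : ℝ) / y - 2 * a * Y + Y * (Y + 1) / 2 ≤
      a ^ 2 * (Real.log a - 4 / 5) + a / 2 := by
    have h1 : a ^ 2 * ∑ y ∈ Icc 1 Y, (1 : ℝ) / y ≤ a ^ 2 * (Real.log a + Y / a - 1 + 7 / 10) :=
      mul_le_mul_of_nonneg_left (by linarith) ha2.le
    have h2 : a ^ 2 * (Real.log a + Y / a - 1 + 7 / 10) =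
        a ^ 2 * (Real.log a - 4 / 5) + a ^ 2 / 2 + a * Y := by
      field_simp
      ring
    rw [h2] at h1
    have h3 : a ^ 2 / 2 + a * Y - 2 * a * Y + Y * (Y + 1) / 2 ≤ a / 2 := by
      nlinarith [mul_nonneg (sub_nonneg.2 hYa) (sub_nonneg.2 haY.le)]
    linarith
  calc (h : ℝ) ^ 2 / 2 * (a ^ 2 * ∑ y ∈ Icc 1 Y, (1 : ℝ) / y - 2 * a * Y + Y * (Y + 1) / 2)
      ≤ (h : ℝ) ^ 2 / 2 * (a ^ 2 * (Real.log a - 4 / 5) + a / 2) :=
        mul_le_mul_of_nonneg_left hkey (by positivity)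
    _ = (a * h) ^ 2 / 2 * (Real.log a - 4 / 5) + a * h * h / 4 := by ring

end MP_a3a416_nt.WIN
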