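import Pool.Agent.Lib.MP_a3a416_nt.WIN.Defs

/-! # WIN-ParW: the common denominator
PROOF. `kap` does not depend on `D`.  For finitely many rationals `q` (the `kap P0 (r0 + i) j`, `i < f`, `j < T`, `P0 = ⟨r0, f, T, c, 1⟩`) take `D := ∏_{i<f} ∏_{j<T} (kap P0 (r0+i) j).den`; `q.den ∣ D` gives
`D * q = (D / q.den) * q.num` (`Rat.mul_den_eq_num`/`Rat.den_mul_eq_num`, `Finset.dvd_prod_of_mem`). -/

set_option autoImplicit false

namespace MP_a3a416_nt.WIN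

theorem exists_par (r0 f T : ℕ) (hr0 : 2 ≤ r0) (hev : Even r0) (hf : 1 ≤ f) (hT : f + 3 ≤ T)
    (c : ℕ → ℚ) : ∃ P : Par, P.Ok ∧ P.r0 = r0 ∧ P.f = f ∧ P.T = T ∧ P.c = c := by
  set P0 : Par := ⟨r0, f, T, c, 1⟩ with hP0
  set D : ℕ := ∏ i ∈ Finset.range f, ∏ j ∈ Finset.range T, (kap P0 (r0 + i) j).den with hD
  refine ⟨⟨r0, f, T, c, D⟩, ⟨hr0, hev, hf, hT, ?_, ?_⟩, rfl, rfl, rfl, rfl⟩
  · have h0 : D ≠ 0 := Finset.prod_ne_zero_iff.mpr fun i _ =>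
      Finset.prod_ne_zero_iff.mpr fun j _ => (kap P0 (r0 + i) j).den_nz
    exact Nat.one_le_iff_ne_zero.mpr h0
  · intro r j h1 h2 h3
    have hk : kap ⟨r0, f, T, c, D⟩ r j = kap P0 r j := rfl
    rw [hk]
    obtain ⟨i, rfl⟩ := Nat.exists_eq_add_of_le h1
    have hi : i < f := by
      change r0 + i < r0 + f at h2
      omega
    have hd : (kap P0 (r0 + i) j).den ∣ D :=
      (Finset.dvd_prod_of_mem (fun j => (kap P0 (r0 + i) j).den) (Finset.mem_range.mpr h3)).trans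
        (Finset.dvd_prod_of_mem (fun i => ∏ j ∈ Finset.range T, (kap P0 (r0 + i) j).den)
          (Finset.mem_range.mpr hi))
    obtain ⟨e, he⟩ := hd
    refine ⟨e * (kap P0 (r0 + i) j).num, ?_⟩
    change ((D : ℕ) : ℚ) * kap P0 (r0 + i) j = _
    rw [he]
    push_cast
    have hq := Rat.den_mul_eq_num (kap P0 (r0 + i) j)
    calc ((kap P0 (r0 + i) j).den : ℚ) * (e : ℚ) * kap P0 (r0 + i) j
        = (e : ℚ) * (((kap P0 (r0 + i) j).den : ℚ) * kap P0 (r0 + i) j) := by ring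
      _ = _ := by rw [hq]

end MP_a3a416_nt.WIN
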