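import Pool.Agent.Lib.MP_a3a416_nt.WIN.DetW
import Pool.Agent.Lib.MP_a3a416_nt.WIN.FMainW
import Pool.Agent.Lib.MP_a3a416_nt.WIN.ParW
import Pool.Agent.Lib.MP_a3a416_nt.SJ.PF

/-! # WIN-MainW: the general theorem
PROOF. `main_ineqW`: adapt `main_ineq` in `SJ5/GCore.lean` (no denominator terms): `SJ.pf` with `S = (Ioc 0 (XW f T m)).filter Nat.Prime` and the local bound `fl p = if p ≤ (f+3)m then f1W else if p ≤ NW then (if flat then f2W else g2W)
else (if flat then f3W else 0)`; `sum_fl` as there (`NW ≤ XW`: `2(f+3) ≤ (8+4f) T`, `T ≥ 1`).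
`window_main`: adapt `main_core` in `SJ5/GCore.lean`.  `exists_par`, `exists_detW`, `F_mainW` with `δ' := (δ 16T²(f+1)(f+2) + muW)/2`: `4T(f+1) m ThW ≥ δ' m^2`, so `ThW ≥ δ' m / (4T(f+1))`.  `m := x / ((8+4f)T)`, `XW = (8+4f)Tm ≤ x < XW + (8+4f)T`;
every non-flat prime of `(hm, XW]` with `m` large is `> D, > w`, `≤ x`, so it is counted, and `log p ≤ log x`: the count is `≥ ThW / log x ≥ δ' m / (4T(f+1) log x)`, `m ≥ x/((8+4f)T) - 1`,
`4T(f+1) (8+4f) T = 16 T²(f+1)(f+2)`; `δ' > δ 16T²(f+1)(f+2)` absorbs the `-1` for `x` large.  Non-flat and `p ∤ D`: some `k` odd, `r0+1 < k`, `k + 2 ≤ r0+f+T` fails (`FlatW`), `k ≤ w` by `hw`. -/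

set_option autoImplicit false

open Polynomial Finset Filter MP_a3a416_nt.SJ

namespace MP_a3a416_nt.WIN

open Classical in
/-- the local bound used at `p` -/
private noncomputable def flW (r0 f T m : ℕ) (flat : ℕ → Prop) (p : ℕ) : ℤ :=
  if p ≤ (f + 3) * m then f1W r0 f T m p else
    if p ≤ NW f m then (if flat p then f2W r0 f T m p else g2W r0 f T m p) else
      (if flat p then f3W r0 f T m p else 0)

private theorem NW_le_XW (f T m : ℕ) (hT : 1 ≤ T) : NW f m ≤ XW f T m := by
  unfold NW XW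
  apply Nat.mul_le_mul_right
  calc 2 * (f + 3) ≤ (8 + 4 * f) * 1 := by omega
    _ ≤ (8 + 4 * f) * T := Nat.mul_le_mul_left _ hT

private theorem hm_le_NW (f m : ℕ) : (f + 3) * m ≤ NW f m := by
  unfold NW
  apply Nat.mul_le_mul_right
  omega

open Classical in
private theorem sum_flW (r0 f T m : ℕ) (hT : 1 ≤ T) (flat : ℕ → Prop) :
    ∑ p ∈ (Ioc 0 (XW f T m)).filter Nat.Prime, (flW r0 f T m flat p : ℝ) * Real.log p =
      LBsW r0 f T m flat := by
  have hNX := NW_le_XW f T m hT
  have hhN := hm_le_NW f m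
  unfold LBsW prs
  simp only [sum_filter]
  rw [← sum_Ioc_consecutive _ (Nat.zero_le (NW f m)) hNX,
    ← sum_Ioc_consecutive _ (Nat.zero_le ((f + 3) * m)) hhN]
  congr 1
  · congr 1
    · apply sum_congr rfl
      intro p hp
      rw [mem_Ioc] at hp
      have : flW r0 f T m flat p = f1W r0 f T m p := by
        unfold flW
        rw [if_pos hp.2]
      rw [this]
    · apply sum_congr rfl
      intro p hp
      rw [mem_Ioc] at hp
      have : flW r0 f T m flat p = if flat p then f2W r0 f T m p else g2W r0 f T m p := by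
        unfold flW
        rw [if_neg (by omega), if_pos hp.2]
      rw [this]
  · apply sum_congr rfl
    intro p hp
    rw [mem_Ioc] at hp
    have : flW r0 f T m flat p = if flat p then f3W r0 f T m p else 0 := by
      unfold flW
      rw [if_neg (by omega), if_neg (by omega)]
    rw [this]

open Classical in
theorem main_ineqW {P : Par} {B : ℝ} {m : ℕ} {D : ℚ} (hT : 1 ≤ P.T) (H : DetW P B m D) :
    LBsW P.r0 P.f P.T m (FlatW P) ≤ UBW P.f P.T m + B * m * Real.log m := by
  have harch := H.arch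
  have hNX := NW_le_XW P.f P.T m hT
  have hhN := hm_le_NW P.f m
  have hpf := pf D H.ne ((Ioc 0 (XW P.f P.T m)).filter Nat.Prime)
    (fun p hp => (mem_filter.1 hp).2)
    (fun p => (flW P.r0 P.f P.T m (FlatW P) p : ℝ)) ?_ ?_
  · rw [sum_flW P.r0 P.f P.T m hT] at hpf
    linarith
  · intro p hp
    rw [mem_filter, mem_Ioc] at hp
    obtain ⟨⟨hp1, _⟩, hpp⟩ := hp
    have key : flW P.r0 P.f P.T m (FlatW P) p ≤ padicValRat p D := by
      unfold flW
      by_cases h12 : p ≤ (P.f + 3) * m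
      · rw [if_pos h12]
        exact H.gen p hpp
      rw [if_neg h12]
      by_cases h20 : p ≤ NW P.f m
      · rw [if_pos h20]
        by_cases hf : FlatW P p
        · rw [if_pos hf]
          exact H.midF p hpp (by omega) h20 hf
        · rw [if_neg hf]
          exact H.mid p hpp (by omega) h20
      · rw [if_neg h20]
        by_cases hf : FlatW P p
        · rw [if_pos hf]
          exact H.bigF p hpp (by omega) hf
        · rw [if_neg hf]
          exact H.big p hpp (by omega)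
    exact_mod_cast key
  · intro p hpp hpS
    have hpX : XW P.f P.T m < p := by
      by_contra h
      exact hpS (by rw [mem_filter, mem_Ioc]; exact ⟨⟨hpp.pos, by omega⟩, hpp⟩)
    exact H.big p hpp (by omega)

open Classical in
theorem window_main (r0 f T : ℕ) (hr0 : 2 ≤ r0) (hev : Even r0) (hf : 1 ≤ f) (hT : f + 3 ≤ T)
    (c : ℕ → ℚ) (δ : ℝ) (hδ0 : 0 < δ)
    (hδ : δ * (16 * (T : ℝ) ^ 2 * (f + 1) * (f + 2)) < muW r0 f T) (w : ℕ)
    (hw : ∀ k : ℕ, Odd k → k + 2 ≤ r0 + f + T → k ≤ w) :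
    ∀ᶠ x : ℕ in atTop, δ * ((x : ℝ) / Real.log x) ≤
      (((Finset.range (x + 1)).filter (fun p : ℕ => p.Prime ∧ w < p ∧
        ∃ k : ℕ, Odd k ∧ r0 + 1 < k ∧ k ≤ w ∧ ¬ (p : ℤ) ∣ (_root_.bernoulli (p - k) - c k).num)).card
        : ℝ) := by
  obtain ⟨P, hP, rfl, rfl, rfl, rfl⟩ := exists_par r0 f T hr0 hev hf hT c
  obtain ⟨B, hB⟩ := exists_detW P hP
  have hT1 : 1 ≤ P.T := by omega
  have hTr : (1 : ℝ) ≤ P.T := by exact_mod_cast hT1
  have hfr : (0 : ℝ) ≤ P.f := Nat.cast_nonneg _
  set A : ℝ := 16 * (P.T : ℝ) ^ 2 * (P.f + 1) * (P.f + 2) with hA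
  set δ' : ℝ := (δ * A + muW P.r0 P.f P.T) / 2 with hδ'
  have hA0 : 0 < A := by positivity
  have hd1 : δ' < muW P.r0 P.f P.T := by rw [hδ']; linarith
  have hd2 : δ * A < δ' := by rw [hδ']; linarith
  have hd0 : 0 < δ' := (mul_pos hδ0 hA0).trans hd2
  have hF := F_mainW P.r0 P.f P.T hT B δ' hd1
  have hev' := (hB.and hF).and (eventually_ge_atTop (w + P.D + 1))
  obtain ⟨m0, hm0⟩ := eventually_atTop.1 hev'
  set q : ℕ := (8 + 4 * P.f) * P.T with hq
  have hq0 : 0 < q := by positivity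
  have hqr : (q : ℝ) * (4 * P.T * (P.f + 1)) = A := by
    rw [hA, hq]
    push_cast
    ring
  have hlim : ∀ᶠ x : ℕ in atTop, δ' * q / (δ' - δ * A) ≤ (x : ℝ) :=
    tendsto_natCast_atTop_atTop.eventually_ge_atTop _
  filter_upwards [eventually_ge_atTop (q * (m0 + 1)), hlim, eventually_ge_atTop 3] with x hx hxl hx3
  set m := x / q with hm
  have hm1 : m0 + 1 ≤ m := by
    rw [hm, Nat.le_div_iff_mul_le hq0]
    linarith
  have hmx : q * m ≤ x := Nat.mul_div_le x q
  have hxm : x < q * (m + 1) := by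
    have := Nat.lt_mul_div_succ x hq0
    simpa [hm] using this
  obtain ⟨⟨⟨D, hD⟩, h2⟩, h3⟩ := hm0 m (by omega)
  have hmain := main_ineqW hT1 hD
  have hfs := h2 (FlatW P)
  have hm1' : 1 ≤ m := by omega
  have hmr : (1 : ℝ) ≤ m := by exact_mod_cast hm1'
  -- the sum over the non-flat primes
  have e1 : (m : ℝ) * (δ' * m) ≤ m * (4 * P.T * (P.f + 1) * ThW P.f P.T m (FlatW P)) := by
    nlinarith
  have e2 := le_of_mul_le_mul_left e1 (by linarith)
  have hXq : XW P.f P.T m = q * m := rfl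
  have hx3r : (3 : ℝ) ≤ x := by exact_mod_cast hx3
  have hlx : 0 < Real.log x := Real.log_pos (by linarith)
  set S := (range (x + 1)).filter (fun p : ℕ => p.Prime ∧ w < p ∧
        ∃ k : ℕ, Odd k ∧ P.r0 + 1 < k ∧ k ≤ w ∧
          ¬ (p : ℤ) ∣ (_root_.bernoulli (p - k) - P.c k).num) with hS
  have h8 : ThW P.f P.T m (FlatW P) ≤ (S.card : ℝ) * Real.log x := by
    calc ThW P.f P.T m (FlatW P) ≤ ∑ p ∈ S, Real.log p := by
          unfold ThW
          apply sum_le_sum_of_subset_of_nonneg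
          · intro p hp
            rw [mem_filter, prs, mem_filter, mem_Ioc] at hp
            obtain ⟨⟨⟨hp1, hp2⟩, hpp⟩, hnf⟩ := hp
            have hpm : m < p := by
              have : 1 * m ≤ (P.f + 3) * m := Nat.mul_le_mul_right _ (by omega)
              omega
            rw [hXq] at hp2
            have hnD : ¬ p ∣ P.D := fun h => by
              have := Nat.le_of_dvd (by have := hP.hD; omega) h
              omega
            rw [hS, mem_filter, mem_range]
            refine ⟨by omega, hpp, by omega, ?_⟩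
            by_contra hcon
            apply hnf
            refine ⟨hnD, ?_⟩
            intro k hk1 hk2 hk3
            by_contra hk4
            exact hcon ⟨k, hk1, hk2, hw k hk1 hk3, hk4⟩
          · intro p _ _
            exact Real.log_natCast_nonneg p
      _ ≤ ∑ p ∈ S, Real.log x := by
          apply sum_le_sum
          intro p hp
          rw [hS, mem_filter, mem_range] at hp
          apply Real.log_le_log
          · exact_mod_cast hp.2.1.pos
          · exact_mod_cast (by omega : p ≤ x)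
      _ = _ := by rw [sum_const, nsmul_eq_mul]
  have hxm' : (x : ℝ) ≤ q * (m + 1) := by exact_mod_cast hxm.le
  have hdd : 0 < δ' - δ * A := by linarith
  have e3 : δ' * q ≤ (δ' - δ * A) * x := by
    rw [div_le_iff₀ hdd] at hxl
    linarith
  have hqpos : (0 : ℝ) < q := by exact_mod_cast hq0
  have e4 : (q : ℝ) * (δ * x * (4 * P.T * (P.f + 1))) ≤ q * (δ' * m) := by
    have h4 : (q : ℝ) * (δ * x * (4 * P.T * (P.f + 1))) = δ * A * x := by
      rw [← hqr]
      ring
    rw [h4]
    have h5 : δ' * x ≤ δ' * (q * (m + 1)) := mul_le_mul_of_nonneg_left hxm' hd0.le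
    linarith
  have e5 := le_of_mul_le_mul_left e4 hqpos
  have hpos : (0 : ℝ) < 4 * P.T * (P.f + 1) := by positivity
  have e6 : (4 * (P.T : ℝ) * (P.f + 1)) * (δ * x) ≤
      (4 * (P.T : ℝ) * (P.f + 1)) * ThW P.f P.T m (FlatW P) := by
    linarith
  have e7 := le_of_mul_le_mul_left e6 hpos
  rw [← mul_div_assoc, div_le_iff₀ hlx]
  exact e7.trans h8

end MP_a3a416_nt.WIN
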