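import Pool.Agent.Lib.MP_a3a416_nt.WIN.VTL

/-! # WIN-PolarW: regular and polar parts of the local functions for `|n| < 2p` -/

set_option autoImplicit false

open Polynomial

namespace MP_a3a416_nt.WIN

open MP_a3a416_nt.SJ MP_a3a416_nt.SJ5

private theorem hh_sub_hr {p : ℕ} (hp : 0 < p) (n : ℤ) (h1 : -(2 * (p : ℤ)) ≤ n)
    (h2 : n < 2 * p) (r : ℕ) :
    hh r n = hr p r n +
      if InO p n then (if 0 ≤ n then ((p : ℚ)⁻¹) ^ r else -((-(p : ℚ))⁻¹) ^ r) else 0 := by
  have hp0 : 0 < (p : ℤ) := by exact_mod_cast hp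
  have hdiv : ∀ b : ℤ, -(2 * p : ℤ) < b → b < 2 * p → b ≠ 0 → (p : ℤ) ∣ b →
      (b = p ∨ b = -p) := by
    rintro b hb1 hb2 hb0 ⟨q, rfl⟩
    have hq1 : -2 < q := by
      by_contra h
      push Not at h
      nlinarith
    have hq2 : q < 2 := by
      by_contra h
      push Not at h
      nlinarith
    have hq0 : q ≠ 0 := by
      rintro rfl
      simp at hb0
    have : q = 1 ∨ q = -1 := by omega
    rcases this with h | h
    · left; rw [h]; ring
    · right; rw [h]; ring
  have hsplit : ∀ s : Finset ℤ,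
      ∑ b ∈ s, ((b : ℚ)⁻¹) ^ r =
      ∑ b ∈ s.filter (fun b => ¬ (p : ℤ) ∣ b), ((b : ℚ)⁻¹) ^ r +
      ∑ b ∈ s.filter (fun b => (p : ℤ) ∣ b), ((b : ℚ)⁻¹) ^ r := by
    intro s
    rw [← Finset.sum_filter_add_sum_filter_not s (fun b => ¬ (p : ℤ) ∣ b)]
    simp only [not_not]
  unfold hh hr
  rw [hsplit (Finset.Ioc 0 n), hsplit (Finset.Ioo n 0)]
  by_cases hO : InO p n
  · rw [if_pos hO]
    rcases hO with h | h
    · have e1 : (Finset.Ioc 0 n).filter (fun b => (p : ℤ) ∣ b) = {(p : ℤ)} := by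
        ext b
        simp only [Finset.mem_filter, Finset.mem_Ioc, Finset.mem_singleton]
        constructor
        · rintro ⟨⟨a1, a2⟩, a4⟩
          rcases hdiv b (by omega) (by omega) (by omega) a4 with h' | h' <;> omega
        · rintro rfl
          exact ⟨⟨hp0, h⟩, dvd_rfl⟩
      have e2 : (Finset.Ioo n 0).filter (fun b => (p : ℤ) ∣ b) = ∅ := by
        ext b
        simp only [Finset.mem_filter, Finset.mem_Ioo, Finset.notMem_empty, iff_false]
        rintro ⟨⟨a1, a2⟩, a4⟩
        omega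
      rw [e1, e2, if_pos (by omega), Finset.sum_singleton, Finset.sum_empty]
      push_cast
      ring
    · have e1 : (Finset.Ioc 0 n).filter (fun b => (p : ℤ) ∣ b) = ∅ := by
        ext b
        simp only [Finset.mem_filter, Finset.mem_Ioc, Finset.notMem_empty, iff_false]
        rintro ⟨⟨a1, a2⟩, a4⟩
        omega
      have e2 : (Finset.Ioo n 0).filter (fun b => (p : ℤ) ∣ b) = {-(p : ℤ)} := by
        ext b
        simp only [Finset.mem_filter, Finset.mem_Ioo, Finset.mem_singleton]
        constructor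
        · rintro ⟨⟨a1, a2⟩, a4⟩
          rcases hdiv b (by omega) (by omega) (by omega) a4 with h' | h' <;> omega
        · rintro rfl
          exact ⟨⟨h, by omega⟩, by simp⟩
      rw [e1, e2, if_neg (by omega), Finset.sum_empty, Finset.sum_singleton]
      push_cast
      ring
  · rw [if_neg hO]
    have e1 : (Finset.Ioc 0 n).filter (fun b => (p : ℤ) ∣ b) = ∅ := by
      ext b
      simp only [Finset.mem_filter, Finset.mem_Ioc, Finset.notMem_empty, iff_false]
      rintro ⟨⟨a1, a2⟩, a4⟩
      apply hO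
      rcases hdiv b (by omega) (by omega) (by omega) a4 with h' | h'
      · exact Or.inl (by omega)
      · omega
    have e2 : (Finset.Ioo n 0).filter (fun b => (p : ℤ) ∣ b) = ∅ := by
      ext b
      simp only [Finset.mem_filter, Finset.mem_Ioo, Finset.notMem_empty, iff_false]
      rintro ⟨⟨a1, a2⟩, a4⟩
      apply hO
      rcases hdiv b (by omega) (by omega) (by omega) a4 with h' | h'
      · omega
      · exact Or.inr (by omega)
    rw [e1, e2, Finset.sum_empty]
    ring

private theorem PolarW_sq (j : ℕ) : ((-1 : ℚ)) ^ j * (-1) ^ j = 1 := by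
  rw [← mul_pow]
  norm_num

theorem gW_split (P : Par) {p : ℕ} (hp : 0 < p) (β : Bk P) (n : ℤ) (h1 : -(2 * (p : ℤ)) ≤ n)
    (h2 : n < 2 * p) : gW P β n = gR P p β n + gP P p β n := by
  rcases β with _ | _ | i
  · simp [gW, gR, gP]
  · simp [gW, gR, gP]
  · simp only [gW, gR, gP]
    set r := P.r0 + (i : ℕ) with hr
    ext j
    rw [map_add]
    simp only [Gf, Gr, PowerSeries.coeff_mk]
    rw [hh_sub_hr hp n h1 h2 (r + j)]
    by_cases hO : InO p n
    · rw [if_pos hO, if_pos hO, PowerSeries.coeff_C_mul]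
      simp only [piW, PowerSeries.coeff_mk, sg]
      by_cases hn : 0 ≤ n
      · rw [if_pos hn, if_pos hn, one_pow]
        ring
      · rw [if_neg hn, if_neg hn, neg_neg, one_pow, inv_neg, neg_pow ((p : ℚ)⁻¹) (r + j),
          pow_add (-1 : ℚ) r j, pow_succ (-1 : ℚ) r]
        linear_combination (-((P.D : ℚ) * ((r + j).choose j : ℚ) * (-1) ^ r * (p : ℚ)⁻¹ ^ (r + j))) *
          PolarW_sq j
    · rw [if_neg hO, if_neg hO, map_zero]
      ring

theorem VT_gR (P : Par) (hP : P.Ok) {p : ℕ} (hp : p.Prime) (β : Bk P) (n : ℤ) :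
    VT P.T p 0 (gR P p β n) := by
  have : Fact p.Prime := ⟨hp⟩
  rcases β with _ | _ | i
  · exact VT.one
  · exact VT.X
  · simp only [gR]
    intro k hk
    simp only [Gr, PowerSeries.coeff_mk]
    rw [mul_add]
    have hhr : ∀ s : ℕ, val p (hr p s n) 0 := by
      intro s
      unfold hr
      refine val.sub (val.sum fun b hb => ?_) (val.sum fun b hb => ?_)
      · have := (val.inv_of_not_dvd (Finset.mem_filter.1 hb).2).pow s
        simpa using this
      · have := (val.inv_of_not_dvd (Finset.mem_filter.1 hb).2).pow s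
        simpa using this
    refine val.add ?_ ?_
    · have e : (P.D : ℚ) * ((-1) ^ k * ((P.r0 + (i : ℕ) + k).choose k : ℚ) * hr p (P.r0 + (i : ℕ) + k) n)
          = (((P.D : ℤ) * ((-1) ^ k * ((P.r0 + (i : ℕ) + k).choose k : ℤ)) : ℤ) : ℚ)
            * hr p (P.r0 + (i : ℕ) + k) n := by
        push_cast
        ring
      rw [e]
      exact (hhr _).int_mul _
    · obtain ⟨z, hz⟩ := hP.hint (P.r0 + (i : ℕ)) k (by omega) (by omega) hk
      rw [hz]
      exact val.int z

end MP_a3a416_nt.WIN
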