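import Pool.Agent.Lib.MP_a3a416_nt.WIN.VTL
import Pool.Agent.Lib.MP_a3a416_nt.SJ5.HFGen

/-! # WIN-ShiftW: the shift relation of the local functions and its regular version -/

set_option autoImplicit false

open Polynomial

namespace MP_a3a416_nt.WIN

open MP_a3a416_nt.SJ MP_a3a416_nt.SJ5

private theorem hr_step (p r : ℕ) (n : ℤ) :
    hr p r n = hr p r (n - 1) + (if (p : ℤ) ∣ n then 0 else ((n : ℚ)⁻¹) ^ r) := by
  unfold hr
  rcases lt_trichotomy n 0 with h | h | h
  · have h1 : Finset.Ioc 0 n = ∅ := by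
      ext x; simp only [Finset.mem_Ioc, Finset.notMem_empty, iff_false]; omega
    have h2 : Finset.Ioc 0 (n - 1) = ∅ := by
      ext x; simp only [Finset.mem_Ioc, Finset.notMem_empty, iff_false]; omega
    have h3 : Finset.Ioo (n - 1) 0 = insert n (Finset.Ioo n 0) := by
      ext x; simp only [Finset.mem_Ioo, Finset.mem_insert]; omega
    have h4 : n ∉ Finset.Ioo n 0 := by simp
    rw [h1, h2, h3, Finset.filter_insert]
    by_cases hd : (p : ℤ) ∣ n
    · simp [hd]
    · rw [if_pos hd, Finset.sum_insert (by simp), if_neg hd]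
      simp
  · subst h
    have h3 : Finset.Ioo (0 - 1 : ℤ) 0 = ∅ := by
      ext x; simp only [Finset.mem_Ioo, Finset.notMem_empty, iff_false]; omega
    have h2 : Finset.Ioc 0 (0 - 1 : ℤ) = ∅ := by
      ext x; simp only [Finset.mem_Ioc, Finset.notMem_empty, iff_false]; omega
    rw [h3, h2]
    simp
  · have h1 : Finset.Ioo n 0 = ∅ := by
      ext x; simp only [Finset.mem_Ioo, Finset.notMem_empty, iff_false]; omega
    have h2 : Finset.Ioo (n - 1) 0 = ∅ := by
      ext x; simp only [Finset.mem_Ioo, Finset.notMem_empty, iff_false]; omega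
    have h3 : Finset.Ioc 0 n = insert n (Finset.Ioc 0 (n - 1)) := by
      ext x; simp only [Finset.mem_Ioc, Finset.mem_insert]; omega
    rw [h1, h2, h3, Finset.filter_insert]
    by_cases hd : (p : ℤ) ∣ n
    · simp [hd]
    · rw [if_pos hd, Finset.sum_insert (by simp), if_neg hd]
      simp
      ring

private theorem tp_Xpow (r : ℕ) (n : ℤ) :
    tp (X ^ r) n = (PowerSeries.C (n : ℚ) + PowerSeries.X) ^ r := by
  rw [tp_pow, tp_X]

theorem Gf_shift (P : Par) {r : ℕ} (hr : 1 ≤ r) (n : ℤ) :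
    tp (X ^ (r + 1)) n * (Gf P r n - Gf P r (n - 1)) = PowerSeries.C ((P.D : ℚ) * n) := by
  have h1 : Gf P r n - Gf P r (n - 1) = PowerSeries.C (P.D : ℚ) * geoA n r := by
    ext j
    rw [map_sub, Gf, Gf, PowerSeries.coeff_mk, PowerSeries.coeff_mk, PowerSeries.coeff_C_mul, geoA,
      PowerSeries.coeff_mk]
    have h2 := harm_step (r + j) (by omega) n
    have h3 : hh (r + j) n - hh (r + j) (n - 1) = ((n : ℚ)⁻¹) ^ (r + j) := h2
    linear_combination ((P.D : ℚ) * ((-1) ^ j * ((r + j).choose j : ℚ))) * h3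
  rw [h1, tp_Xpow]
  by_cases hn : n = 0
  · subst hn
    have h2 : geoA 0 r = 0 := by
      ext j
      simp only [geoA, PowerSeries.coeff_mk, map_zero]
      rw [Int.cast_zero, inv_zero, zero_pow (by omega), mul_zero]
    rw [h2]
    simp
  · rw [mul_left_comm, geoA_pow n hn, ← map_mul]

theorem Gr_step (P : Par) (p : ℕ) {r : ℕ} (hr : 1 ≤ r) {n : ℤ} (h : ¬ (p : ℤ) ∣ n) :
    tp (X ^ (r + 1)) n * (Gr P p r n - Gr P p r (n - 1)) = PowerSeries.C ((P.D : ℚ) * n) := by
  have h1 : Gr P p r n - Gr P p r (n - 1) = PowerSeries.C (P.D : ℚ) * geoA n r := by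
    ext j
    rw [map_sub, Gr, Gr, PowerSeries.coeff_mk, PowerSeries.coeff_mk, PowerSeries.coeff_C_mul, geoA,
      PowerSeries.coeff_mk, hr_step p (r + j) n, if_neg h]
    ring
  have hn : n ≠ 0 := by
    rintro rfl
    exact h (dvd_zero _)
  rw [h1, tp_Xpow, mul_left_comm, geoA_pow n hn, ← map_mul]

theorem Gr_step_dvd (P : Par) (p : ℕ) {r : ℕ} (hr : 1 ≤ r) {n : ℤ} (h : (p : ℤ) ∣ n) :
    Gr P p r n = Gr P p r (n - 1) := by
  ext j
  rw [Gr, Gr, PowerSeries.coeff_mk, PowerSeries.coeff_mk, hr_step p (r + j) n, if_pos h, add_zero]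

theorem coeff_Gr_zero (P : Par) (p r j : ℕ) :
    PowerSeries.coeff j (Gr P p r 0) = (P.D : ℚ) * kap P r j := by
  rw [Gr, PowerSeries.coeff_mk]
  have h : hr p (r + j) 0 = 0 := by simp [hr]
  rw [h, mul_zero, zero_add]

end MP_a3a416_nt.WIN
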