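import Pool.Agent.Lib.MP_a3a416_nt.WIN.ZeroG
import Pool.Agent.Lib.MP_a3a416_nt.WIN.ShiftW
import Pool.Agent.Lib.MP_a3a416_nt.SJ.UnitCols

/-! # WIN-RowsW: the unit columns exist -/

set_option autoImplicit false

open Polynomial

namespace MP_a3a416_nt.WIN

open MP_a3a416_nt.SJ MP_a3a416_nt.SJ5

private theorem JW_sum (P : Par) (β : Bk P) {M : ℕ} (g : Fin M → ℚ) (n : ℤ) (k : ℕ) :
    PowerSeries.coeff k (JW P β (∑ i, C (g i) * X ^ (i : ℕ)) n) =
      ∑ i, g i * PowerSeries.coeff k (JW P β (X ^ (i : ℕ)) n) := by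
  rw [JW_eq, tp_sum, Finset.sum_mul, map_sum]
  refine Finset.sum_congr rfl fun i _ => ?_
  rw [tp_mul, tp_C, JW_eq, mul_assoc, PowerSeries.coeff_C_mul]

theorem cols_independentW (P : Par) (hP : P.Ok) {N K A : ℕ} (hA : 1 ≤ A) (hAK : A ≤ K)
    (hC : 2 * (K + (P.f + 1) * A) + (P.r0 + P.f) * ((P.f + 1) * (P.f + 2)) + 2 * (P.T * (P.f + 1)) ≤
      2 * (P.T * (2 * N + 1))) :
    LinearIndependent ℚ (fun (y : ColW P K A) (r : RowT P N) =>
      PowerSeries.coeff r.2 (JW P y.1 (X ^ (y.2 : ℕ)) (nd r))) := by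
  rw [Fintype.linearIndependent_iff]
  intro g hg
  set Q : Bk P → ℚ[X] := fun β => ∑ i : Fin (lenW P K A β), C (g ⟨β, i⟩) * X ^ (i : ℕ) with hQ
  have hQdeg : ∀ β, (Q β).degree < (lenW P K A β : ℕ) := by
    intro β
    simp only [hQ]
    refine lt_of_le_of_lt (degree_sum_le _ _) ?_
    rw [Finset.sup_lt_iff (by exact WithBot.bot_lt_coe _)]
    intro i _
    refine lt_of_le_of_lt (degree_C_mul_X_pow_le _ _) ?_
    exact_mod_cast i.2
  have hrow : ∀ (n : ℤ), |n| ≤ N → ∀ k : ℕ, k < P.T →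
      ∑ β, PowerSeries.coeff k (JW P β (Q β) n) = 0 := by
    intro n hn k hk
    rw [abs_le] at hn
    have h3 := congrFun hg (⟨(n + N).toNat, by omega⟩, ⟨k, hk⟩)
    simp only [Finset.sum_apply, Pi.smul_apply, smul_eq_mul, Pi.zero_apply] at h3
    have hnode : nd ((⟨(n + N).toNat, by omega⟩, ⟨k, hk⟩) : RowT P N) = n := by
      simp only [nd]
      omega
    rw [hnode, Fintype.sum_sigma] at h3
    rw [← h3]
    refine Finset.sum_congr rfl fun β _ => ?_
    simp only [hQ]
    rw [JW_sum]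
  have hD : (P.D : ℚ) ≠ 0 := by
    have := hP.hD
    exact_mod_cast (by omega : P.D ≠ 0)
  have hz := zeroG P.f P.r0 (by have := hP.hr0; omega) P.T N K A (P.D : ℚ) hD
    (fun i n => Gf P (P.r0 + i) n) (by
      intro i n
      have h := Gf_shift P (r := P.r0 + i) (by have := hP.hr0; omega) n
      rw [tp_pow, tp_X] at h
      exact h) (by have := hP.hT; omega) hA hAK hP.hf hC
    (Q none) (Q (some none)) (fun i => Q (some (some i))) (hQdeg none) (hQdeg (some none))
    (fun i => hQdeg (some (some i))) (by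
      intro n hn1 hn2
      rw [PowerSeries.X_pow_dvd_iff]
      intro k hk
      have h1 : ((taylor (n : ℚ) (Q none) : ℚ[X]) : PowerSeries ℚ)
          + PowerSeries.X * ((taylor (n : ℚ) (Q (some none)) : ℚ[X]) : PowerSeries ℚ)
          + ∑ i : Fin P.f, Gf P (P.r0 + i) n * ((taylor (n : ℚ) (Q (some (some i))) : ℚ[X]) : PowerSeries ℚ)
          = ∑ β, JW P β (Q β) n := by
        rw [sum_bk, JW_none, JW_eq, ← add_assoc]
        congr 1
        · show _ = tp (Q none) n + tp (Q (some none)) n * PowerSeries.X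
          rw [mul_comm]
          rfl
        · refine Finset.sum_congr rfl fun i _ => ?_
          rw [JW_eq, mul_comm]
          rfl
      rw [h1, map_sum]
      exact hrow n (abs_le.2 ⟨hn1, hn2⟩) k hk)
  have hQz : ∀ β, Q β = 0 := by
    rintro (_ | _ | i)
    · exact hz.1
    · exact hz.2.1
    · exact hz.2.2 i
  rintro ⟨β, i⟩
  have h4 := congrArg (fun q : ℚ[X] => q.coeff i) (hQz β)
  simp only [hQ, finsetSum_coeff, coeff_C_mul, coeff_X_pow, coeff_zero] at h4
  rw [Finset.sum_eq_single i] at h4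
  · simpa using h4
  · intro b _ hb
    rw [if_neg (fun h => hb (Fin.ext h.symm)), mul_zero]
  · intro h
    exact absurd (Finset.mem_univ i) h

theorem exists_rowsW (P : Par) (hP : P.Ok) {N K A c0 : ℕ}
    (hR : K + (P.f + 1) * A + c0 = P.T * (2 * N + 1)) (hA : 1 ≤ A) (hAK : A ≤ K)
    (hC : 2 * (K + (P.f + 1) * A) + (P.r0 + P.f) * ((P.f + 1) * (P.f + 2)) + 2 * (P.T * (P.f + 1)) ≤
      2 * (P.T * (2 * N + 1))) :
    ∃ (rr : Fin c0 → RowT P N) (e : (ColW P K A ⊕ Fin c0) ≃ RowT P N), sdet e (VhT P K A rr) ≠ 0 := by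
  obtain ⟨rr, -, hrr⟩ := exists_unit_columns (I := RowT P N) (K := ColW P K A) (c0 := c0)
    (by rw [card_rowT, card_colW, ← hR]) (fun r y => PowerSeries.coeff r.2 (JW P y.1 (X ^ (y.2 : ℕ)) (nd r)))
    (cols_independentW P hP hA hAK hC)
  have hcard : Fintype.card (ColW P K A ⊕ Fin c0) = Fintype.card (RowT P N) := by
    rw [Fintype.card_sum, card_colW, card_rowT, Fintype.card_fin, hR]
  let e : (ColW P K A ⊕ Fin c0) ≃ RowT P N := Fintype.equivOfCardEq hcard
  refine ⟨rr, e, ?_⟩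
  have h3 := hrr e
  have h4 : sdet e (VhT P K A rr) = ((VhT P K A rr).submatrix id e.symm).det := by
    unfold sdet
    rw [← Matrix.det_submatrix_equiv_self e ((VhT P K A rr).submatrix id e.symm),
      Matrix.submatrix_submatrix]
    congr 2
    funext x
    simp
  have h5 : (VhT P K A rr).submatrix id e.symm = (Matrix.of (fun i j => Sum.elim
      (fun y : ColW P K A => PowerSeries.coeff i.2 (JW P y.1 (X ^ (y.2 : ℕ)) (nd i)))
        (fun t => if i = rr t then 1 else 0) (e.symm j)) : Matrix (RowT P N) (RowT P N) ℚ) := by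
    funext i j
    simp only [Matrix.submatrix_apply, id_eq, Matrix.of_apply, VhT, MT, colT]
    rcases e.symm j with y | t
    · rfl
    · simp only [Sum.elim_inr]
      exact coeff_ucT i (rr t)
  rw [h4, h5]
  exact h3

end MP_a3a416_nt.WIN
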