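import Pool.Agent.Lib.MP_a3a416_nt.WIN.FDefsW

/-! # WIN-SFbigW: the primes `p > h m` in the factorials
PROOF. `Y = al / h`.  Copy the private lemmas `val_fact`, `sum_div_le`, `SF_le` of `SJ/FBig.lean` (`M ≤ (Y+1) p`, `M ≤ p^2` imply `SF p M ≤ ∑_{y ∈ Icc 1 Y} max 0 (M - y p)`).
`M ≤ al m < (Y+1) h m ≤ (Y+1) p` (`Nat.lt_mul_div_succ`; `m = 0`: `M = 0`), `M ≤ al m ≤ h h m m < p^2`; `M ≤ al m` in the summands. -/

set_option autoImplicit false

namespace MP_a3a416_nt.WIN

open Finset MP_a3a416_nt.SJ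

private theorem val_fact (p i : ℕ) (hp : p.Prime) (h : i < p ^ 2) :
    padicValNat p i.factorial = i / p := by
  haveI := Fact.mk hp
  have hb : Nat.log p i < 2 := by
    rcases Nat.eq_zero_or_pos i with h0 | h0
    · subst h0
      simp
    · exact Nat.log_lt_of_lt_pow h0.ne' h
  rw [padicValNat_factorial hb]
  simp

private theorem sum_div_le (p M Y : ℕ) (hp : 0 < p) (hM : M ≤ (Y + 1) * p) :
    (∑ i ∈ range M, ((i / p : ℕ) : ℤ)) ≤ ∑ y ∈ Icc 1 Y, max 0 ((M : ℤ) - (y : ℤ) * p) := by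
  induction M with
  | zero =>
    simp only [range_zero, sum_empty]
    exact sum_nonneg fun y _ => le_max_left _ _
  | succ M ih =>
    have ih' := ih (by omega)
    rw [sum_range_succ]
    have hlt : M / p < Y + 1 := by
      rw [Nat.div_lt_iff_lt_mul hp]
      omega
    have h1 : ((M / p : ℕ) : ℤ) =
        ∑ y ∈ Icc 1 Y, (if (y : ℤ) * p ≤ (M : ℤ) then (1 : ℤ) else 0) := by
      rw [← sum_filter, sum_const, nsmul_eq_mul, mul_one]
      have h2 : (Icc 1 Y).filter (fun y : ℕ => (y : ℤ) * p ≤ (M : ℤ)) = Icc 1 (M / p) := by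
        ext y
        simp only [mem_filter, mem_Icc]
        constructor
        · rintro ⟨⟨h3, h4⟩, h5⟩
          refine ⟨h3, ?_⟩
          have h6 : y * p ≤ M := by exact_mod_cast h5
          exact (Nat.le_div_iff_mul_le hp).mpr h6
        · rintro ⟨h3, h4⟩
          have h6 : y * p ≤ M := (Nat.le_div_iff_mul_le hp).mp h4
          exact ⟨⟨h3, by omega⟩, by exact_mod_cast h6⟩
      rw [h2, Nat.card_Icc]
      simp
    rw [h1]
    refine (add_le_add_left ih' _).trans ?_
    rw [← sum_add_distrib]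
    refine sum_le_sum fun y _ => ?_
    push_cast
    split_ifs with h2
    · rw [max_eq_right (by linarith), max_eq_right (by linarith)]
      linarith
    · rw [add_zero]
      exact max_le_max le_rfl (by linarith)

theorem SF_leW (al h m p M : ℕ) (hh : 1 ≤ h) (hp : p.Prime) (h1 : h * m < p) (hM : M ≤ al * m)
    (hm : al ≤ h * h * m) :
    SF p M ≤ ∑ y ∈ Icc 1 (al / h), max 0 ((al * m : ℤ) - y * p) := by
  have hlt : al < h * (al / h + 1) := Nat.lt_mul_div_succ al (by omega)
  have hM1 : M ≤ (al / h + 1) * p := by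
    calc M ≤ al * m := hM
      _ ≤ (h * (al / h + 1)) * m := Nat.mul_le_mul_right m hlt.le
      _ = (al / h + 1) * (h * m) := by ring
      _ ≤ (al / h + 1) * p := Nat.mul_le_mul_left _ h1.le
  have hM2 : M ≤ p ^ 2 := by
    calc M ≤ al * m := hM
      _ ≤ (h * h * m) * m := Nat.mul_le_mul_right m hm
      _ = (h * m) ^ 2 := by ring
      _ ≤ p ^ 2 := Nat.pow_le_pow_left h1.le 2
  have h2 : SF p M = ∑ i ∈ range M, ((i / p : ℕ) : ℤ) := by
    unfold SF
    refine sum_congr rfl fun i hi => ?_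
    rw [val_fact p i hp (lt_of_lt_of_le (mem_range.mp hi) hM2)]
  rw [h2]
  refine (sum_div_le p M (al / h) hp.pos hM1).trans (sum_le_sum fun y _ => ?_)
  have : (M : ℤ) ≤ al * m := by exact_mod_cast hM
  exact max_le_max le_rfl (by linarith)

end MP_a3a416_nt.WIN
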