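import Pool.Agent.Lib.MP_a3a416_nt.WIN.SFbigW
import Pool.Agent.Lib.MP_a3a416_nt.WIN.BigAsyW
import Pool.Agent.Lib.MP_a3a416_nt.SJ.FId
import Pool.Agent.Lib.MP_a3a416_nt.SJ.FSL

/-! # WIN-SFsumW: the factorial part of the primes `p ≤ h m`
PROOF. `SJ.sum_SF_log (M m) (al m)`: `∑_{p ≤ al m} SF p (M m) log p = SL (M m)`; subtract the primes in `(h m, al m]` (`SF_leW` for `m ≥ al`; split `prs 0 (al m)` as in the private `prs_union` of `SJ5/FPosB.lean`).
`g m := SL (M m) - ∑_{prs (h m) (al m)} (∑_y max 0 ..) log p`; `SJ.SL_asy (al : ℝ) _ M e`, `big_asyW`, `Asy.sub`. -/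

set_option autoImplicit false

namespace MP_a3a416_nt.WIN

open Finset Filter MP_a3a416_nt.SJ

private theorem SFsumW_union (x y z : ℕ) (hxy : x ≤ y) (hyz : y ≤ z) (f : ℕ → ℝ) :
    ∑ p ∈ prs x z, f p = ∑ p ∈ prs x y, f p + ∑ p ∈ prs y z, f p := by
  unfold prs
  rw [← Ioc_union_Ioc_eq_Ioc hxy hyz, filter_union, sum_union]
  rw [disjoint_left]
  intro a ha hb
  simp only [mem_filter, mem_Ioc] at ha hb
  omega

theorem SFsumW (al h e0 : ℕ) (hh : 1 ≤ h) (hal : h ≤ al) (M : ℕ → ℕ)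
    (hM : ∀ m, M m ≤ al * m) (hM' : ∀ m, al * m ≤ M m + e0) :
    ∃ g : ℕ → ℝ, Asy g ((al : ℝ) ^ 2 / 2) ((al : ℝ) ^ 2 / 2 * (Real.log al - 3 / 2) - bsW al h) ∧
      ∀ᶠ m : ℕ in atTop, g m ≤ ∑ p ∈ prs 0 (h * m), (SF p (M m) : ℝ) * Real.log p := by
  have hal0 : (0 : ℝ) < al := by
    have : 0 < al := by omega
    exact_mod_cast this
  have h1 := SL_asy (al : ℝ) hal0 M (e0 : ℝ) (fun m => by
    have g1 : (M m : ℝ) ≤ al * m := by exact_mod_cast hM m
    have g2 : (al : ℝ) * m ≤ M m + e0 := by exact_mod_cast hM' m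
    rw [abs_le]
    constructor <;> linarith)
  have h2 := big_asyW al h hh hal
  refine ⟨_, (h1.sub h2).cast (by ring) rfl, ?_⟩
  filter_upwards [eventually_ge_atTop al] with m hm
  have h3 := sum_SF_log (M m) (al * m) (hM m)
  rw [SFsumW_union 0 (h * m) (al * m) (Nat.zero_le _) (Nat.mul_le_mul_right m hal)] at h3
  have h4 : ∑ p ∈ prs (h * m) (al * m), (SF p (M m) : ℝ) * Real.log p ≤
      ∑ p ∈ prs (h * m) (al * m),
        ((∑ y ∈ Icc 1 (al / h), max 0 ((al * m : ℤ) - y * p) : ℤ) : ℝ) * Real.log p := by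
    refine sum_le_sum fun p hp => ?_
    have hp1 := mem_filter.mp hp
    have hp2 := mem_Ioc.mp hp1.1
    refine mul_le_mul_of_nonneg_right ?_ (Real.log_natCast_nonneg p)
    have h5 : al ≤ h * h * m := by
      calc al ≤ m := hm
        _ = 1 * m := (one_mul m).symm
        _ ≤ h * h * m := Nat.mul_le_mul_right m (Nat.mul_pos hh hh)
    exact Int.cast_le.2 (SF_leW al h m p (M m) hh hp1.2 hp2.1 (hM m) h5)
  linarith

end MP_a3a416_nt.WIN
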