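import Pool.Agent.Lib.MP_a3a416_nt.SJ5.VS
import Pool.Agent.Lib.MP_a3a416_nt.WIN.Defs

/-!
# WIN-VTL: algebra of `VT T p b f` (the coefficients of `u^k`, `k < T`, have valuation at least `b`)
-/

open Polynomial

namespace MP_a3a416_nt.WIN

open MP_a3a416_nt.SJ MP_a3a416_nt.SJ5

namespace VT

variable {T p : ℕ} [hp : Fact p.Prime] {f g : PowerSeries ℚ} {a b : ℤ}

omit hp in
theorem zero (a : ℤ) : VT T p a 0 := fun k _ => by simpa using val.zero a

omit hp in
theorem mono (h : VT T p a f) (hab : b ≤ a) : VT T p b f := fun k hk => (h k hk).mono hab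

theorem add (hf : VT T p a f) (hg : VT T p a g) : VT T p a (f + g) := fun k hk => by
  rw [map_add]; exact (hf k hk).add (hg k hk)

omit hp in
theorem neg (hf : VT T p a f) : VT T p a (-f) := fun k hk => by
  rw [map_neg]; exact (hf k hk).neg

theorem sub (hf : VT T p a f) (hg : VT T p a g) : VT T p a (f - g) := by
  rw [sub_eq_add_neg]; exact hf.add hg.neg

theorem mul (hf : VT T p a f) (hg : VT T p b g) : VT T p (a + b) (f * g) := fun k hk => by
  rw [PowerSeries.coeff_mul]
  apply val.sum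
  intro x hx
  rw [Finset.HasAntidiagonal.mem_antidiagonal] at hx
  exact (hf x.1 (by omega)).mul (hg x.2 (by omega))

theorem sum {ι : Type*} {s : Finset ι} {F : ι → PowerSeries ℚ} (h : ∀ i ∈ s, VT T p a (F i)) :
    VT T p a (∑ i ∈ s, F i) := fun k hk => by
  rw [map_sum]
  exact val.sum fun i hi => h i hi k hk

omit hp in
theorem C {x : ℚ} (hx : val p x a) : VT T p a (PowerSeries.C x) := fun k _ => by
  rw [PowerSeries.coeff_C]
  split_ifs
  · exact hx
  · exact val.zero _

omit hp in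
theorem one : VT T p 0 1 := by
  have := VT.C (T := T) (p := p) val.one
  rwa [map_one] at this

omit hp in
theorem X : VT T p 0 PowerSeries.X := fun k _ => by
  rw [PowerSeries.coeff_X]
  split_ifs
  · exact val.one
  · exact val.zero _

theorem pow (hf : VT T p a f) (k : ℕ) : VT T p (k * a) (f ^ k) := by
  induction k with
  | zero => simpa using VT.one
  | succ k ih =>
    rw [pow_succ]
    refine (ih.mul hf).mono (le_of_eq ?_)
    push_cast; ring

theorem mul_left (hf : VT T p 0 f) (hg : VT T p b g) : VT T p b (f * g) := by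
  simpa using hf.mul hg

theorem mul_right (hf : VT T p a f) (hg : VT T p 0 g) : VT T p a (f * g) := by
  simpa using hf.mul hg

omit hp in
theorem congr (h : VT T p a f) (e : f = g) : VT T p a g := e ▸ h

end VT

theorem VT_tp_X_pow {T p : ℕ} (i : ℕ) (n : ℤ) : VT T p 0 (tp (X ^ i) n) := fun k _ =>
  val_coeff_tp_X_pow i n k

/-- a polynomial with `p`-integral coefficients -/
theorem VT_tp {T p : ℕ} [hp : Fact p.Prime] {Q : ℚ[X]} (hQ : ∀ j, val p (Q.coeff j) 0) (n : ℤ) :
    VT T p 0 (tp Q n) := by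
  have h : tp Q n = ∑ j ∈ Q.support, PowerSeries.C (Q.coeff j) * tp (X ^ j) n := by
    conv_lhs => rw [Q.as_sum_support_C_mul_X_pow]
    rw [tp_sum]
    exact Finset.sum_congr rfl fun j _ => by rw [tp_mul, tp_C]
  rw [h]
  exact VT.sum fun j _ => (VT.C (hQ j)).mul_left (VT_tp_X_pow j n)

/-- `z = n - (n+u)^p` vanishes modulo `(p, u^T)`, `T ≤ p` -/
theorem VT_z {T p : ℕ} [hp : Fact p.Prime] (hT : T ≤ p) (n : ℤ) :
    VT T p 1 (PowerSeries.C (n : ℚ) - tp (X ^ p) n) := by
  intro k hk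
  rw [map_sub, PowerSeries.coeff_C, coeff_tp_X_pow]
  rcases Nat.eq_zero_or_pos k with h0 | h0
  · subst h0
    rw [if_pos rfl, Nat.sub_zero, Nat.choose_zero_right, Nat.cast_one, mul_one]
    have h3 : (p : ℤ) ^ 1 ∣ n - n ^ p := by
      rw [pow_one, ← ZMod.intCast_zmod_eq_zero_iff_dvd]
      push_cast
      rw [ZMod.pow_card, sub_self]
    have := val.of_dvd h3
    push_cast at this
    exact this
  · rw [if_neg h0.ne', zero_sub]
    apply val.neg
    have h3 : (p : ℤ) ^ 1 ∣ n ^ (p - k) * ((p.choose k : ℕ) : ℤ) := by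
      rw [pow_one]
      apply Dvd.dvd.mul_left
      exact_mod_cast hp.out.dvd_choose_self h0.ne' (by omega)
    have := val.of_dvd h3
    push_cast at this
    exact this

/-- for `p ∣ n` the powers `(n + u)^i`, `T ≤ i`, vanish modulo `(p, u^T)` -/
theorem VT_tp_pow_of_dvd {T p : ℕ} [hp : Fact p.Prime] {i : ℕ} (hi : T ≤ i) {n : ℤ}
    (h : (p : ℤ) ∣ n) : VT T p 1 (tp (X ^ i) n) := by
  intro k hk
  rw [coeff_tp_X_pow]
  have h3 : (p : ℤ) ^ 1 ∣ n ^ (i - k) * ((i.choose k : ℕ) : ℤ) := by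
    apply Dvd.dvd.mul_right
    exact (pow_dvd_pow_of_dvd h 1).trans (pow_dvd_pow n (by omega))
  have := val.of_dvd h3
  push_cast at this
  exact this

/-- `y(n+u) ≡ u` modulo `(p, u^T)` -/
theorem VT_Yp {T p : ℕ} [hp : Fact p.Prime] (hT : T ≤ p) (n : ℤ) :
    VT T p 1 (PowerSeries.X - tp (Yp p) n) := by
  refine (VT_z hT n).neg.congr ?_
  rw [Yp, tp_sub, tp_X]
  ring

end MP_a3a416_nt.WIN
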