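import Pool.Agent.Lib.MP_a3a416_nt.SJ5.Zero6

/-!
# WIN-ZeroG
ZERO ESTIMATE for the functions `1`, `u`, `G_0, …, G_{f-1}`, where
`(n+u)^(r0+i+1) (G_i(n) - G_i(n-1)) = Δ n`, `Δ ≠ 0`, `r0 ≥ 1`: order `T` at consecutive nodes.
-/

open Polynomial BBZ MP_a3a416_nt.SJ MP_a3a416_nt.SJ5

namespace MP_a3a416_nt.WIN

/-- `g(x+1) = g(x) + S(x) (x+1)^{-E}` has no solution in `ℚ(x)` if `S ≠ 0`, `deg S < E` -/
theorem no_sol_poly (E : ℕ) (S : ℚ[X]) (hS : S ≠ 0) (hd : S.natDegree < E) (g : RatFunc ℚ)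
    (h : sh g = g + algebraMap ℚ[X] (RatFunc ℚ) S * x1⁻¹ ^ E) : False := by
  have hpow : ∀ (x : ℚ), x ≠ -1 → ∀ k : ℕ, Reg x (x1⁻¹ ^ k) := by
    intro x hx k
    induction k with
    | zero => simpa using Reg.poly x 1
    | succ k ih => rw [pow_succ]; exact ih.mul (x1_inv_reg x hx)
  refine no_solution_gen _ g (fun x hx => (Reg.poly _ _).mul (hpow x hx _)) ?_ h
  rintro ⟨p, q, hq, e1⟩
  have hx0 := x1_ne
  have e2 : S * q = p * (X + 1) ^ E := by
    apply alg_inj
    simp only [map_mul, map_pow]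
    rw [← e1]
    have hx1 : algebraMap ℚ[X] (RatFunc ℚ) (X + 1) = x1 := rfl
    rw [hx1]
    have hxy2 : x1 ^ E * x1⁻¹ ^ E = 1 := by
      rw [← mul_pow, mul_inv_cancel₀ hx0, one_pow]
    linear_combination (-(algebraMap ℚ[X] (RatFunc ℚ) S * algebraMap ℚ[X] (RatFunc ℚ) q)) * hxy2
  have hX : (X + 1 : ℚ[X]) = X - C (-1) := by rw [C_neg, C_1, sub_neg_eq_add]
  have hcop : IsCoprime ((X + 1 : ℚ[X]) ^ E) q := by
    refine IsCoprime.pow_left ?_
    rw [hX]
    refine ((irreducible_X_sub_C (-1 : ℚ)).coprime_iff_not_dvd).2 ?_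
    intro hdvd
    exact hq ((dvd_iff_isRoot).1 hdvd)
  have hdvd : (X + 1 : ℚ[X]) ^ E ∣ S := by
    refine hcop.dvd_of_dvd_mul_right ?_
    rw [e2]
    exact Dvd.intro_left _ rfl
  have h1 := natDegree_le_of_dvd hdvd hS
  rw [natDegree_pow, hX, natDegree_X_sub_C, mul_one] at h1
  omega

/-! ## the module -/

/-- the functions -/
noncomputable def gG {κ : Type*} (h : κ → ℤ → PowerSeries ℚ) : Fin 2 ⊕ κ → ℤ → PowerSeries ℚ
  | .inl a, _ => if a = 0 then 1 else PowerSeries.X
  | .inr k, n => h k n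

/-- the shift matrix -/
noncomputable def MG {κ : Type*} [DecidableEq κ] (E : ℕ) (Q : κ → ℚ[X]) : Fin 2 ⊕ κ → Fin 2 ⊕ κ → ℚ[X]
  | .inl a, .inl b => if a = b then (X + 1) ^ E else 0
  | .inl _, .inr _ => 0
  | .inr k, .inl a => if a = 0 then (X + 1) * taylor 1 (Q k) else -(taylor 1 (Q k))
  | .inr k, .inr k' => if k = k' then (X + 1) ^ E else 0

/-- the shift relation -/
def HQ (E : ℕ) (Q : ℚ[X]) (F : ℤ → PowerSeries ℚ) : Prop :=
  ∀ n : ℤ, (PowerSeries.C (n : ℚ) + PowerSeries.X) ^ E * F n =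
      (PowerSeries.C (n : ℚ) + PowerSeries.X) ^ E * F (n - 1) +
        PowerSeries.C (n : ℚ) * ((taylor (n : ℚ) Q : ℚ[X]) : PowerSeries ℚ)

theorem gG_shift {κ : Type*} [Fintype κ] [DecidableEq κ] (E : ℕ) (Q : κ → ℚ[X])
    (h : κ → ℤ → PowerSeries ℚ) (hsh : ∀ k, HQ E (Q k) (h k)) :
    IsShift (gG h) (MG E Q) (fun n => (PowerSeries.C ((n + 1 : ℤ) : ℚ) + PowerSeries.X) ^ E) := by
  intro n i
  have hX : (((taylor (n : ℚ) (X + 1 : ℚ[X])) : ℚ[X]) : PowerSeries ℚ) =
      PowerSeries.C ((n + 1 : ℤ) : ℚ) + PowerSeries.X := by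
    rw [map_add, taylor_X, taylor_one]
    push_cast
    rw [map_add, map_one]
    ring
  rcases i with a | k
  · simp only [Fintype.sum_sum_type, MG, gG]
    simp only [map_zero, Polynomial.coe_zero, zero_mul, Finset.sum_const_zero, add_zero]
    rw [Finset.sum_eq_single a]
    · rw [if_pos rfl, taylor_pow, Polynomial.coe_pow, hX]
    · intro b _ hb
      rw [if_neg (Ne.symm hb)]
      simp
    · intro h
      exact absurd (Finset.mem_univ a) h
  · have h2 := hsh k (n + 1)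
    rw [show n + 1 - 1 = n by ring] at h2
    have ht : taylor (n : ℚ) (taylor 1 (Q k)) = taylor ((n + 1 : ℤ) : ℚ) (Q k) := by
      rw [taylor_taylor]
      push_cast
      rfl
    simp only [Fintype.sum_sum_type, MG, gG, Fin.sum_univ_two]
    rw [Finset.sum_eq_single k]
    · simp only [one_ne_zero, if_true, if_false]
      rw [taylor_mul, map_neg, taylor_pow, ht, Polynomial.coe_mul, Polynomial.coe_neg, Polynomial.coe_pow, hX, h2]
      ring
    · intro b _ hb
      rw [if_neg (Ne.symm hb)]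
      simp
    · intro h
      exact absurd (Finset.mem_univ k) h

/-- NON-VANISHING -/
theorem det_ne_G {κ : Type*} [Fintype κ] [DecidableEq κ] (E : ℕ) (Q : κ → ℚ[X])
    (hQd : ∀ k, (Q k).natDegree + 2 ≤ E) (P : Fin 2 ⊕ κ → ℚ[X])
    (hli : LinearIndependent ℚ fun k => P (Sum.inr k)) (k0 : κ) (hk0 : Q k0 ≠ 0)
    {r : ℕ} (e : Fin 2 ⊕ κ ≃ Fin r) :
    (Matrix.of fun j i => (TP (MG E Q))^[(e j : ℕ)] P i).det ≠ 0 := by
  classical
  intro hdet
  set φ : ℚ[X] →+* RatFunc ℚ := algebraMap ℚ[X] (RatFunc ℚ) with hφ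
  set M := MG E Q with hM
  set v : Fin 2 ⊕ κ → RatFunc ℚ := fun i => φ (P i) with hv
  have hdet' : (Matrix.of fun (j i : Fin 2 ⊕ κ) => (TK M)^[(e j : ℕ)] v i).det = 0 := by
    have h1 : (Matrix.of fun (j i : Fin 2 ⊕ κ) => (TK M)^[(e j : ℕ)] v i) =
        φ.mapMatrix (Matrix.of fun j i => (TP M)^[(e j : ℕ)] P i) := by
      ext j i
      exact (congrFun (TP_iter_alg M P (e j)) i).symm
    rw [h1, ← RingHom.map_det, hdet, map_zero]
  obtain ⟨l, hl, hrel⟩ := annih_of_det e M v hdet'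
  set w : ℕ → Fin 2 ⊕ κ → RatFunc ℚ := fun j => (TK M)^[j] v with hw
  have hx0 := x1_ne
  have hxE : x1 ^ E * x1⁻¹ ^ E = 1 := by
    rw [← mul_pow, mul_inv_cancel₀ hx0, one_pow]
  set qq : κ → RatFunc ℚ := fun k => φ (taylor 1 (Q k)) * x1⁻¹ ^ E with hqq
  -- the components of the shift
  have hwr : ∀ j k, w (j + 1) (Sum.inr k) = x1 ^ E * sh (w j (Sum.inr k)) := by
    intro j k
    have h1 : w (j + 1) = TK M (w j) := Function.iterate_succ_apply' _ _ _
    rw [h1, TK, Fintype.sum_sum_type]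
    simp only [hM, MG, map_zero, mul_zero, Finset.sum_const_zero, zero_add]
    rw [Finset.sum_eq_single k]
    · rw [if_pos rfl, map_pow, mul_comm]
      rfl
    · intro b _ hb
      rw [if_neg hb]
      simp
    · intro h
      exact absurd (Finset.mem_univ k) h
  have hw0 : ∀ j, w (j + 1) (Sum.inl 0) = x1 ^ E * (sh (w j (Sum.inl 0)) +
      ∑ k, sh (w j (Sum.inr k)) * (x1 * qq k)) := by
    intro j
    have h1 : w (j + 1) = TK M (w j) := Function.iterate_succ_apply' _ _ _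
    rw [h1, TK, Fintype.sum_sum_type, Fin.sum_univ_two]
    have h2 : φ (X + 1) = x1 := rfl
    simp only [hM, MG, if_true, one_ne_zero, if_false, map_zero, mul_zero, add_zero, map_pow]
    rw [← hφ, h2, mul_add, Finset.mul_sum]
    congr 1
    · rw [mul_comm]
    · refine Finset.sum_congr rfl fun k _ => ?_
      rw [map_mul, h2, hqq]
      linear_combination (-(sh (w j (Sum.inr k)) * x1 * φ (taylor 1 (Q k)))) * hxE
  have hw1 : ∀ j, w (j + 1) (Sum.inl 1) = x1 ^ E * (sh (w j (Sum.inl 1)) -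
      ∑ k, sh (w j (Sum.inr k)) * qq k) := by
    intro j
    have h1 : w (j + 1) = TK M (w j) := Function.iterate_succ_apply' _ _ _
    rw [h1, TK, Fintype.sum_sum_type, Fin.sum_univ_two]
    have h2 : φ (X + 1) = x1 := rfl
    simp only [hM, MG, if_true, zero_ne_one, one_ne_zero, if_false, map_zero, mul_zero, zero_add, map_pow]
    rw [← hφ, h2, mul_sub, Finset.mul_sum, sub_eq_add_neg, ← Finset.sum_neg_distrib]
    congr 1
    · rw [mul_comm]
    · refine Finset.sum_congr rfl fun k _ => ?_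
      rw [map_neg, hqq]
      linear_combination (sh (w j (Sum.inr k)) * φ (taylor 1 (Q k))) * hxE
  -- (1) forms without the coordinates `1`, `u`
  have key1 : ∀ m : Fin 2 ⊕ κ → RatFunc ℚ, (∀ j, ∑ i, m i * w j i = 0) → m (Sum.inl 0) = 0 →
      m (Sum.inl 1) = 0 → m = 0 := by
    intro m hm h0 h1
    by_contra hne
    have h2 : (fun k => m (Sum.inr k)) ≠ 0 := by
      intro h
      apply hne
      funext i
      rcases i with a | k
      · fin_cases a
        · exact h0
        · exact h1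
      · exact congrFun h k
    obtain ⟨c, hc, hc2⟩ := const_relation (x1 ^ E) (pow_ne_zero E hx0) (fun j k => w j (Sum.inr k)) hwr _
      (fun k => m (Sum.inr k)) le_rfl h2 (by
        intro j
        have h3 := hm j
        rw [Fintype.sum_sum_type, Fin.sum_univ_two, h0, h1, zero_mul, zero_mul, add_zero, zero_add] at h3
        exact h3)
    apply hc
    have h3 : ∑ k, c k • P (Sum.inr k) = 0 := by
      apply alg_inj
      rw [map_sum, map_zero, ← hc2]
      refine Finset.sum_congr rfl fun k _ => ?_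
      rw [smul_eq_C_mul, map_mul]
      rfl
    funext k
    exact (Fintype.linearIndependent_iff.1 hli) c h3 k
  -- (2) the derived form
  have key2 : ∀ m : Fin 2 ⊕ κ → RatFunc ℚ, (∀ j, ∑ i, m i * w j i = 0) →
      ∃ m' : Fin 2 ⊕ κ → RatFunc ℚ, (∀ j, ∑ i, m' i * w j i = 0) ∧
        (∀ a, sh (m' (Sum.inl a)) = m (Sum.inl a) - sh (m (Sum.inl a))) ∧
        (∀ k, sh (m' (Sum.inr k)) = m (Sum.inr k) - sh (m (Sum.inr k)) +
          m (Sum.inl 0) * (x1 * qq k) - m (Sum.inl 1) * qq k) := by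
    intro m hm
    choose m0 hm0 using fun a => sh_surj (m (Sum.inl a) - sh (m (Sum.inl a)))
    choose m1 hm1 using fun k => sh_surj (m (Sum.inr k) - sh (m (Sum.inr k)) +
          m (Sum.inl 0) * (x1 * qq k) - m (Sum.inl 1) * qq k)
    refine ⟨Sum.elim m0 m1, ?_, hm0, hm1⟩
    intro j
    apply sh_inj
    rw [map_sum, map_zero, Fintype.sum_sum_type, Fin.sum_univ_two]
    simp only [Sum.elim_inl, Sum.elim_inr, map_mul, hm0, hm1]
    have h1 := hm (j + 1)
    rw [Fintype.sum_sum_type, Fin.sum_univ_two, hw0, hw1] at h1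
    simp only [hwr] at h1
    have h2 := congrArg sh (hm j)
    rw [map_sum, map_zero, Fintype.sum_sum_type, Fin.sum_univ_two] at h2
    simp only [map_mul] at h2
    have h3 : m (Sum.inl 0) * (sh (w j (Sum.inl 0)) + ∑ k, sh (w j (Sum.inr k)) * (x1 * qq k)) +
        m (Sum.inl 1) * (sh (w j (Sum.inl 1)) - ∑ k, sh (w j (Sum.inr k)) * qq k) +
        ∑ k, m (Sum.inr k) * sh (w j (Sum.inr k)) = 0 := by
      refine mul_left_cancel₀ (pow_ne_zero E hx0) ?_
      have h5 : x1 ^ E * ∑ k, m (Sum.inr k) * sh (w j (Sum.inr k)) =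
          ∑ k, m (Sum.inr k) * (x1 ^ E * sh (w j (Sum.inr k))) := by
        rw [Finset.mul_sum]
        exact Finset.sum_congr rfl fun k _ => by ring
      rw [mul_zero, ← h1, ← h5]
      ring
    have h4 : ∑ k, (m (Sum.inr k) - sh (m (Sum.inr k)) +
          m (Sum.inl 0) * (x1 * qq k) - m (Sum.inl 1) * qq k) * sh (w j (Sum.inr k)) =
        ∑ k, m (Sum.inr k) * sh (w j (Sum.inr k)) - ∑ k, sh (m (Sum.inr k)) * sh (w j (Sum.inr k)) +
        m (Sum.inl 0) * (∑ k, sh (w j (Sum.inr k)) * (x1 * qq k)) -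
        m (Sum.inl 1) * (∑ k, sh (w j (Sum.inr k)) * qq k) := by
      rw [Finset.mul_sum, Finset.mul_sum, ← Finset.sum_sub_distrib, ← Finset.sum_add_distrib,
        ← Finset.sum_sub_distrib]
      exact Finset.sum_congr rfl fun k _ => by ring
    rw [h4]
    linear_combination h3 - h2
  -- scaling
  have scale : ∀ (c : RatFunc ℚ) (m : Fin 2 ⊕ κ → RatFunc ℚ), (∀ j, ∑ i, m i * w j i = 0) →
      (∀ j, ∑ i, (c * m i) * w j i = 0) := by
    intro c m hm j
    rw [← mul_zero c, ← hm j, Finset.mul_sum]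
    exact Finset.sum_congr rfl fun i _ => by ring
  have shz : ∀ f : RatFunc ℚ, sh f = 0 → f = 0 := fun f hf => sh_inj (by rw [hf, map_zero])
  -- (3) an invariant form
  obtain ⟨m, hm, hm0, hinv⟩ : ∃ m : Fin 2 ⊕ κ → RatFunc ℚ, (∀ j, ∑ i, m i * w j i = 0) ∧ m ≠ 0 ∧
      (∀ a, sh (m (Sum.inl a)) = m (Sum.inl a)) ∧
        (∀ k, sh (m (Sum.inr k)) = m (Sum.inr k) +
          m (Sum.inl 0) * (x1 * qq k) - m (Sum.inl 1) * qq k) := by
    have fin : ∀ m m' : Fin 2 ⊕ κ → RatFunc ℚ,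
        (∀ a, sh (m' (Sum.inl a)) = m (Sum.inl a) - sh (m (Sum.inl a))) →
        (∀ k, sh (m' (Sum.inr k)) = m (Sum.inr k) - sh (m (Sum.inr k)) +
          m (Sum.inl 0) * (x1 * qq k) - m (Sum.inl 1) * qq k) → m' = 0 →
        (∀ a, sh (m (Sum.inl a)) = m (Sum.inl a)) ∧
        (∀ k, sh (m (Sum.inr k)) = m (Sum.inr k) +
          m (Sum.inl 0) * (x1 * qq k) - m (Sum.inl 1) * qq k) := by
      intro m m' h1 h2 h3
      subst h3
      refine ⟨fun a => ?_, fun k => ?_⟩
      · have h4 := h1 a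
        rw [Pi.zero_apply, map_zero] at h4
        exact (sub_eq_zero.1 h4.symm).symm
      · have h4 := h2 k
        rw [Pi.zero_apply, map_zero] at h4
        linear_combination h4
    by_cases hcase : ∃ m : Fin 2 ⊕ κ → RatFunc ℚ, (∀ j, ∑ i, m i * w j i = 0) ∧ m (Sum.inl 0) = 0 ∧
        m (Sum.inl 1) = 1
    · obtain ⟨m, hm, h0, h1⟩ := hcase
      obtain ⟨m', hm', ha, hk⟩ := key2 m hm
      have hz : m' = 0 := by
        refine key1 m' hm' (shz _ ?_) (shz _ ?_)
        · rw [ha, h0, map_zero, sub_zero]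
        · rw [ha, h1, map_one, sub_self]
      refine ⟨m, hm, ?_, fin m m' ha hk hz⟩
      intro h
      rw [h, Pi.zero_apply] at h1
      exact zero_ne_one h1
    · have h0 : l (Sum.inl 0) ≠ 0 := by
        intro h0
        have h1 : l (Sum.inl 1) ≠ 0 := fun h1 => hl (key1 l hrel h0 h1)
        apply hcase
        refine ⟨fun i => (l (Sum.inl 1))⁻¹ * l i, scale _ l hrel, ?_, ?_⟩
        · simp only [h0, mul_zero]
        · exact inv_mul_cancel₀ h1
      set m : Fin 2 ⊕ κ → RatFunc ℚ := fun i => (l (Sum.inl 0))⁻¹ * l i with hmdef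
      have hm : ∀ j, ∑ i, m i * w j i = 0 := scale _ l hrel
      have hm1 : m (Sum.inl 0) = 1 := inv_mul_cancel₀ h0
      obtain ⟨m', hm', ha, hk⟩ := key2 m hm
      have hm'0 : m' (Sum.inl 0) = 0 := shz _ (by rw [ha, hm1, map_one, sub_self])
      have hm'1 : m' (Sum.inl 1) = 0 := by
        by_contra h1
        apply hcase
        refine ⟨fun i => (m' (Sum.inl 1))⁻¹ * m' i, scale _ m' hm', ?_, ?_⟩
        · simp only [hm'0, mul_zero]
        · exact inv_mul_cancel₀ h1
      refine ⟨m, hm, ?_, fin m m' ha hk (key1 m' hm' hm'0 hm'1)⟩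
      intro h
      rw [h, Pi.zero_apply] at hm1
      exact zero_ne_one hm1
  -- (4) poles
  obtain ⟨c0, hc0⟩ := sh_const _ (hinv.1 0)
  obtain ⟨c1, hc1⟩ := sh_const _ (hinv.1 1)
  have htQ : taylor 1 (Q k0) ≠ 0 := by
    intro h
    apply hk0
    have h2 : taylor (-1 : ℚ) (taylor 1 (Q k0)) = Q k0 := by
      rw [taylor_taylor]
      simp
    rw [← h2, h, map_zero]
  by_cases hcc : (C c0 * (X + 1) - C c1 : ℚ[X]) = 0
  · have h6 : c0 = 0 ∧ c1 = 0 := by
      have h7 : c0 = 0 := by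
        have := congrArg (fun p => coeff p 1) hcc
        simpa [coeff_X, coeff_one, coeff_C] using this
      refine ⟨h7, ?_⟩
      rw [h7, C_0, zero_mul, zero_sub, neg_eq_zero, C_eq_zero] at hcc
      exact hcc
    apply hm0
    refine key1 m hm ?_ ?_
    · rw [hc0, h6.1, C_0, map_zero]
    · rw [hc1, h6.2, C_0, map_zero]
  · refine no_sol_poly E ((C c0 * (X + 1) - C c1) * taylor 1 (Q k0)) (mul_ne_zero hcc htQ) ?_
      (m (Sum.inr k0)) ?_
    · have h1 : (C c0 * (X + 1) - C c1 : ℚ[X]).natDegree ≤ 1 := by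
        refine (natDegree_sub_le _ _).trans (max_le ((natDegree_C_mul_le _ _).trans ?_) ?_)
        · rw [← C_1, natDegree_X_add_C]
        · rw [natDegree_C]; omega
      have h2 := natDegree_mul_le (p := (C c0 * (X + 1) - C c1 : ℚ[X])) (q := taylor 1 (Q k0))
      rw [natDegree_taylor] at h2
      have h3 := hQd k0
      omega
    · rw [hinv.2 k0, hc0, hc1]
      have h2 : φ (X + 1) = x1 := rfl
      rw [map_mul, map_sub, map_mul, ← hφ, h2, hqq]
      ring

/-! ## the zero estimate for independent coefficients -/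

theorem coreG {κ : Type*} [Fintype κ] [DecidableEq κ] (E T ν K A : ℕ) (lo : ℤ)
    (h : κ → ℤ → PowerSeries ℚ) (Q : κ → ℚ[X]) (hsh : ∀ k, HQ E (Q k) (h k))
    (hQd : ∀ k, (Q k).natDegree + 2 ≤ E) (P : Fin 2 ⊕ κ → ℚ[X])
    (hli : LinearIndependent ℚ fun k => P (Sum.inr k)) (k0 : κ) (hk0 : Q k0 ≠ 0)
    (hAK : A ≤ K) (hd0 : (P (Sum.inl 0)).natDegree ≤ K) (hd1 : (P (Sum.inl 1)).natDegree ≤ A)
    (hd2 : ∀ k, (P (Sum.inr k)).natDegree ≤ A)
    (hv : ∀ n : ℤ, lo ≤ n → n < lo + ν → PowerSeries.X ^ T ∣ RF (gG h) n P) :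
    2 * ((ν - (Fintype.card κ + 1)) * T) ≤
      2 * (K + (Fintype.card κ + 1) * A) + E * ((Fintype.card κ + 1) * (Fintype.card κ + 2)) := by
  classical
  set g := Fintype.card κ with hg
  set e : Fin 2 ⊕ κ ≃ Fin (Fintype.card (Fin 2 ⊕ κ)) := Fintype.equivFin _
  have hcard : Fintype.card (Fin 2 ⊕ κ) = g + 2 := by
    rw [Fintype.card_sum, Fintype.card_fin]
    omega
  have hne := det_ne_G E Q hQd P hli k0 hk0 e
  set B : Matrix (Fin 2 ⊕ κ) (Fin 2 ⊕ κ) ℚ[X] := Matrix.of fun j i => (TP (MG E Q))^[(e j : ℕ)] P i with hB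
  set EE : Fin 2 ⊕ κ → ℕ := Sum.elim ![K, A] (fun _ => A) with hEE
  have hX1 : (X + 1 : ℚ[X]).natDegree ≤ 1 := by rw [← C_1, natDegree_X_add_C]
  have hXk : ∀ k : ℕ, ((X + 1 : ℚ[X]) ^ k).natDegree ≤ k := by
    intro k
    refine natDegree_pow_le.trans ?_
    calc k * (X + 1 : ℚ[X]).natDegree ≤ k * 1 := Nat.mul_le_mul_left _ hX1
      _ = k := by ring
  have hMd : ∀ i j, MG E Q i j ≠ 0 → (MG E Q i j).natDegree + EE i ≤ EE j + E := by
    intro i j hij
    rcases i with x | k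
    · rcases j with y | k'
      · have h6 : x = y := by
          by_contra hne
          apply hij
          simp only [MG]
          rw [if_neg hne]
        subst h6
        simp only [MG]
        rw [if_true]
        have := hXk E
        omega
      · exact absurd rfl hij
    · rcases j with y | k'
      · have h7 := hQd k
        fin_cases y
        · simp only [MG, hEE, Sum.elim_inl, Sum.elim_inr, Fin.zero_eta, if_true, Matrix.cons_val_zero]
          have h8 : ((X + 1) * taylor 1 (Q k) : ℚ[X]).natDegree ≤ 1 + (Q k).natDegree := by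
            refine natDegree_mul_le.trans ?_
            rw [natDegree_taylor]
            omega
          omega
        · simp only [MG, hEE, Sum.elim_inl, Sum.elim_inr]
          simp only [Fin.mk_one, one_ne_zero, if_false, Matrix.cons_val_one, natDegree_neg, natDegree_taylor]
          simp only [Matrix.cons_val_fin_one]
          omega
      · have h6 : k = k' := by
          by_contra hne
          apply hij
          simp only [MG]
          rw [if_neg hne]
        subst h6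
        simp only [MG]
        rw [if_true]
        have := hXk E
        omega
  have hdeg : B.det.natDegree ≤ ∑ j : Fin 2 ⊕ κ, E * (e j : ℕ) + ∑ i, EE i := by
    refine det_natDegree B (fun j => E * (e j : ℕ)) EE ?_
    intro j i
    have h5 := TP_iter_natDegree (MG E Q) EE E hMd P (by
      intro i
      rcases i with x | k
      · fin_cases x
        · exact hd0
        · exact hd1
      · exact hd2 k) (e j) i
    rw [hB, Matrix.of_apply]
    omega
  have hsum1 : ∑ i, EE i = K + (g + 1) * A := by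
    rw [Fintype.sum_sum_type, Fin.sum_univ_two]
    simp only [hEE, Sum.elim_inl, Sum.elim_inr, Matrix.cons_val_zero, Matrix.cons_val_one, Finset.sum_const,
      Finset.card_univ, smul_eq_mul]
    rw [← hg]
    ring
  have hsum2 : 2 * ∑ j : Fin 2 ⊕ κ, E * (e j : ℕ) = E * ((g + 1) * (g + 2)) := by
    have h1 : ∑ j : Fin 2 ⊕ κ, E * (e j : ℕ) = ∑ i : Fin (Fintype.card (Fin 2 ⊕ κ)), E * (i : ℕ) :=
      Fintype.sum_equiv e _ _ (fun _ => rfl)
    rw [h1, Fin.sum_univ_eq_sum_range (fun i => E * i), ← Finset.mul_sum, hcard]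
    have h2 := Finset.sum_range_id_mul_two (g + 2)
    have h3 : g + 2 - 1 = g + 1 := by omega
    rw [h3] at h2
    calc 2 * (E * ∑ i ∈ Finset.range (g + 2), i) = E * ((∑ i ∈ Finset.range (g + 2), i) * 2) := by ring
      _ = E * ((g + 1) * (g + 2)) := by rw [h2]; ring
  have hz : (Finset.Ico lo (lo + ν - ((g + 1 : ℕ) : ℤ))).card * T ≤ B.det.natDegree := by
    refine countZ B.det hne _ T ?_
    intro n hn
    rw [Finset.mem_Ico] at hn
    refine det_zero (gG h) n B T ?_ (Sum.inl 0) ?_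
    · intro j
      refine dvd_trans ?_ (RF_TP_iter (gG_shift E Q h hsh) P (e j) n)
      have h1 := (e j).2
      have h2 : (e j : ℕ) ≤ g + 1 := by omega
      refine hv _ (by omega) ?_
      have h3 : ((e j : ℕ) : ℤ) ≤ ((g + 1 : ℕ) : ℤ) := by exact_mod_cast h2
      omega
    · simp [gG]
  have hc : (Finset.Ico lo (lo + ν - ((g + 1 : ℕ) : ℤ))).card = ν - (g + 1) := by
    rw [Int.card_Ico]
    omega
  rw [hc] at hz
  have h9 := hz.trans hdeg
  rw [hsum1] at h9
  omega

/-! ## two functions -/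

private theorem nd_lt' {p : ℚ[X]} {B : ℕ} (hp : p.degree < B) : p.natDegree ≤ B - 1 := by
  by_cases hp0 : p = 0
  · simp [hp0]
  · have := (natDegree_lt_iff_degree_lt hp0).2 hp
    omega

/-- ZERO ESTIMATE for `1, u` -/
theorem twoFun (lo : ℤ) (T ν K L : ℕ) (hT : 2 ≤ T) (hL : 1 ≤ L) (hLK : L ≤ K)
    (hC : K + L ≤ T * (ν - 2)) (a q : ℚ[X]) (ha : a.degree < K) (hq : q.degree < L)
    (hF : ∀ n : ℤ, lo ≤ n → n < lo + ν → PowerSeries.X ^ T ∣ ((taylor (n : ℚ) a : ℚ[X]) : PowerSeries ℚ)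
        + PowerSeries.X * ((taylor (n : ℚ) q : ℚ[X]) : PowerSeries ℚ)) :
    a = 0 ∧ q = 0 := by
  have hcard : ∀ j : ℕ, (Finset.Ico lo (lo + ν - j)).card = ν - j := by
    intro j
    rw [Int.card_Ico]
    omega
  have hν : 2 ≤ ν := by
    by_contra h
    have h1 : ν - 2 = 0 := by omega
    rw [h1] at hC
    omega
  have hTν : ∀ j : ℕ, j ≤ 2 → T * (ν - 2) ≤ (ν - j) * T := by
    intro j hj
    rw [mul_comm]
    exact Nat.mul_le_mul_right _ (by omega)
  have z_t : ∀ (n : ℤ) (p : ℚ[X]), taylor (n : ℚ) (taylor 1 p) = taylor ((n + 1 : ℤ) : ℚ) p := by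
    intro n p
    rw [taylor_taylor]
    push_cast
    rfl
  have alg_t : ∀ p : ℚ[X], algebraMap ℚ[X] (RatFunc ℚ) (taylor 1 p) = sh (algebraMap ℚ[X] (RatFunc ℚ) p) :=
    fun p => (sh_algebraMap p).symm
  have h1 : ∀ n ∈ Finset.Ico lo (lo + ν - (1 : ℕ)), PowerSeries.X ^ T ∣
      ((taylor (n : ℚ) (a * taylor 1 q - q * taylor 1 a) : ℚ[X]) : PowerSeries ℚ) := by
    intro n hn
    rw [Finset.mem_Ico] at hn
    have h2 := hF n hn.1 (by omega)
    have h3 := hF (n + 1) (by omega) (by push_cast at hn; omega)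
    have h4 : ((taylor (n : ℚ) (a * taylor 1 q - q * taylor 1 a) : ℚ[X]) : PowerSeries ℚ) =
        (((taylor (n : ℚ) a : ℚ[X]) : PowerSeries ℚ)
          + PowerSeries.X * ((taylor (n : ℚ) q : ℚ[X]) : PowerSeries ℚ)) *
          ((taylor ((n + 1 : ℤ) : ℚ) q : ℚ[X]) : PowerSeries ℚ)
        - (((taylor ((n + 1 : ℤ) : ℚ) a : ℚ[X]) : PowerSeries ℚ)
          + PowerSeries.X * ((taylor ((n + 1 : ℤ) : ℚ) q : ℚ[X]) : PowerSeries ℚ)) *
          ((taylor (n : ℚ) q : ℚ[X]) : PowerSeries ℚ) := by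
      simp only [map_sub, taylor_mul, z_t, Polynomial.coe_sub, Polynomial.coe_mul]
      ring
    rw [h4]
    exact dvd_sub (h2.mul_right _) (h3.mul_right _)
  have hz : a * taylor 1 q - q * taylor 1 a = 0 := by
    by_contra hne
    have h2 := countZ _ hne _ T h1
    rw [hcard] at h2
    have h3 : (a * taylor 1 q - q * taylor 1 a).natDegree ≤ (K - 1) + (L - 1) := by
      have ha' := nd_lt' ha
      have hq' := nd_lt' hq
      refine (natDegree_sub_le _ _).trans (max_le (natDegree_mul_le.trans ?_) (natDegree_mul_le.trans ?_))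
      · rw [natDegree_taylor]; omega
      · rw [natDegree_taylor]; omega
    have h4 := hTν 1 (by norm_num)
    omega
  have hq0 : q = 0 := by
    by_contra hq0
    have hq1 : algebraMap ℚ[X] (RatFunc ℚ) q ≠ 0 := alg_ne hq0
    have hq2 : sh (algebraMap ℚ[X] (RatFunc ℚ) q) ≠ 0 := by
      intro h
      exact hq1 (sh_inj (by rw [h, map_zero]))
    have h2 : sh (algebraMap ℚ[X] (RatFunc ℚ) a / algebraMap ℚ[X] (RatFunc ℚ) q) =
        algebraMap ℚ[X] (RatFunc ℚ) a / algebraMap ℚ[X] (RatFunc ℚ) q := by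
      rw [map_div₀, div_eq_div_iff hq2 hq1]
      have h3 := congrArg (algebraMap ℚ[X] (RatFunc ℚ)) hz
      rw [map_sub, map_mul, map_mul, alg_t, alg_t, map_zero] at h3
      linear_combination -h3
    obtain ⟨l, hl⟩ := sh_const _ h2
    have h3 : a = C l * q := by
      apply alg_inj
      rw [map_mul, ← hl]
      field_simp
    have h4 : ∀ n ∈ Finset.Ico lo (lo + ν - (0 : ℕ)), PowerSeries.X ^ (T - 1) ∣
        ((taylor (n : ℚ) q : ℚ[X]) : PowerSeries ℚ) := by
      intro n hn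
      rw [Finset.mem_Ico] at hn
      have h5 := hF n hn.1 (by push_cast at hn; omega)
      rw [h3] at h5
      have h6 : ((taylor (n : ℚ) (C l * q) : ℚ[X]) : PowerSeries ℚ)
          + PowerSeries.X * ((taylor (n : ℚ) q : ℚ[X]) : PowerSeries ℚ) =
          (PowerSeries.C l + PowerSeries.X) * ((taylor (n : ℚ) q : ℚ[X]) : PowerSeries ℚ) := by
        rw [taylor_mul, taylor_C, Polynomial.coe_mul, Polynomial.coe_C]
        ring
      rw [h6] at h5
      by_cases hl0 : l = 0
      · subst hl0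
        have hT' : T = T - 1 + 1 := by omega
        rw [map_zero, zero_add, hT', pow_succ'] at h5
        exact (mul_dvd_mul_iff_left PowerSeries.X_ne_zero).1 h5
      · have h7 : IsUnit (PowerSeries.C l + PowerSeries.X : PowerSeries ℚ) := by
          rw [PowerSeries.isUnit_iff_constantCoeff]
          simp [hl0]
        exact (pow_dvd_pow _ (by omega)).trans (h7.dvd_mul_left.1 h5)
    have h5 := countZ q hq0 _ (T - 1) h4
    rw [hcard] at h5
    have h6 := nd_lt' hq
    have h7 : T * (ν - 2) ≤ 2 * ((ν - 0) * (T - 1)) := by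
      obtain ⟨t, rfl⟩ : ∃ t, T = t + 1 := ⟨T - 1, by omega⟩
      rw [Nat.add_sub_cancel]
      have h8 : t + 1 ≤ 2 * t := by omega
      calc (t + 1) * (ν - 2) ≤ (2 * t) * (ν - 0) := Nat.mul_le_mul h8 (by omega)
        _ = 2 * ((ν - 0) * t) := by ring
    omega
  subst hq0
  refine ⟨?_, rfl⟩
  by_contra ha0
  have h4 : ∀ n ∈ Finset.Ico lo (lo + ν - (0 : ℕ)), PowerSeries.X ^ T ∣
      ((taylor (n : ℚ) a : ℚ[X]) : PowerSeries ℚ) := by
    intro n hn
    rw [Finset.mem_Ico] at hn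
    have h5 := hF n hn.1 (by push_cast at hn; omega)
    simpa using h5
  have h5 := countZ a ha0 _ T h4
  rw [hcard] at h5
  have h6 := nd_lt' ha
  have h7 := hTν 0 (by norm_num)
  omega

/-! ## the theorem -/

private theorem coe_sum' {ι : Type*} (s : Finset ι) (F : ι → ℚ[X]) :
    ((∑ i ∈ s, F i : ℚ[X]) : PowerSeries ℚ) = ∑ i ∈ s, (F i : PowerSeries ℚ) :=
  map_sum (Polynomial.coeToPowerSeries.ringHom (R := ℚ)) _ _

/-- ZERO ESTIMATE for `1, u, G_0, …, G_{f-1}` at the nodes `lo ≤ n < lo + ν` -/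
theorem zeroG_aux (f r0 : ℕ) (hr0 : 1 ≤ r0) (lo : ℤ) (T ν K A : ℕ) (Δ : ℚ) (hΔ : Δ ≠ 0)
    (G : Fin f → ℤ → PowerSeries ℚ)
    (hG : ∀ (i : Fin f) (n : ℤ), (PowerSeries.C (n : ℚ) + PowerSeries.X) ^ (r0 + (i : ℕ) + 1) * G i n =
      (PowerSeries.C (n : ℚ) + PowerSeries.X) ^ (r0 + (i : ℕ) + 1) * G i (n - 1) + PowerSeries.C (Δ * n))
    (hT : 2 ≤ T) (hA : 1 ≤ A) (hAK : A ≤ K) (hf : 1 ≤ f)
    (hC : 2 * (K + (f + 1) * A) + (r0 + f) * ((f + 1) * (f + 2)) + 2 * (T * (f + 1)) ≤ 2 * (T * ν))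
    (a q : ℚ[X]) (P : Fin f → ℚ[X]) (ha : a.degree < K) (hq : q.degree < A) (hP : ∀ i, (P i).degree < A)
    (hF : ∀ n : ℤ, lo ≤ n → n < lo + ν → PowerSeries.X ^ T ∣ ((taylor (n : ℚ) a : ℚ[X]) : PowerSeries ℚ)
        + PowerSeries.X * ((taylor (n : ℚ) q : ℚ[X]) : PowerSeries ℚ)
        + ∑ i, G i n * ((taylor (n : ℚ) (P i) : ℚ[X]) : PowerSeries ℚ)) :
    a = 0 ∧ q = 0 ∧ ∀ i, P i = 0 := by
  classical
  by_cases hall : ∀ i, P i = 0
  · have h1 := twoFun lo T ν K A hT hA hAK (by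
      have h2 : T * ν ≤ T * (ν - 2) + T * 2 := by
        rw [← mul_add]
        exact Nat.mul_le_mul_left _ (by omega)
      have h3 : T * 2 ≤ T * (f + 1) := Nat.mul_le_mul_left _ (by omega)
      have h4 : A ≤ (f + 1) * A := Nat.le_mul_of_pos_left _ (by omega)
      omega) a q ha hq (by
      intro n h2 h3
      have h4 := hF n h2 h3
      simpa [hall] using h4)
    exact ⟨h1.1, h1.2, hall⟩
  · exfalso
    push Not at hall
    obtain ⟨i1, hi1⟩ := hall
    obtain ⟨b, hsb, hli, cc, hcc⟩ := exists_basis P {i1} (by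
      rw [linearIndepOn_singleton_iff]
      exact hi1)
    have : Fintype b := Fintype.ofFinite b
    have hcc' : ∀ i, P i = ∑ k : b, C (cc i k) * P k := by
      intro i
      obtain ⟨inst, h⟩ := hcc i
      rw [h]
      exact Finset.sum_congr (Finset.ext fun x => by simp only [Finset.mem_univ]) fun _ _ => rfl
    have hk : i1 ∈ b := hsb rfl
    set k0 : b := ⟨i1, hk⟩ with hk0
    have hc0 : cc i1 k0 = 1 := by
      have h1 := hcc' i1
      have h2 : ∑ k : b, (cc i1 k - if k = k0 then 1 else 0) • P k = 0 := by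
        simp only [sub_smul, Finset.sum_sub_distrib, ite_smul, one_smul, zero_smul, Finset.sum_ite_eq',
          Finset.mem_univ, if_true]
        rw [sub_eq_zero]
        conv_rhs => rw [hk0]
        change _ = P i1
        conv_rhs => rw [h1]
        exact Finset.sum_congr rfl fun k _ => by rw [smul_eq_C_mul]
      have h3 := (Fintype.linearIndependent_iff.1 (show LinearIndependent ℚ (fun k : b => P k) from hli)) _ h2 k0
      rw [if_pos rfl] at h3
      linarith
    set Q : b → ℚ[X] := fun k => ∑ i : Fin f, C (Δ * cc i k) * X ^ (f - 1 - (i : ℕ)) with hQ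
    set h : b → ℤ → PowerSeries ℚ := fun k n => ∑ i : Fin f, PowerSeries.C (cc i k) * G i n with hh
    have hQd : ∀ k, (Q k).natDegree + 2 ≤ r0 + f := by
      intro k
      have h1 : (Q k).natDegree ≤ f - 1 := by
        refine natDegree_sum_le_of_forall_le _ _ fun i _ => ?_
        refine (natDegree_C_mul_le _ _).trans ((natDegree_X_pow_le _).trans ?_)
        omega
      omega
    have hQ0 : Q k0 ≠ 0 := by
      intro h0
      have h1 := congrArg (fun p => coeff p (f - 1 - (i1 : ℕ))) h0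
      simp only [hQ, finsetSum_coeff, coeff_C_mul, coeff_X_pow, coeff_zero] at h1
      rw [Finset.sum_eq_single i1] at h1
      · rw [if_pos rfl, mul_one, hc0, mul_one] at h1
        exact hΔ h1
      · intro i _ hi
        have h2 : f - 1 - (i1 : ℕ) ≠ f - 1 - (i : ℕ) := by
          intro h3
          apply hi
          apply Fin.ext
          have := i.2
          have := i1.2
          omega
        rw [if_neg h2, mul_zero]
      · intro h2
        exact absurd (Finset.mem_univ _) h2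
    have hsh : ∀ k, HQ (r0 + f) (Q k) (h k) := by
      intro k n
      have h1 : ∀ i : Fin f, (PowerSeries.C (n : ℚ) + PowerSeries.X) ^ (r0 + f) * G i n =
          (PowerSeries.C (n : ℚ) + PowerSeries.X) ^ (r0 + f) * G i (n - 1) +
          PowerSeries.C (Δ * n) * (PowerSeries.C (n : ℚ) + PowerSeries.X) ^ (f - 1 - (i : ℕ)) := by
        intro i
        have h2 : r0 + f = (f - 1 - (i : ℕ)) + (r0 + (i : ℕ) + 1) := by
          have := i.2
          omega
        rw [h2, pow_add, mul_assoc, hG i n]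
        have h3 : f - 1 - (i : ℕ) = (f - 1 - (i : ℕ)) + (r0 + (i : ℕ) + 1) - (r0 + (i : ℕ) + 1) := by omega
        ring
      have h4 : ((taylor (n : ℚ) (Q k) : ℚ[X]) : PowerSeries ℚ) =
          ∑ i : Fin f, PowerSeries.C (Δ * cc i k) *
            (PowerSeries.C (n : ℚ) + PowerSeries.X) ^ (f - 1 - (i : ℕ)) := by
        have h5 : taylor (n : ℚ) (Q k) = ∑ i : Fin f, taylor (n : ℚ) (C (Δ * cc i k) * X ^ (f - 1 - (i : ℕ))) := by
          rw [hQ, ← map_sum]
        rw [h5, coe_sum']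
        refine Finset.sum_congr rfl fun i _ => ?_
        rw [taylor_mul, taylor_C, taylor_pow, taylor_X]
        rw [Polynomial.coe_mul, Polynomial.coe_C, Polynomial.coe_pow, Polynomial.coe_add, Polynomial.coe_X,
          Polynomial.coe_C, add_comm (PowerSeries.X : PowerSeries ℚ)]
      rw [h4, hh]
      simp only [Finset.mul_sum]
      rw [← Finset.sum_add_distrib]
      refine Finset.sum_congr rfl fun i _ => ?_
      have h5 := h1 i
      simp only [map_mul] at h5 ⊢
      linear_combination (PowerSeries.C (cc i k)) * h5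
    set P' : Fin 2 ⊕ b → ℚ[X] := Sum.elim ![a, q] (fun k => P k) with hP'
    have hR : ∀ n : ℤ, RF (gG h) n P' = ((taylor (n : ℚ) a : ℚ[X]) : PowerSeries ℚ)
        + PowerSeries.X * ((taylor (n : ℚ) q : ℚ[X]) : PowerSeries ℚ)
        + ∑ i, G i n * ((taylor (n : ℚ) (P i) : ℚ[X]) : PowerSeries ℚ) := by
      intro n
      have h1 : ∀ i : Fin f, ((taylor (n : ℚ) (P i) : ℚ[X]) : PowerSeries ℚ) =
          ∑ k : b, PowerSeries.C (cc i k) * ((taylor (n : ℚ) (P k) : ℚ[X]) : PowerSeries ℚ) := by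
        intro i
        conv_lhs => rw [hcc' i]
        rw [map_sum]
        refine (map_sum (Polynomial.coeToPowerSeries.ringHom (R := ℚ)) _ _).trans ?_
        refine Finset.sum_congr rfl fun k _ => ?_
        rw [taylor_mul, taylor_C]
        change (((C (cc i k) * taylor (n : ℚ) (P k)) : ℚ[X]) : PowerSeries ℚ) = _
        rw [Polynomial.coe_mul, Polynomial.coe_C]
      have h2 : ∑ i, G i n * ((taylor (n : ℚ) (P i) : ℚ[X]) : PowerSeries ℚ) =
          ∑ k : b, h k n * ((taylor (n : ℚ) (P k) : ℚ[X]) : PowerSeries ℚ) := by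
        simp only [hh, Finset.sum_mul]
        rw [Finset.sum_comm]
        refine Finset.sum_congr rfl fun i _ => ?_
        rw [h1 i, Finset.mul_sum]
        exact Finset.sum_congr rfl fun k _ => by ring
      rw [h2, RF, Fintype.sum_sum_type, Fin.sum_univ_two]
      simp only [gG, hP', Sum.elim_inl, Sum.elim_inr, Matrix.cons_val_zero, Matrix.cons_val_one, if_true,
        one_ne_zero, if_false, mul_one]
      congr 1
      · rw [mul_comm PowerSeries.X]
      · exact Finset.sum_congr rfl fun k _ => by ring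
    have hA1 : ∀ {p : ℚ[X]} {B : ℕ}, p.degree < B → p.natDegree ≤ B - 1 := fun hp => nd_lt' hp
    have h8 := coreG (r0 + f) T ν (K - 1) (A - 1) lo h Q hsh hQd P' hli k0 hQ0 (by omega)
      (by simpa [hP'] using hA1 ha) (by simpa [hP'] using hA1 hq) (fun k => by simpa [hP'] using hA1 (hP k))
      (by
        intro n h2 h3
        rw [hR]
        exact hF n h2 h3)
    have hcard : Fintype.card b ≤ f := by
      have := Fintype.card_subtype_le (fun i : Fin f => i ∈ b)
      rw [Fintype.card_fin] at this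
      convert this
    set g := Fintype.card b with hg
    have e1 : T * ν ≤ (ν - (g + 1)) * T + T * (g + 1) := by
      rw [mul_comm _ T, ← mul_add]
      exact Nat.mul_le_mul_left _ (by omega)
    have e2 : T * (g + 1) ≤ T * (f + 1) := Nat.mul_le_mul_left _ (by omega)
    have e3 : (g + 1) * (A - 1) ≤ (f + 1) * A := Nat.mul_le_mul (by omega) (by omega)
    have e4 : (r0 + f) * ((g + 1) * (g + 2)) ≤ (r0 + f) * ((f + 1) * (f + 2)) :=
      Nat.mul_le_mul_left _ (Nat.mul_le_mul (by omega) (by omega))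
    omega

/-- ZERO ESTIMATE for `1, u, G_0, …, G_{f-1}` at the nodes `|n| ≤ N` -/
theorem zeroG (f r0 : ℕ) (hr0 : 1 ≤ r0) (T N K A : ℕ) (Δ : ℚ) (hΔ : Δ ≠ 0)
    (G : Fin f → ℤ → PowerSeries ℚ)
    (hG : ∀ (i : Fin f) (n : ℤ), (PowerSeries.C (n : ℚ) + PowerSeries.X) ^ (r0 + (i : ℕ) + 1) *
      (G i n - G i (n - 1)) = PowerSeries.C (Δ * n))
    (hT : 2 ≤ T) (hA : 1 ≤ A) (hAK : A ≤ K) (hf : 1 ≤ f)
    (hC : 2 * (K + (f + 1) * A) + (r0 + f) * ((f + 1) * (f + 2)) + 2 * (T * (f + 1)) ≤ 2 * (T * (2 * N + 1)))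
    (a q : ℚ[X]) (P : Fin f → ℚ[X]) (ha : a.degree < K) (hq : q.degree < A) (hP : ∀ i, (P i).degree < A)
    (hF : ∀ n : ℤ, -(N : ℤ) ≤ n → n ≤ N → PowerSeries.X ^ T ∣ ((taylor (n : ℚ) a : ℚ[X]) : PowerSeries ℚ)
        + PowerSeries.X * ((taylor (n : ℚ) q : ℚ[X]) : PowerSeries ℚ)
        + ∑ i, G i n * ((taylor (n : ℚ) (P i) : ℚ[X]) : PowerSeries ℚ)) :
    a = 0 ∧ q = 0 ∧ ∀ i, P i = 0 := by
  refine zeroG_aux f r0 hr0 (-(N : ℤ)) T (2 * N + 1) K A Δ hΔ G (fun i n => ?_) hT hA hAK hf hC a q P ha hq hP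
    (fun n h1 h2 => hF n h1 (by push_cast at h2; omega))
  have := hG i n
  linear_combination this

end MP_a3a416_nt.WIN
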